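import Pool.Agent.Run7.h967.HB.BrAs

/-! # Bridges on `ℤ^d`: the decay for all lengths -/

set_option autoImplicit false

namespace Pool.Agent.Run7.h967.HB

open scoped Classical
open Pool.Agent.H725R2.SB Pool.Agent.TH546.GD Finset Filter

theorem q_le (d : ℕ) (hd : 2 ≤ d) (i : Fin d) : 0 < 1 / mu (Om d) ^ 2 ∧
    1 / mu (Om d) ^ 2 ≤ ff (cl d i) 1 ∧ 1 / mu (Om d) ^ 2 ≤ ff (cl d i) 2 := by
  have hmu := mu_pos' (Om d)
  have hmu1 := one_le_mu (cl d i)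
  have : Nontrivial (Fin d) := Fin.nontrivial_iff_two_le.2 hd
  obtain ⟨j, hj⟩ := exists_ne i
  refine ⟨by positivity, ?_, ?_⟩
  · unfold ff
    rw [if_neg (by norm_num), pow_one]
    have h1 : (1 : ℝ) ≤ ir (cl d i) 1 := by exact_mod_cast one_le_ir_one (cl d i)
    calc 1 / mu (Om d) ^ 2 ≤ 1 / mu (Om d) := by
          refine one_div_le_one_div_of_le hmu ?_
          nlinarith
      _ ≤ _ := div_le_div_of_nonneg_right h1 hmu.le
  · unfold ff
    rw [if_neg (by norm_num)]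
    have h1 : (1 : ℝ) ≤ ir (cl d i) 2 := by
      have := one_le_ir_two (cl d i) (s := Pi.single j 1) (by
        rw [tN2_mem_Om, Finset.sum_eq_single j]
        · simp
        · intro b _ hb
          simp [Pi.single_eq_of_ne hb]
        · simp) (by
        intro h
        have := congrFun h j
        simp at this) (by
        rw [cl_F]
        exact Pi.single_eq_of_ne hj.symm 1)
      exact_mod_cast this
    exact div_le_div_of_nonneg_right h1 (by positivity)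

/-- the terms which only depend on the width -/
theorem width (d : ℕ) (hd : 2 ≤ d) : ∃ c : ℝ, 0 < c ∧ ∃ w0 : ℕ, 3 ≤ w0 ∧ ∀ (i : Fin d) (w : ℕ),
    w0 ≤ w → ((w ^ 4 : ℕ) : ℝ) * (1 - 2 * (1 / mu (Om d) ^ 2)) ^ (w ^ 4) +
      (PS (uu (cl d i)) w / w + 2 * w / Real.sqrt (((w ^ 4 : ℕ) : ℝ) + 1)) ≤
        2 / Real.log w ^ c := by
  obtain ⟨c, hc, n0, h0⟩ := PS_le d hd
  refine ⟨c, hc, ?_⟩
  have hmu := mu_pos' (Om d)
  have i0 : Fin d := ⟨0, by omega⟩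
  have hr0 : 0 ≤ 1 - 2 * (1 / mu (Om d) ^ 2) := by
    obtain ⟨hq, h1, h2⟩ := q_le d hd i0
    have := (ren (cl d i0)).sum_f_le 3
    rw [Finset.sum_range_succ, Finset.sum_range_succ, Finset.sum_range_succ, Finset.sum_range_zero,
      (ren (cl d i0)).f0] at this
    linarith
  have hr1 : 1 - 2 * (1 / mu (Om d) ^ 2) < 1 := by
    have : 0 < 1 / mu (Om d) ^ 2 := by positivity
    linarith
  obtain ⟨r, hr⟩ : ∃ r, r = 1 - 2 * (1 / mu (Om d) ^ 2) := ⟨_, rfl⟩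
  rw [← hr] at hr0 hr1
  have hT := tendsto_pow_const_mul_const_pow_of_abs_lt_one 2 (r := r) (by
    rw [abs_of_nonneg hr0]; exact hr1)
  have h4 : Tendsto (fun w : ℕ => w ^ 4) atTop atTop := tendsto_pow_atTop (by norm_num)
  have E1 : ∀ᶠ w : ℕ in atTop, (((w ^ 4 : ℕ) : ℝ)) ^ 2 * r ^ (w ^ 4) ≤ 1 := by
    have := (hT.comp h4).eventually (ge_mem_nhds (show (0 : ℝ) < 1 by norm_num))
    filter_upwards [this] with w hw
    exact hw
  have E2 : ∀ᶠ w : ℕ in atTop, Real.log (w : ℝ) ^ c ≤ 1 / 3 * (w : ℝ) ^ (1 : ℝ) := by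
    have h3 := (isLittleO_log_rpow_rpow_atTop c (show (0 : ℝ) < 1 by norm_num)).bound
      (show (0 : ℝ) < 1 / 3 by norm_num)
    have h4 := tnat.eventually h3
    filter_upwards [h4, eventually_ge_atTop 1] with m h5 hm1
    have hm : (1 : ℝ) ≤ m := by exact_mod_cast hm1
    rw [Real.norm_of_nonneg (Real.rpow_nonneg (Real.log_nonneg hm) _),
      Real.norm_of_nonneg (by positivity)] at h5
    exact h5
  obtain ⟨w1, h1⟩ := eventually_atTop.1 (E1.and E2)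
  refine ⟨max (max w1 n0) 3, le_max_right _ _, fun i w hw => ?_⟩
  obtain ⟨g1, g2⟩ := h1 w ((le_max_left _ _).trans ((le_max_left _ _).trans hw))
  have hwn : n0 ≤ w := (le_max_right _ _).trans ((le_max_left _ _).trans hw)
  have hw3 : 3 ≤ w := (le_max_right _ _).trans hw
  have hw' : (3 : ℝ) ≤ w := by exact_mod_cast hw3
  have hw0 : (0 : ℝ) < w := by linarith
  have hlog : 1 ≤ Real.log (w : ℝ) := by
    rw [Real.le_log_iff_exp_le (by linarith)]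
    have := Real.exp_one_lt_d9
    linarith
  have hlc : 0 < Real.log (w : ℝ) ^ c := by positivity
  rw [← hr]
  have t1 : ((w ^ 4 : ℕ) : ℝ) * r ^ (w ^ 4) ≤ 1 / w := by
    have hW : (w : ℝ) ≤ ((w ^ 4 : ℕ) : ℝ) := by
      push_cast
      calc (w : ℝ) = (w : ℝ) ^ 1 := by ring
        _ ≤ (w : ℝ) ^ 4 := pow_le_pow_right₀ (by linarith) (by norm_num)
    rw [le_div_iff₀ hw0]
    calc ((w ^ 4 : ℕ) : ℝ) * r ^ (w ^ 4) * w ≤ ((w ^ 4 : ℕ) : ℝ) * r ^ (w ^ 4) * ((w ^ 4 : ℕ) : ℝ) := by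
          gcongr
      _ = (((w ^ 4 : ℕ) : ℝ)) ^ 2 * r ^ (w ^ 4) := by ring
      _ ≤ 1 := g1
  have t2 : PS (uu (cl d i)) w / w ≤ 1 / Real.log w ^ c := by
    have := h0 i w hwn
    rw [div_le_div_iff₀ hw0 hlc, one_mul]
    rwa [le_div_iff₀ hlc] at this
  have t3 : 2 * w / Real.sqrt (((w ^ 4 : ℕ) : ℝ) + 1) ≤ 2 / w := by
    have h5 : (w : ℝ) ^ 2 ≤ Real.sqrt (((w ^ 4 : ℕ) : ℝ) + 1) := by
      refine Real.le_sqrt_of_sq_le ?_
      push_cast
      nlinarith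
    rw [div_le_div_iff₀ (by positivity) hw0]
    nlinarith
  have t4 : 3 / (w : ℝ) ≤ 1 / Real.log w ^ c := by
    rw [Real.rpow_one] at g2
    rw [div_le_div_iff₀ hw0 hlc]
    linarith
  have e1 : 3 / (w : ℝ) = 1 / w + 2 / w := by ring
  have e2 : 2 / Real.log (w : ℝ) ^ c = 1 / Real.log w ^ c + 1 / Real.log w ^ c := by ring
  rw [e2]
  linarith

/-- **decay of the bridge weights, for all lengths** -/
theorem decay (d : ℕ) (hd : 2 ≤ d) : ∃ c : ℝ, 0 < c ∧ ∃ n0 : ℕ, ∀ (i : Fin d) (n : ℕ), n0 ≤ n →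
    uu (cl d i) n ≤ 1 / Real.log (Real.log n) ^ c := by
  obtain ⟨c, hc, w0, hw03, h0⟩ := width d hd
  refine ⟨c / 2, by positivity, ?_⟩
  have hmu := mu_pos' (Om d)
  have i0 : Fin d := ⟨0, by omega⟩
  -- conditions on `y = log n`
  have A1 : ∀ᶠ y : ℝ in atTop, 32 * Real.log y ^ (c / 2) ≤ y ^ (1 / 2 : ℝ) := by
    have h3 := (isLittleO_log_rpow_rpow_atTop (c / 2) (show (0 : ℝ) < 1 / 2 by norm_num)).bound
      (show (0 : ℝ) < 1 / 32 by norm_num)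
    filter_upwards [h3, eventually_ge_atTop 1] with y h5 hy
    rw [Real.norm_of_nonneg (Real.rpow_nonneg (Real.log_nonneg hy) _),
      Real.norm_of_nonneg (by positivity)] at h5
    linarith
  have A2 : ∀ᶠ y : ℝ in atTop, 4 * 64 ^ c ≤ Real.log y ^ (c / 2) :=
    ((tendsto_rpow_atTop (by positivity)).comp Real.tendsto_log_atTop).eventually_ge_atTop _
  have A3 : ∀ᶠ y : ℝ in atTop, y ^ (1 / 64 : ℝ) + 1 ≤ y ^ (1 / 32 : ℝ) := by
    have h3 := (tendsto_rpow_atTop (show (0 : ℝ) < 1 / 64 by norm_num)).eventually_ge_atTop 2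
    filter_upwards [h3, eventually_ge_atTop 1] with y h5 hy
    have e : y ^ (1 / 32 : ℝ) = y ^ (1 / 64 : ℝ) * y ^ (1 / 64 : ℝ) := by
      rw [← Real.rpow_add (by linarith)]; norm_num
    rw [e]
    nlinarith
  have A4 : ∀ᶠ y : ℝ in atTop, (w0 : ℝ) + 1 ≤ y ^ (1 / 32 : ℝ) :=
    (tendsto_rpow_atTop (by norm_num)).eventually_ge_atTop _
  have A5 : ∀ᶠ y : ℝ in atTop, (3 : ℝ) ≤ y := eventually_ge_atTop 3
  have A6 : ∀ᶠ y : ℝ in atTop, 8 * Real.log (mu (Om d)) ≤ y := eventually_ge_atTop _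
  have N1 : ∀ᶠ n : ℕ in atTop, Real.log (n : ℝ) ^ (1 / 4 : ℝ) ≤ 1 / 2 * (n : ℝ) ^ (1 / 2 : ℝ) := by
    have h3 := (isLittleO_log_rpow_rpow_atTop (1 / 4) (show (0 : ℝ) < 1 / 2 by norm_num)).bound
      (show (0 : ℝ) < 1 / 2 by norm_num)
    have h4 := tnat.eventually h3
    filter_upwards [h4, eventually_ge_atTop 1] with m h5 hm1
    have hm : (1 : ℝ) ≤ m := by exact_mod_cast hm1
    rw [Real.norm_of_nonneg (Real.rpow_nonneg (Real.log_nonneg hm) _),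
      Real.norm_of_nonneg (by positivity)] at h5
    exact h5
  have N2 : ∀ᶠ n : ℕ in atTop, (4 : ℝ) ≤ (n : ℝ) ^ (1 / 4 : ℝ) :=
    ((tendsto_rpow_atTop (by norm_num)).comp tnat).eventually_ge_atTop _
  obtain ⟨n0, hn0⟩ := eventually_atTop.1 ((tlog.eventually
    (A1.and (A2.and (A3.and (A4.and (A5.and A6)))))).and (N1.and N2))
  refine ⟨max n0 9, fun i n hn => ?_⟩
  obtain ⟨⟨a1, a2, a3, a4, a5, a6⟩, b1, b2⟩ := hn0 n ((le_max_left _ _).trans hn)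
  have hn9 : 9 ≤ n := (le_max_right _ _).trans hn
  have hn' : (9 : ℝ) ≤ n := by exact_mod_cast hn9
  have hnp : (0 : ℝ) < n := by linarith
  obtain ⟨y, hy⟩ : ∃ y, y = Real.log (n : ℝ) := ⟨_, rfl⟩
  rw [← hy] at a1 a2 a3 a4 a5 a6 b1 ⊢
  have hy0 : (0 : ℝ) < y := by linarith
  obtain ⟨w, hw⟩ : ∃ w, w = ⌊y ^ (1 / 32 : ℝ)⌋₊ := ⟨_, rfl⟩
  have hw1 : (w : ℝ) ≤ y ^ (1 / 32 : ℝ) := by rw [hw]; exact Nat.floor_le (by positivity)
  have hw2 : y ^ (1 / 32 : ℝ) < w + 1 := by rw [hw]; exact Nat.lt_floor_add_one _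
  have hw3 : w0 ≤ w := by
    have : (w0 : ℝ) < w + 1 := by linarith
    have h5 : w0 < w + 1 := by exact_mod_cast this
    omega
  have hw4 : y ^ (1 / 64 : ℝ) ≤ w := by linarith
  have hwp : (0 : ℝ) < w := lt_of_lt_of_le (by positivity) hw4
  have hw5 : 1 ≤ w := by
    have : 0 < w := by exact_mod_cast hwp
    omega
  obtain ⟨x, hx⟩ : ∃ x, x = Nat.sqrt n := ⟨_, rfl⟩
  have hsqn : (n : ℝ) ^ (1 / 2 : ℝ) * (n : ℝ) ^ (1 / 2 : ℝ) = n := by
    rw [← Real.rpow_add hnp]; norm_num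
  have hqn : (n : ℝ) ^ (1 / 4 : ℝ) * (n : ℝ) ^ (1 / 4 : ℝ) = (n : ℝ) ^ (1 / 2 : ℝ) := by
    rw [← Real.rpow_add hnp]; norm_num
  have hx1 : (x : ℝ) ≤ (n : ℝ) ^ (1 / 2 : ℝ) := by
    have h5 : x ^ 2 ≤ n := by rw [hx]; exact Nat.sqrt_le' n
    have h6 : (x : ℝ) ^ 2 ≤ n := by exact_mod_cast h5
    by_contra hcon
    push Not at hcon
    have : 0 < (n : ℝ) ^ (1 / 2 : ℝ) := by positivity
    nlinarith
  have hx2 : (n : ℝ) ^ (1 / 2 : ℝ) ≤ x + 1 := by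
    have h5 : n < (x + 1) ^ 2 := by rw [hx]; exact Nat.lt_succ_sqrt' n
    have h6 : (n : ℝ) ≤ ((x : ℝ) + 1) ^ 2 := by exact_mod_cast h5.le
    by_contra hcon
    push Not at hcon
    have : (0 : ℝ) ≤ x := Nat.cast_nonneg _
    nlinarith
  have hxq : (n : ℝ) ^ (1 / 4 : ℝ) ≤ (x : ℝ) - 1 := by
    nlinarith
  have hx3 : 2 ≤ x := by
    have : (2 : ℝ) ≤ x := by linarith
    exact_mod_cast this
  -- the bound
  obtain ⟨hq, q1, q2⟩ := q_le d hd i
  have hK : ((w ^ 4 * w ^ 4 : ℕ) : ℝ) ≤ y ^ (1 / 4 : ℝ) := by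
    have e : y ^ (1 / 4 : ℝ) = (y ^ (1 / 32 : ℝ)) ^ 8 := by
      rw [← Real.rpow_natCast, ← Real.rpow_mul hy0.le]; norm_num
    rw [e]
    push_cast
    calc (w : ℝ) ^ 4 * (w : ℝ) ^ 4 = (w : ℝ) ^ 8 := by ring
      _ ≤ _ := pow_le_pow_left₀ hwp.le hw1 8
  have hnK : w ^ 4 * w ^ 4 * x + 1 ≤ n := by
    have h5 : ((w ^ 4 * w ^ 4 * x + 1 : ℕ) : ℝ) ≤ n := by
      rw [Nat.cast_add, Nat.cast_mul, Nat.cast_one]
      calc ((w ^ 4 * w ^ 4 : ℕ) : ℝ) * x + 1 ≤ (1 / 2 * (n : ℝ) ^ (1 / 2 : ℝ)) *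
            (n : ℝ) ^ (1 / 2 : ℝ) + 1 := by
            gcongr
            exact hK.trans b1
        _ = 1 / 2 * n + 1 := by rw [mul_assoc, hsqn]
        _ ≤ n := by linarith
    exact_mod_cast h5
  have hb := (ren (cl d i)).bound hq q1 q2 (w ^ 4) (w ^ 4) w x n hw5 (by omega) hnK
  have hPS : 1 / 16 * y ≤ PS (uu (cl d i)) x := by
    have h5 := log_le_PS (cl d i) (x - 1) (by omega)
    rw [show x - 1 + 1 = x by omega] at h5
    have h6 : ((x - 1 : ℕ) : ℝ) = (x : ℝ) - 1 := by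
      rw [Nat.cast_sub (by omega), Nat.cast_one]
    rw [h6] at h5
    have h7 : 1 / 4 * y ≤ Real.log ((x : ℝ) - 1) := by
      have := Real.log_le_log (by positivity) hxq
      rw [Real.log_rpow hnp] at this
      rw [hy]
      linarith
    linarith
  have hPS0 : 0 < PS (uu (cl d i)) x := lt_of_lt_of_le (by positivity) hPS
  have ht1 : ((w ^ 4 * w ^ 4 : ℕ) : ℝ) ^ 2 / PS (uu (cl d i)) x ≤ 16 / y ^ (1 / 2 : ℝ) := by
    rw [div_le_div_iff₀ hPS0 (by positivity)]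
    have e : y ^ (1 / 4 : ℝ) * y ^ (1 / 4 : ℝ) = y ^ (1 / 2 : ℝ) := by
      rw [← Real.rpow_add hy0]; norm_num
    have e2 : y ^ (1 / 2 : ℝ) * y ^ (1 / 2 : ℝ) = y := by
      rw [← Real.rpow_add hy0]; norm_num
    have hK0 : (0 : ℝ) ≤ ((w ^ 4 * w ^ 4 : ℕ) : ℝ) := Nat.cast_nonneg _
    calc ((w ^ 4 * w ^ 4 : ℕ) : ℝ) ^ 2 * y ^ (1 / 2 : ℝ)
        ≤ (y ^ (1 / 4 : ℝ)) ^ 2 * y ^ (1 / 2 : ℝ) := by gcongr
      _ = y := by rw [pow_two, e, e2]
      _ ≤ 16 * PS (uu (cl d i)) x := by linarith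
  have ht2 := h0 i w hw3
  have hlw : 1 / 64 * Real.log y ≤ Real.log w := by
    have := Real.log_le_log (by positivity) hw4
    rwa [Real.log_rpow hy0] at this
  have hly : 1 ≤ Real.log y := by
    rw [Real.le_log_iff_exp_le hy0]
    have := Real.exp_one_lt_d9
    linarith
  have hly0 : 0 < Real.log y := by linarith
  have ht3 : 2 / Real.log (w : ℝ) ^ c ≤ 2 * 64 ^ c / Real.log y ^ c := by
    have h5 : Real.log y ^ c ≤ 64 ^ c * Real.log (w : ℝ) ^ c := by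
      rw [← Real.mul_rpow (by norm_num) (by linarith)]
      exact Real.rpow_le_rpow hly0.le (by linarith) hc.le
    have h6 : 0 < Real.log (w : ℝ) := by linarith
    have h7 : 0 < Real.log (w : ℝ) ^ c := by positivity
    rw [div_le_div_iff₀ h7 (by positivity)]
    linarith
  have e3 : Real.log y ^ c = Real.log y ^ (c / 2) * Real.log y ^ (c / 2) := by
    rw [← Real.rpow_add hly0]; congr 1; ring
  have hlc : 0 < Real.log y ^ (c / 2) := by positivity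
  have ht4 : 2 * 64 ^ c / Real.log y ^ c ≤ 1 / 2 * (1 / Real.log y ^ (c / 2)) := by
    rw [e3, div_le_iff₀ (by positivity)]
    have : 1 / 2 * (1 / Real.log y ^ (c / 2)) * (Real.log y ^ (c / 2) * Real.log y ^ (c / 2)) =
        1 / 2 * Real.log y ^ (c / 2) := by field_simp
    rw [this]
    linarith
  have ht5 : 16 / y ^ (1 / 2 : ℝ) ≤ 1 / 2 * (1 / Real.log y ^ (c / 2)) := by
    rw [one_div_mul_one_div, div_le_div_iff₀ (by positivity) (by positivity)]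
    linarith
  linarith

end Pool.Agent.Run7.h967.HB
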