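import Pool.Agent.Run7.h967.HB.Zd
import Pool.Agent.H725R2.SB.TC2

/-! # Bridges on `ℤ^d`: partial sums, and the decay for all lengths -/

set_option autoImplicit false

namespace Pool.Agent.Run7.h967.HB

open scoped Classical
open Pool.Agent.H725R2.SB Pool.Agent.TH546.GD Finset Filter

/-- the convolution square -/
noncomputable def sq2 (u : ℕ → ℝ) (N : ℕ) : ℝ := ∑ k ∈ range (N + 1), u k * u (N - k)

theorem PS_sq_le (u : ℕ → ℝ) (hu : ∀ n, 0 ≤ u n) (n : ℕ) :
    PS u n ^ 2 ≤ ∑ N ∈ range (2 * n), sq2 u N := by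
  unfold sq2
  rw [Finset.sum_range_diag_flip (2 * n) (fun i j => u i * u j), pow_two]
  calc PS u n * PS u n = ∑ m ∈ range n, ∑ k ∈ range n, u m * u k := by
        unfold PS
        rw [Finset.sum_mul_sum]
    _ ≤ ∑ m ∈ range n, ∑ k ∈ range (2 * n - m), u m * u k := by
        refine Finset.sum_le_sum (fun m hm => ?_)
        rw [Finset.mem_range] at hm
        exact Finset.sum_le_sum_of_subset_of_nonneg (Finset.range_subset_range.2 (by omega))
          (fun k _ _ => mul_nonneg (hu m) (hu k))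
    _ ≤ _ := Finset.sum_le_sum_of_subset_of_nonneg (Finset.range_subset_range.2 (by omega))
          (fun m _ _ => Finset.sum_nonneg (fun k _ => mul_nonneg (hu m) (hu k)))

theorem tnat : Tendsto (fun n : ℕ => (n : ℝ)) atTop atTop := tendsto_natCast_atTop_atTop

theorem tlog : Tendsto (fun n : ℕ => Real.log (n : ℝ)) atTop atTop :=
  Real.tendsto_log_atTop.comp tnat

/-- exponential domination -/
theorem exp_dom (A B p q : ℝ) (hp : 0 < p) (hpq : p < q) :
    ∀ᶠ n : ℕ in atTop, A * n * Real.exp (B * (n : ℝ) ^ p - (n : ℝ) ^ q) ≤ 1 := by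
  have h3 := ((tendsto_rpow_atTop (show 0 < q - p by linarith)).comp tnat).eventually_ge_atTop
    (2 * (|B| + 1))
  have h4 := (isLittleO_log_rpow_atTop (show 0 < q by linarith)).bound
    (show (0 : ℝ) < 1 / 4 by norm_num)
  have h5 := tnat.eventually h4
  have h6 := ((tendsto_rpow_atTop (show 0 < q by linarith)).comp tnat).eventually_ge_atTop
    (4 * Real.log (|A| + 1))
  filter_upwards [h3, h5, h6, eventually_ge_atTop 1] with n g3 g5 g6 hn
  have hn' : (1 : ℝ) ≤ n := by exact_mod_cast hn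
  have hn0 : (0 : ℝ) < n := by linarith
  rw [Real.norm_of_nonneg (Real.log_nonneg hn'), Real.norm_of_nonneg (by positivity)] at g5
  simp only [Function.comp] at g3 g6
  have hA : A ≤ |A| + 1 := by
    have := le_abs_self A
    linarith
  have hA0 : 0 < |A| + 1 := by positivity
  have hB : B * (n : ℝ) ^ p ≤ (n : ℝ) ^ q / 2 := by
    have e1 : (n : ℝ) ^ q = (n : ℝ) ^ p * (n : ℝ) ^ (q - p) := by
      rw [← Real.rpow_add hn0]; congr 1; ring
    have e2 : (n : ℝ) ^ p * (2 * (|B| + 1)) ≤ (n : ℝ) ^ q := by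
      rw [e1]
      exact mul_le_mul_of_nonneg_left g3 (by positivity)
    have e3 : B * (n : ℝ) ^ p ≤ (|B| + 1) * (n : ℝ) ^ p := by
      refine mul_le_mul_of_nonneg_right ?_ (by positivity)
      have := le_abs_self B
      linarith
    linarith
  calc A * n * Real.exp (B * (n : ℝ) ^ p - (n : ℝ) ^ q)
      ≤ (|A| + 1) * n * Real.exp (B * (n : ℝ) ^ p - (n : ℝ) ^ q) := by gcongr
    _ = Real.exp (Real.log (|A| + 1) + Real.log n + (B * (n : ℝ) ^ p - (n : ℝ) ^ q)) := by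
        rw [Real.exp_add, Real.exp_add, Real.exp_log hA0, Real.exp_log hn0]
    _ ≤ Real.exp 0 := by
        refine Real.exp_le_exp.2 ?_
        linarith
    _ = 1 := Real.exp_zero

/-- **convolution square of the bridge weights** -/
theorem sq2_le (d : ℕ) (hd : 2 ≤ d) : ∃ c : ℝ, 0 < c ∧ ∃ n0 : ℕ, ∀ (i : Fin d) (N : ℕ), n0 ≤ N →
    sq2 (uu (cl d i)) N ≤ 5 * ((N : ℝ) / Real.log N ^ c) := by
  obtain ⟨c, hc, h⟩ := block d hd
  refine ⟨c, hc, ?_⟩
  obtain ⟨m0, hm0, h0⟩ := h (1 / 8) (by norm_num)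
  have hmu := mu_pos' (Om d)
  have E1 := exp_dom (mu (Om d)) 25 (3 / 4) (1 - 1 / 8) (by norm_num) (by norm_num)
  have E2 : ∀ᶠ n : ℕ in atTop, Real.log (n : ℝ) ^ c ≤ 1 * (n : ℝ) ^ (1 : ℝ) := by
    have h3 := (isLittleO_log_rpow_rpow_atTop c (show (0 : ℝ) < 1 by norm_num)).bound
      (show (0 : ℝ) < 1 by norm_num)
    have h4 := tnat.eventually h3
    filter_upwards [h4, eventually_ge_atTop 1] with m h5 hm1
    have hm : (1 : ℝ) ≤ m := by exact_mod_cast hm1
    rw [Real.norm_of_nonneg (Real.rpow_nonneg (Real.log_nonneg hm) _),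
      Real.norm_of_nonneg (by positivity)] at h5
    exact h5
  obtain ⟨n1, h1⟩ := eventually_atTop.1 (E1.and E2)
  refine ⟨max n1 m0, fun i N hN => ?_⟩
  obtain ⟨g1, g2⟩ := h1 N ((le_max_left _ _).trans hN)
  have hNm : m0 ≤ N := (le_max_right _ _).trans hN
  have hN3 : 3 ≤ N := hm0.trans hNm
  have hN' : (3 : ℝ) ≤ N := by exact_mod_cast hN3
  have hlog : 1 ≤ Real.log (N : ℝ) := by
    rw [Real.le_log_iff_exp_le (by linarith)]
    have := Real.exp_one_lt_d9
    linarith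
  have hlc : 1 ≤ Real.log (N : ℝ) ^ c := Real.one_le_rpow hlog hc.le
  have hB : 1 ≤ (N : ℝ) / Real.log N ^ c := by
    rw [le_div_iff₀ (by linarith), one_mul]
    simpa using g2
  have h2 := h0 i N 0 N 0 (BrS (cl d i) N) hNm (by omega) (Finset.filter_subset _ _)
  rw [zero_add] at h2
  have hpow : (0 : ℝ) < mu (Om d) ^ N := by positivity
  -- the sum over `t < N`
  have h3 : ∀ t ∈ Finset.Ico 0 N, uu (cl d i) t * uu (cl d i) (N - t) * mu (Om d) ^ N ≤
      (((BrS (cl d i) N).filter (fun ζ => CutT (cl d i) N ζ t)).card : ℝ) := by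
    intro t ht
    rw [Finset.mem_Ico] at ht
    have h4 := bb_mul_bb (cl d i) t (N - t)
    rw [show t + (N - t) = N by omega] at h4
    have e : mu (Om d) ^ N = mu (Om d) ^ t * mu (Om d) ^ (N - t) := by
      rw [← pow_add, show t + (N - t) = N by omega]
    unfold uu
    rw [e, div_mul_div_comm, div_mul_cancel₀ _ (by positivity)]
    exact_mod_cast h4
  have h4 := (Finset.sum_le_sum h3).trans h2
  rw [← Finset.sum_mul] at h4
  have h5 : ((BrS (cl d i) N).card : ℝ) ≤ mu (Om d) ^ N := bb_le (cl d i) N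
  have h6 : (cc (Om d) 0 : ℝ) ≤ 1 := by
    have : cc (Om d) 0 ≤ 1 := by
      unfold cc
      rw [Finset.card_le_one]
      intro ξ hξ η hη
      rw [mem_SawSet] at hξ hη
      funext j
      rw [hξ.zero j (Nat.zero_le _), hη.zero j (Nat.zero_le _)]
    exact_mod_cast this
  have h60 : (0 : ℝ) ≤ cc (Om d) 0 := Nat.cast_nonneg _
  have h7 := cc_le (cl d i) N
  have h8 : (N : ℝ) * (Real.exp (-(N : ℝ) ^ (1 - 1 / 8 : ℝ)) *
      (cc (Om d) 0 * cc (Om d) N * cc (Om d) 0)) ≤ mu (Om d) ^ N := by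
    calc (N : ℝ) * (Real.exp (-(N : ℝ) ^ (1 - 1 / 8 : ℝ)) *
          (cc (Om d) 0 * cc (Om d) N * cc (Om d) 0))
        ≤ (N : ℝ) * (Real.exp (-(N : ℝ) ^ (1 - 1 / 8 : ℝ)) *
          (1 * (Real.exp (25 * (N : ℝ) ^ (3 / 4 : ℝ)) * mu (Om d) ^ (N + 1)) * 1)) := by
          gcongr
      _ = (mu (Om d) * N * (Real.exp (25 * (N : ℝ) ^ (3 / 4 : ℝ)) *
          Real.exp (-(N : ℝ) ^ (1 - 1 / 8 : ℝ)))) * mu (Om d) ^ N := by
          rw [pow_succ]
          ring
      _ = (mu (Om d) * N * Real.exp (25 * (N : ℝ) ^ (3 / 4 : ℝ) - (N : ℝ) ^ (1 - 1 / 8 : ℝ))) *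
          mu (Om d) ^ N := by
          rw [← Real.exp_add, ← sub_eq_add_neg]
      _ ≤ 1 * mu (Om d) ^ N := mul_le_mul_of_nonneg_right g1 hpow.le
      _ = _ := one_mul _
  have h9 : (∑ t ∈ Finset.Ico 0 N, uu (cl d i) t * uu (cl d i) (N - t)) * mu (Om d) ^ N ≤
      (2 * ((N : ℝ) / Real.log N ^ c) + 2) * mu (Om d) ^ N := by
    refine h4.trans ?_
    have h10 : (2 * ((N : ℝ) / Real.log N ^ c) + 1) * ((BrS (cl d i) N).card : ℝ) ≤
        (2 * ((N : ℝ) / Real.log N ^ c) + 1) * mu (Om d) ^ N :=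
      mul_le_mul_of_nonneg_left h5 (by positivity)
    linarith
  have h10 := le_of_mul_le_mul_right h9 hpow
  unfold sq2
  rw [Finset.sum_range_succ, Nat.sub_self]
  rw [Finset.range_eq_Ico]
  have h11 : uu (cl d i) N * uu (cl d i) 0 ≤ 1 := by
    rw [(ren (cl d i)).u0, mul_one]
    exact (ren (cl d i)).u1 N
  linarith

/-- **partial sums of the bridge weights** -/
theorem PS_le (d : ℕ) (hd : 2 ≤ d) : ∃ c : ℝ, 0 < c ∧ ∃ n0 : ℕ, ∀ (i : Fin d) (n : ℕ), n0 ≤ n →
    PS (uu (cl d i)) n ≤ (n : ℝ) / Real.log n ^ c := by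
  obtain ⟨c, hc, n0, h0⟩ := sq2_le d hd
  refine ⟨c / 4, by positivity, ?_⟩
  have E1 : ∀ᶠ n : ℕ in atTop, (2 : ℝ) * (10 * 2 ^ c) ≤ Real.log (n : ℝ) ^ (c / 2) :=
    ((tendsto_rpow_atTop (by positivity)).comp tlog).eventually_ge_atTop _
  have E2 : ∀ᶠ n : ℕ in atTop, Real.log (n : ℝ) ^ c ≤ 1 / 2 * (n : ℝ) ^ (1 / 2 : ℝ) := by
    have h3 := (isLittleO_log_rpow_rpow_atTop c (show (0 : ℝ) < 1 / 2 by norm_num)).bound
      (show (0 : ℝ) < 1 / 2 by norm_num)
    have h4 := tnat.eventually h3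
    filter_upwards [h4, eventually_ge_atTop 1] with m h5 hm1
    have hm : (1 : ℝ) ≤ m := by exact_mod_cast hm1
    rw [Real.norm_of_nonneg (Real.rpow_nonneg (Real.log_nonneg hm) _),
      Real.norm_of_nonneg (by positivity)] at h5
    exact h5
  obtain ⟨n1, h1⟩ := eventually_atTop.1 (E1.and E2)
  refine ⟨max (max n1 (n0 ^ 2)) 9, fun i n hn => ?_⟩
  obtain ⟨g1, g2⟩ := h1 n ((le_max_left _ _).trans ((le_max_left _ _).trans hn))
  have hn2 : n0 ^ 2 ≤ n := (le_max_right _ _).trans ((le_max_left _ _).trans hn)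
  have hn9 : 9 ≤ n := (le_max_right _ _).trans hn
  have hn' : (9 : ℝ) ≤ n := by exact_mod_cast hn9
  have hn0 : (0 : ℝ) < n := by linarith
  have hlog : 1 ≤ Real.log (n : ℝ) := by
    rw [Real.le_log_iff_exp_le (by linarith)]
    have := Real.exp_one_lt_d9
    linarith
  have hl0 : 0 < Real.log (n : ℝ) := by linarith
  have hlc : 0 < Real.log (n : ℝ) ^ c := by positivity
  have hsq : (n : ℝ) ^ (1 / 2 : ℝ) * (n : ℝ) ^ (1 / 2 : ℝ) = n := by
    rw [← Real.rpow_add hn0]; norm_num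
  have hs1 : (1 : ℝ) ≤ (n : ℝ) ^ (1 / 2 : ℝ) := Real.one_le_rpow (by linarith) (by norm_num)
  have hR := ren (cl d i)
  -- every term
  have h2 : ∀ N ∈ range (2 * n), sq2 (uu (cl d i)) N ≤ 10 * 2 ^ c * ((n : ℝ) / Real.log n ^ c) := by
    intro N hN
    rw [Finset.mem_range] at hN
    have h2c : (1 : ℝ) ≤ 2 ^ c := Real.one_le_rpow (by norm_num) hc.le
    rcases le_or_gt (n : ℝ) ((N : ℝ) ^ 2) with hcase | hcase
    · have hN2 : n ≤ N ^ 2 := by exact_mod_cast hcase
      have hNn : n0 ≤ N := by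
        by_contra hcon
        push Not at hcon
        have : N ^ 2 < n0 ^ 2 := by nlinarith
        omega
      have hN3 : 3 ≤ N := by
        by_contra hcon
        push Not at hcon
        have : N ^ 2 ≤ 2 ^ 2 := by nlinarith
        omega
      have hN0 : (0 : ℝ) < N := by
        have : (3 : ℝ) ≤ N := by exact_mod_cast hN3
        linarith
      have hlN : Real.log n ≤ 2 * Real.log N := by
        have := Real.log_le_log hn0 hcase
        rw [Real.log_pow] at this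
        exact_mod_cast this
      have hlN0 : 0 < Real.log (N : ℝ) := by linarith
      have h3 : Real.log (n : ℝ) ^ c ≤ 2 ^ c * Real.log (N : ℝ) ^ c := by
        rw [← Real.mul_rpow (by norm_num) hlN0.le]
        exact Real.rpow_le_rpow hl0.le hlN hc.le
      have h4 := h0 i N hNn
      have h5 : (N : ℝ) ≤ 2 * n := by exact_mod_cast hN.le
      refine h4.trans ?_
      have hlNc : 0 < Real.log (N : ℝ) ^ c := by positivity
      rw [mul_div_assoc', mul_div_assoc', div_le_div_iff₀ hlNc hlc]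
      calc 5 * (N : ℝ) * Real.log n ^ c ≤ 5 * (2 * n) * (2 ^ c * Real.log (N : ℝ) ^ c) := by
            gcongr
        _ = _ := by ring
    · have h3 : sq2 (uu (cl d i)) N ≤ (N : ℝ) + 1 := by
        unfold sq2
        calc ∑ k ∈ range (N + 1), uu (cl d i) k * uu (cl d i) (N - k)
            ≤ ∑ k ∈ range (N + 1), (1 : ℝ) := by
              refine Finset.sum_le_sum (fun k _ => ?_)
              have a1 := hR.u1 k
              have a2 := hR.u1 (N - k)
              have a3 := hR.un k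
              have a4 := hR.un (N - k)
              nlinarith
          _ = (N : ℝ) + 1 := by simp
      have h4 : (N : ℝ) ≤ (n : ℝ) ^ (1 / 2 : ℝ) := by
        by_contra hcon
        push Not at hcon
        nlinarith [Nat.cast_nonneg (α := ℝ) N]
      have h5 : 2 * (n : ℝ) ^ (1 / 2 : ℝ) ≤ (n : ℝ) / Real.log n ^ c := by
        rw [le_div_iff₀ hlc]
        calc 2 * (n : ℝ) ^ (1 / 2 : ℝ) * Real.log n ^ c
            ≤ 2 * (n : ℝ) ^ (1 / 2 : ℝ) * (1 / 2 * (n : ℝ) ^ (1 / 2 : ℝ)) := by gcongr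
          _ = (n : ℝ) ^ (1 / 2 : ℝ) * (n : ℝ) ^ (1 / 2 : ℝ) := by ring
          _ = n := hsq
      have h6 : (n : ℝ) / Real.log n ^ c ≤ 10 * 2 ^ c * ((n : ℝ) / Real.log n ^ c) := by
        have : 0 ≤ (n : ℝ) / Real.log n ^ c := by positivity
        nlinarith
      linarith
  have h3 := (PS_sq_le _ hR.un n).trans (Finset.sum_le_sum h2)
  rw [Finset.sum_const, Finset.card_range, nsmul_eq_mul] at h3
  have h4 : PS (uu (cl d i)) n ^ 2 ≤ ((n : ℝ) / Real.log n ^ (c / 4)) ^ 2 := by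
    refine h3.trans ?_
    have e1 : Real.log (n : ℝ) ^ c = Real.log (n : ℝ) ^ (c / 2) * Real.log (n : ℝ) ^ (c / 2) := by
      rw [← Real.rpow_add hl0]; congr 1; ring
    have e2 : (Real.log (n : ℝ) ^ (c / 4)) ^ 2 = Real.log (n : ℝ) ^ (c / 2) := by
      rw [pow_two, ← Real.rpow_add hl0]; congr 1; ring
    have hl2 : 0 < Real.log (n : ℝ) ^ (c / 2) := by positivity
    rw [div_pow, e2, e1]
    push_cast
    have e3 : 2 * (n : ℝ) * (10 * 2 ^ c * ((n : ℝ) / (Real.log (n : ℝ) ^ (c / 2) *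
        Real.log (n : ℝ) ^ (c / 2)))) = ((2 * (10 * 2 ^ c)) / Real.log (n : ℝ) ^ (c / 2)) *
        ((n : ℝ) ^ 2 / Real.log (n : ℝ) ^ (c / 2)) := by
      field_simp
    rw [e3]
    have e4 : (2 * (10 * 2 ^ c)) / Real.log (n : ℝ) ^ (c / 2) ≤ 1 := by
      rw [div_le_one hl2]
      exact g1
    calc ((2 * (10 * 2 ^ c)) / Real.log (n : ℝ) ^ (c / 2)) *
        ((n : ℝ) ^ 2 / Real.log (n : ℝ) ^ (c / 2))
        ≤ 1 * ((n : ℝ) ^ 2 / Real.log (n : ℝ) ^ (c / 2)) :=
          mul_le_mul_of_nonneg_right e4 (by positivity)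
      _ = _ := one_mul _
  exact le_of_sq_le_sq h4 (by positivity)

end Pool.Agent.Run7.h967.HB
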