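import Pool.Agent.TH546.GD.Piece

/-! # Cut times of self-avoiding walks, half-space walks and bridges -/

set_option autoImplicit false

namespace Pool.Agent.Run7.h967.HB

open scoped Classical
open Pool.Agent.H725R2.SB Pool.Agent.TH546.GD Finset

variable {V : Type*} [AddCommGroup V] {Ω : Finset V}

/-- the walk stays in the closed upper half-space -/
def Up (L : Lev Ω) (n : ℕ) (ξ : ℕ → V) : Prop := ∀ i, i ≤ n → 0 ≤ lev L ξ i

/-- after time `0` the walk stays in the open upper half-space -/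
def SUp (L : Lev Ω) (n : ℕ) (ξ : ℕ → V) : Prop := ∀ i, 1 ≤ i → i ≤ n → 0 < lev L ξ i

/-- the last point is at the highest level -/
def Top (L : Lev Ω) (n : ℕ) (ξ : ℕ → V) : Prop := ∀ i, i ≤ n → lev L ξ i ≤ lev L ξ n

/-- `t` is a cut time -/
def CutT (L : Lev Ω) (n : ℕ) (ξ : ℕ → V) (t : ℕ) : Prop :=
  (∀ i, i ≤ t → lev L ξ i ≤ lev L ξ t) ∧ ∀ i, t < i → i ≤ n → lev L ξ t < lev L ξ i

/-- half-space walks -/
noncomputable def UpS (L : Lev Ω) (n : ℕ) : Finset (ℕ → V) := (SawSet Ω n).filter (Up L n)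

/-- strict half-space walks -/
noncomputable def SUpS (L : Lev Ω) (n : ℕ) : Finset (ℕ → V) := (SawSet Ω n).filter (SUp L n)

/-- walks which end at the highest level -/
noncomputable def TopS (L : Lev Ω) (n : ℕ) : Finset (ℕ → V) := (SawSet Ω n).filter (Top L n)

/-- bridges -/
noncomputable def BrS (L : Lev Ω) (n : ℕ) : Finset (ℕ → V) := (SawSet Ω n).filter (IsBr L n)

/-- number of half-space walks -/
noncomputable def hh (L : Lev Ω) (n : ℕ) : ℕ := (UpS L n).card

/-- number of strict half-space walks -/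
noncomputable def su (L : Lev Ω) (n : ℕ) : ℕ := (SUpS L n).card

/-- number of bridges -/
noncomputable def bb (L : Lev Ω) (n : ℕ) : ℕ := (BrS L n).card

theorem mem_UpS {L : Lev Ω} {n : ℕ} {ξ : ℕ → V} : ξ ∈ UpS L n ↔ IsSaw Ω n ξ ∧ Up L n ξ := by
  unfold UpS
  rw [Finset.mem_filter, mem_SawSet]

theorem mem_SUpS {L : Lev Ω} {n : ℕ} {ξ : ℕ → V} : ξ ∈ SUpS L n ↔ IsSaw Ω n ξ ∧ SUp L n ξ := by
  unfold SUpS
  rw [Finset.mem_filter, mem_SawSet]

theorem mem_TopS {L : Lev Ω} {n : ℕ} {ξ : ℕ → V} : ξ ∈ TopS L n ↔ IsSaw Ω n ξ ∧ Top L n ξ := by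
  unfold TopS
  rw [Finset.mem_filter, mem_SawSet]

theorem mem_BrS {L : Lev Ω} {n : ℕ} {ξ : ℕ → V} : ξ ∈ BrS L n ↔ IsBr L n ξ := by
  unfold BrS
  rw [Finset.mem_filter, mem_SawSet]
  exact ⟨fun h => h.2, fun h => ⟨h.saw, h⟩⟩

theorem card_TopS (L : Lev Ω) (n : ℕ) : (TopS L n).card = hh L n := by
  unfold hh
  refine Finset.card_nbij' (tB_rev n) (tB_rev n) ?_ ?_ ?_ ?_
  · intro ξ hξ
    rw [Finset.mem_coe, mem_TopS] at hξ
    rw [Finset.mem_coe, mem_UpS]
    refine ⟨tB_rev_saw hξ.1, fun i hi => ?_⟩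
    rw [tB_lev_rev L n ξ hi]
    have := hξ.2 (n - i) (by omega)
    omega
  · intro ξ hξ
    rw [Finset.mem_coe, mem_UpS] at hξ
    rw [Finset.mem_coe, mem_TopS]
    refine ⟨tB_rev_saw hξ.1, fun i hi => ?_⟩
    rw [tB_lev_rev L n ξ hi, tB_lev_rev L n ξ le_rfl, Nat.sub_self, lev_zero]
    have := hξ.2 (n - i) (by omega)
    omega
  · intro ξ hξ
    rw [Finset.mem_coe, mem_TopS] at hξ
    exact tB_rev_rev hξ.1
  · intro ξ hξ
    rw [Finset.mem_coe, mem_UpS] at hξ
    exact tB_rev_rev hξ.1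

theorem hh_le_cc (L : Lev Ω) (n : ℕ) : hh L n ≤ cc Ω n :=
  Finset.card_le_card (Finset.filter_subset _ _)

theorem bb_eq_br (L : Lev Ω) (n : ℕ) : bb L n = br L n 0 := by
  unfold bb BrS br
  congr 1
  refine Finset.filter_congr (fun ξ _ => ?_)
  constructor
  · intro h
    have h1 := h.top 0 (Nat.zero_le _)
    rw [lev_zero] at h1
    exact ⟨h, h1⟩
  · intro h
    exact h.1

theorem bb_le (L : Lev Ω) (n : ℕ) : (bb L n : ℝ) ≤ mu Ω ^ n := by
  rw [bb_eq_br]
  exact br_le_mu_pow L n 0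

theorem lev_cat_le (L : Lev Ω) (n : ℕ) (ξ η : ℕ → V) {i : ℕ} (hi : i ≤ n) :
    lev L (cat n ξ η) i = lev L ξ i := by
  unfold lev; rw [P_cat_le n ξ η hi]

theorem lev_cat_add (L : Lev Ω) (n : ℕ) (ξ η : ℕ → V) (i : ℕ) :
    lev L (cat n ξ η) (n + i) = lev L ξ n + lev L η i := by
  unfold lev; rw [P_cat_add, map_add]

/-- gluing at a cut time -/
theorem glue (L : Lev Ω) {t m : ℕ} {ξ ζ : ℕ → V} (hξ : IsSaw Ω t ξ) (h1 : Top L t ξ)
    (hζ : IsSaw Ω m ζ) (h2 : SUp L m ζ) :
    IsSaw Ω (t + m) (cat t ξ ζ) ∧ CutT L (t + m) (cat t ξ ζ) t := by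
  refine ⟨tB_cat (fun i hi => hξ.step i hi) (fun i j hij hj => hξ.inj i j hij hj) hζ ?_, ?_, ?_⟩
  · intro i j hi hj1 hj2 heq
    have h3 := h1 i hi.le
    have h4 := h2 j hj1 hj2
    have h5 : lev L ξ i = lev L ξ t + lev L ζ j := by
      unfold lev
      rw [heq, map_add]
    omega
  · intro i hi
    rw [lev_cat_le L t ξ ζ hi, lev_cat_le L t ξ ζ le_rfl]
    exact h1 i hi
  · intro i hi1 hi2
    obtain ⟨k, rfl⟩ : ∃ k, i = t + k := ⟨i - t, by omega⟩
    rw [lev_cat_add, lev_cat_le L t ξ ζ le_rfl]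
    have := h2 k (by omega) (by omega)
    omega

theorem cat_inj {t : ℕ} {ξ ξ' ζ ζ' : ℕ → V} (h : IsSaw Ω t ξ) (h' : IsSaw Ω t ξ')
    (heq : cat t ξ ζ = cat t ξ' ζ') : ξ = ξ' ∧ ζ = ζ' := by
  constructor
  · funext i
    rcases lt_or_ge i t with hi | hi
    · have := congrFun heq i
      unfold cat at this
      rwa [if_pos hi, if_pos hi] at this
    · rw [h.zero i hi, h'.zero i hi]
  · funext i
    have := congrFun heq (t + i)
    unfold cat at this
    rwa [if_neg (by omega), if_neg (by omega), Nat.add_sub_cancel_left] at this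

/-- number of the walks with a cut at time `t` -/
noncomputable def nc (L : Lev Ω) (n t : ℕ) : ℕ :=
  ((SawSet Ω n).filter (fun ζ => CutT L n ζ t)).card

theorem hh_mul_su (L : Lev Ω) (t m : ℕ) : hh L t * su L m ≤ nc L (t + m) t := by
  rw [← card_TopS]
  unfold su nc
  rw [← Finset.card_product]
  refine Finset.card_le_card_of_injOn (fun p => cat t p.1 p.2) ?_ ?_
  · rintro ⟨ξ, ζ⟩ hp
    rw [Finset.mem_coe, Finset.mem_product, mem_TopS, mem_SUpS] at hp
    have hg := glue L hp.1.1 hp.1.2 hp.2.1 hp.2.2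
    rw [Finset.mem_coe, Finset.mem_filter, mem_SawSet]
    exact hg
  · rintro ⟨ξ, ζ⟩ hp ⟨ξ', ζ'⟩ hp' heq
    rw [Finset.mem_coe, Finset.mem_product, mem_TopS, mem_SUpS] at hp hp'
    obtain ⟨e1, e2⟩ := cat_inj hp.1.1 hp'.1.1 heq
    exact Prod.ext e1 e2

theorem single_saw (L : Lev Ω) : IsSaw Ω 1 (fun i => if i = 0 then L.e else 0) := by
  refine ⟨fun i hi => ?_, fun i hi => ?_, fun i j hij hj heq => ?_⟩
  · have : i = 0 := by omega
    subst this
    simpa using L.eΩ
  · rw [if_neg (by omega)]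
  · have hi : i = 0 := by omega
    have hj : j = 1 := by omega
    subst hi
    subst hj
    have h1 : L.F (P (fun i => if i = 0 then L.e else 0) 0) =
        L.F (P (fun i => if i = 0 then L.e else 0) 1) := by rw [heq]
    simp [P, L.Fe] at h1

theorem lev_single (L : Lev Ω) : lev L (fun i => if i = 0 then L.e else 0) 1 = 1 := by
  simp [lev, P, L.Fe]

theorem hh_le_su (L : Lev Ω) (m : ℕ) : hh L m ≤ su L (1 + m) := by
  unfold hh su
  refine Finset.card_le_card_of_injOn (fun ζ => cat 1 (fun i => if i = 0 then L.e else 0) ζ) ?_ ?_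
  · intro ζ hζ
    rw [Finset.mem_coe, mem_UpS] at hζ
    rw [Finset.mem_coe, mem_SUpS]
    have hs := single_saw L
    refine ⟨tB_cat (fun i hi => hs.step i hi) (fun i j hij hj => hs.inj i j hij hj) hζ.1 ?_, ?_⟩
    · intro i j hi hj1 hj2 heq
      have hi0 : i = 0 := by omega
      subst hi0
      have h3 := hζ.2 j hj2
      have h5 : lev L (fun i => if i = 0 then L.e else 0) 0 =
          lev L (fun i => if i = 0 then L.e else 0) 1 + lev L ζ j := by
        unfold lev
        rw [heq, map_add]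
      rw [lev_zero, lev_single] at h5
      omega
    · intro i hi1 hi2
      obtain ⟨k, rfl⟩ : ∃ k, i = 1 + k := ⟨i - 1, by omega⟩
      rw [lev_cat_add, lev_single]
      have := hζ.2 k (by omega)
      omega
  · intro ζ _ ζ' _ heq
    exact (cat_inj (single_saw L) (single_saw L) heq).2

theorem hh_mul_hh (L : Lev Ω) (t m : ℕ) : hh L t * hh L m ≤ nc L (t + m + 1) t := by
  have h1 := Nat.mul_le_mul_left (hh L t) (hh_le_su L m)
  have h2 := hh_mul_su L t (1 + m)
  rw [show t + (1 + m) = t + m + 1 by ring] at h2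
  exact h1.trans h2

/-- gluing of bridges -/
theorem isBr_cat (L : Lev Ω) {m n : ℕ} {ξ η : ℕ → V} (hx : IsBr L m ξ) (hy : IsBr L n η) :
    IsBr L (m + n) (cat m ξ η) ∧ CutT L (m + n) (cat m ξ η) m := by
  have hg := glue L hx.saw hx.top hy.saw hy.pos
  have hm0 : 0 ≤ lev L ξ m := by
    have := hx.top 0 (Nat.zero_le _)
    rwa [lev_zero] at this
  have hn0 : 0 ≤ lev L η n := by
    have := hy.top 0 (Nat.zero_le _)
    rwa [lev_zero] at this
  refine ⟨⟨hg.1, fun i h1 h2 => ?_, fun i hi => ?_⟩, hg.2⟩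
  · rcases le_or_gt i m with h | h
    · rw [lev_cat_le L m ξ η h]
      exact hx.pos i h1 h
    · have h3 := hg.2.2 i h h2
      rw [lev_cat_le L m ξ η le_rfl] at h3
      omega
  · rw [lev_cat_add L m ξ η n]
    rcases le_or_gt i m with h | h
    · have := hx.top i h
      rw [lev_cat_le L m ξ η h]
      omega
    · obtain ⟨k, rfl⟩ : ∃ k, i = m + k := ⟨i - m, by omega⟩
      rw [lev_cat_add]
      have := hy.top k (by omega)
      omega

theorem bb_mul_bb (L : Lev Ω) (t m : ℕ) :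
    bb L t * bb L m ≤ ((BrS L (t + m)).filter (fun ζ => CutT L (t + m) ζ t)).card := by
  unfold bb
  rw [← Finset.card_product]
  refine Finset.card_le_card_of_injOn (fun p => cat t p.1 p.2) ?_ ?_
  · rintro ⟨ξ, ζ⟩ hp
    rw [Finset.mem_coe, Finset.mem_product, mem_BrS, mem_BrS] at hp
    have hg := isBr_cat L hp.1 hp.2
    rw [Finset.mem_coe, Finset.mem_filter, mem_BrS]
    exact hg
  · rintro ⟨ξ, ζ⟩ hp ⟨ξ', ζ'⟩ hp' heq
    rw [Finset.mem_coe, Finset.mem_product, mem_BrS, mem_BrS] at hp hp'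
    obtain ⟨e1, e2⟩ := cat_inj hp.1.saw hp'.1.saw heq
    exact Prod.ext e1 e2

/-- few cut times in a block in which the walk does not go far -/
theorem card_cuts (L : Lev Ω) {n a M D : ℕ} {ζ : ℕ → V} (haM : a + M ≤ n)
    (h : ∀ k, k ≤ M → |lev L ζ (a + k) - lev L ζ a| ≤ D) :
    ((Finset.Ico a (a + M)).filter (fun t => CutT L n ζ t)).card ≤ 2 * D + 1 := by
  have h1 : ((Finset.Ico a (a + M)).filter (fun t => CutT L n ζ t)).card ≤
      (Finset.Icc (-(D : ℤ)) D).card := by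
    refine Finset.card_le_card_of_injOn (fun t => lev L ζ t - lev L ζ a) ?_ ?_
    · intro t ht
      rw [Finset.mem_coe, Finset.mem_filter, Finset.mem_Ico] at ht
      rw [Finset.mem_coe, Finset.mem_Icc]
      have h2 := h (t - a) (by omega)
      rw [show a + (t - a) = t by omega, abs_le] at h2
      exact h2
    · intro t ht t' ht' heq
      rw [Finset.mem_coe, Finset.mem_filter, Finset.mem_Ico] at ht ht'
      have heq' : lev L ζ t = lev L ζ t' := by
        have h3 : lev L ζ t - lev L ζ a = lev L ζ t' - lev L ζ a := heq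
        omega
      rcases lt_trichotomy t t' with hl | hl | hl
      · have := ht.2.2 t' hl (by omega)
        omega
      · exact hl
      · have := ht'.2.2 t hl (by omega)
        omega
  rw [Int.card_Icc] at h1
  omega

/-- cut times of the walks of a family, in a block -/
theorem sum_cuts (L : Lev Ω) {n a M D : ℕ} (haM : a + M ≤ n) (S : Finset (ℕ → V))
    (hS : S ⊆ SawSet Ω n) :
    ∑ t ∈ Finset.Ico a (a + M), (S.filter (fun ζ => CutT L n ζ t)).card ≤
      (2 * D + 1) * S.card + M * ((SawSet Ω n).filter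
        (fun ζ => ∃ k, k ≤ M ∧ (D : ℤ) < |lev L ζ (a + k) - lev L ζ a|)).card := by
  have h1 : ∑ t ∈ Finset.Ico a (a + M), (S.filter (fun ζ => CutT L n ζ t)).card =
      ∑ ζ ∈ S, ((Finset.Ico a (a + M)).filter (fun t => CutT L n ζ t)).card := by
    simp only [Finset.card_filter]
    rw [Finset.sum_comm]
  rw [h1]
  have h2 : ∀ ζ ∈ S, ((Finset.Ico a (a + M)).filter (fun t => CutT L n ζ t)).card ≤
      (2 * D + 1) + (if ∃ k, k ≤ M ∧ (D : ℤ) < |lev L ζ (a + k) - lev L ζ a| then M else 0) := by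
    intro ζ _
    by_cases hf : ∃ k, k ≤ M ∧ (D : ℤ) < |lev L ζ (a + k) - lev L ζ a|
    · rw [if_pos hf]
      have h3 : ((Finset.Ico a (a + M)).filter (fun t => CutT L n ζ t)).card ≤
          (Finset.Ico a (a + M)).card := Finset.card_le_card (Finset.filter_subset _ _)
      rw [Nat.card_Ico] at h3
      omega
    · rw [if_neg hf]
      push Not at hf
      have := card_cuts L haM hf
      omega
  refine (Finset.sum_le_sum h2).trans ?_
  rw [Finset.sum_add_distrib, Finset.sum_const, smul_eq_mul, ← Finset.sum_filter,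
    Finset.sum_const, smul_eq_mul]
  have h3 : (S.filter (fun ζ => ∃ k, k ≤ M ∧ (D : ℤ) < |lev L ζ (a + k) - lev L ζ a|)).card ≤
      ((SawSet Ω n).filter
        (fun ζ => ∃ k, k ≤ M ∧ (D : ℤ) < |lev L ζ (a + k) - lev L ζ a|)).card :=
    Finset.card_le_card (Finset.filter_subset_filter _ hS)
  have h4 := Nat.mul_le_mul_left M h3
  have e1 : S.card * (2 * D + 1) = (2 * D + 1) * S.card := mul_comm _ _
  have e2 : (S.filter (fun ζ => ∃ k, k ≤ M ∧ (D : ℤ) < |lev L ζ (a + k) - lev L ζ a|)).card * M =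
      M * (S.filter (fun ζ => ∃ k, k ≤ M ∧ (D : ℤ) < |lev L ζ (a + k) - lev L ζ a|)).card :=
    mul_comm _ _
  omega

/-- the number of the walks whose piece is in `E` -/
theorem card_pcs (a M r : ℕ) (E : Set (ℕ → V)) {n : ℕ} (hn : n = a + M + r) :
    (((SawSet Ω n).filter (fun ζ => pcs a M ζ ∈ E)).card : ℝ) ≤
      cc Ω a * (((SawSet Ω M).filter (fun v => v ∈ E)).card : ℝ) * cc Ω r := by
  have h1 := sum_prod (Ω := Ω) a M r (fun _ v => if v ∈ E then 1 else 0)
    (fun _ v => by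
      show (0 : ℝ) ≤ if v ∈ E then 1 else 0
      split_ifs
      · exact zero_le_one
      · exact le_rfl) 1 n (by rw [hn]; ring)
  simp only [Finset.prod_range_one, zero_mul, add_zero] at h1
  rw [← Finset.sum_filter, ← Finset.sum_filter] at h1
  simpa only [Finset.sum_const, nsmul_eq_mul, mul_one] using h1

end Pool.Agent.Run7.h967.HB
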