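import Pool.Agent.Run7.h967.HB.BrAll
import Pool.Agent.W325.S3.Fin
import Pool.Agent.H46R2.K3.EQ

/-! # Half-space walks on `ℤ³`: most lengths -/

set_option autoImplicit false

namespace Pool.Agent.Run7.h967.HB

open scoped Classical
open Pool.Agent.H725R2.SB Pool.Agent.TH546.GD Finset Filter

/-- squares of sums over a window -/
theorem win_sq (x : ℕ → ℝ) (hx : ∀ n, 0 ≤ x n) (n M : ℕ) :
    (∑ m ∈ Ico n (n + M), x m) ^ 2 ≤
      ∑ N ∈ Ico (2 * n) (2 * n + 2 * M), ∑ t ∈ Ico n (n + M), x t * x (N - t) := by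
  rw [Finset.sum_comm, pow_two, Finset.sum_mul_sum]
  refine Finset.sum_le_sum (fun t ht => ?_)
  rw [Finset.mem_Ico] at ht
  have h1 := Finset.sum_Ico_add' (fun N => x t * x (N - t)) n (n + M) t
  have h2 : ∑ j ∈ Ico n (n + M), x t * x j = ∑ j ∈ Ico n (n + M), x t * x (j + t - t) := by
    refine Finset.sum_congr rfl (fun j _ => ?_)
    rw [Nat.add_sub_cancel]
  rw [h2, h1]
  refine Finset.sum_le_sum_of_subset_of_nonneg ?_ (fun j _ _ => mul_nonneg (hx _) (hx _))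
  intro j hj
  rw [Finset.mem_Ico] at hj ⊢
  omega

/-- the two constants agree -/
theorem cc3 (n : ℕ) : (cc (Om 3) n : ℝ) = (Pool.Agent.H46R2.K3.c n : ℝ) := by
  rw [← card_WF, ← Pool.Agent.H46R2.K3.P.card_eq n]
  have h1 : ((WF 3 n).card : ℝ) = (((WF 3 n : Set (Fin (n + 1) → Fin 3 → ℤ))).ncard : ℝ) := by
    rw [Set.ncard_coe_finset]
  rw [h1, ← Nat.card_coe_set_eq]
  congr 1
  refine Nat.card_congr (Equiv.subtypeEquivRight (fun ω => ?_))
  rw [Finset.mem_coe, mem_WF]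
  constructor
  · rintro ⟨h1, h2, h3⟩
    exact ⟨h1, h3, h2⟩
  · rintro ⟨h1, h2, h3⟩
    exact ⟨h1, h3, h2⟩

theorem i3 : (0 : Fin 3) = 0 := rfl

theorem mu3 : mu (Om 3) = Pool.Agent.H46R2.K3.mu := by
  have L := cl 3 0
  have hmu := mu_pos' (Om 3)
  have hk1 := Pool.Agent.H46R2.K3.P.one_le_mu
  have hk0 : 0 < Pool.Agent.H46R2.K3.mu := by linarith
  refine le_antisymm ?_ ?_
  · refine ge_of_tendsto Pool.Agent.H46R2.K3.P.tendsto_c ?_
    filter_upwards [eventually_ge_atTop 1] with n hn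
    have hn0 : (0 : ℝ) < n := by exact_mod_cast hn
    have h1 := mu_pow_le_cc L n
    rw [cc3] at h1
    calc mu (Om 3) = (mu (Om 3) ^ n) ^ (1 / (n : ℝ)) := by
          rw [← Real.rpow_natCast, ← Real.rpow_mul hmu.le, mul_one_div_cancel hn0.ne',
            Real.rpow_one]
      _ ≤ _ := Real.rpow_le_rpow (by positivity) h1 (by positivity)
  · unfold mu
    rw [← Real.log_le_iff_le_exp hk0]
    refine le_csInf ⟨_, 1, Set.mem_Ici.2 le_rfl, rfl⟩ ?_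
    rintro _ ⟨n, hn, rfl⟩
    rw [Set.mem_Ici] at hn
    have hn0 : (0 : ℝ) < n := by exact_mod_cast hn
    show _ ≤ Real.log (cc (Om 3) n) / n
    rw [le_div_iff₀ hn0, cc3]
    have h1 := Real.log_le_log (by positivity) (Pool.Agent.H46R2.K3.P.mu_pow_le n)
    rw [Real.log_pow] at h1
    linarith

theorem growth3 (ε : ℝ) (hε : 0 < ε) : ∃ K : ℝ, 0 ≤ K ∧ ∀ n : ℕ,
    (cc (Om 3) n : ℝ) ≤ mu (Om 3) ^ n * Real.exp (K * (n : ℝ) ^ (1 / 3 + ε)) := by
  obtain ⟨K, hK⟩ := Pool.Agent.W325.S3.c_third ε hε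
  have hmu := mu_pos' (Om 3)
  refine ⟨max K 0, le_max_right _ _, fun n => ?_⟩
  rw [cc3]
  have h1 := hK n
  rw [← mu3] at h1
  refine h1.trans (mul_le_mul_of_nonneg_left (Real.exp_le_exp.2 ?_) (by positivity))
  exact mul_le_mul_of_nonneg_right (le_max_left _ _) (by positivity)

/-- the product of the numbers of the walks with the lengths of the pieces -/
theorem prod3 (ε : ℝ) (hε : 0 < ε) : ∃ K : ℝ, 0 ≤ K ∧ ∀ n a M r : ℕ, n = a + M + r →
    (cc (Om 3) a : ℝ) * cc (Om 3) M * cc (Om 3) r ≤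
      Real.exp (K * (n : ℝ) ^ (1 / 3 + ε)) * cc (Om 3) n := by
  obtain ⟨K, hK0, hK⟩ := growth3 ε hε
  have hmu := mu_pos' (Om 3)
  refine ⟨3 * K, by positivity, fun n a M r hn => ?_⟩
  have hle : ∀ k : ℕ, k ≤ n → (cc (Om 3) k : ℝ) ≤
      mu (Om 3) ^ k * Real.exp (K * (n : ℝ) ^ (1 / 3 + ε)) := by
    intro k hk
    refine (hK k).trans (mul_le_mul_of_nonneg_left (Real.exp_le_exp.2 ?_) (by positivity))
    have : (k : ℝ) ≤ n := by exact_mod_cast hk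
    gcongr
  have e : mu (Om 3) ^ n = mu (Om 3) ^ a * mu (Om 3) ^ M * mu (Om 3) ^ r := by
    rw [hn, pow_add, pow_add]
  have h1 := mu_pow_le_cc (cl 3 0) n
  calc (cc (Om 3) a : ℝ) * cc (Om 3) M * cc (Om 3) r
      ≤ (mu (Om 3) ^ a * Real.exp (K * (n : ℝ) ^ (1 / 3 + ε))) *
        (mu (Om 3) ^ M * Real.exp (K * (n : ℝ) ^ (1 / 3 + ε))) *
        (mu (Om 3) ^ r * Real.exp (K * (n : ℝ) ^ (1 / 3 + ε))) := by
        have a1 := hle a (by omega)
        have a2 := hle M (by omega)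
        have a3 := hle r (by omega)
        gcongr
    _ = (Real.exp (K * (n : ℝ) ^ (1 / 3 + ε)) * Real.exp (K * (n : ℝ) ^ (1 / 3 + ε)) *
        Real.exp (K * (n : ℝ) ^ (1 / 3 + ε))) * mu (Om 3) ^ n := by rw [e]; ring
    _ = Real.exp (3 * K * (n : ℝ) ^ (1 / 3 + ε)) * mu (Om 3) ^ n := by
        rw [← Real.exp_add, ← Real.exp_add]
        congr 2
        ring
    _ ≤ _ := mul_le_mul_of_nonneg_left h1 (Real.exp_pos _).le

/-- **cut times in a block, for all long walks** -/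
theorem blockH : ∃ c : ℝ, 0 < c ∧ ∀ ε : ℝ, 0 < ε → ∃ n0 : ℕ, ∀ n : ℕ, n0 ≤ n → ∀ a M : ℕ,
    (n : ℝ) ^ (1 / 3 + ε) ≤ M → a + M ≤ n →
    ∑ t ∈ Ico a (a + M), (nc (cl 3 0) n t : ℝ) ≤ (M : ℝ) / Real.log n ^ c * cc (Om 3) n := by
  obtain ⟨c, hc, h⟩ := block 3 (by norm_num)
  refine ⟨c / 2, by positivity, fun ε hε => ?_⟩
  obtain ⟨p, hp⟩ : ∃ p : ℝ, p = 1 / 3 + ε := ⟨_, rfl⟩
  have hp0 : 0 < p := by rw [hp]; positivity
  obtain ⟨ε1, hε1⟩ : ∃ ε1 : ℝ, ε1 = ε / (2 * p) := ⟨_, rfl⟩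
  have hε10 : 0 < ε1 := by rw [hε1]; positivity
  have hε1p : p * (1 - ε1) = 1 / 3 + ε / 2 := by
    rw [hε1, hp]
    have : (1 / 3 + ε : ℝ) ≠ 0 := by positivity
    field_simp
    ring
  obtain ⟨m0, hm03, h0⟩ := h ε1 hε10
  obtain ⟨K, hK0, hK⟩ := prod3 (ε / 4) (by positivity)
  have E1 := exp_dom 1 K (1 / 3 + ε / 4) (1 / 3 + ε / 2) (by positivity) (by linarith)
  have E2 : ∀ᶠ n : ℕ in atTop, (m0 : ℝ) ≤ (n : ℝ) ^ p :=
    ((tendsto_rpow_atTop hp0).comp tnat).eventually_ge_atTop _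
  have E3 : ∀ᶠ n : ℕ in atTop, 4 * 3 ^ c ≤ Real.log (n : ℝ) ^ (c / 2) :=
    ((tendsto_rpow_atTop (by positivity)).comp tlog).eventually_ge_atTop _
  have E4 : ∀ᶠ n : ℕ in atTop, Real.log (n : ℝ) ^ (c / 2) ≤ 1 / 4 * (n : ℝ) ^ p := by
    have h3 := (isLittleO_log_rpow_rpow_atTop (c / 2) hp0).bound
      (show (0 : ℝ) < 1 / 4 by norm_num)
    have h4 := tnat.eventually h3
    filter_upwards [h4, eventually_ge_atTop 1] with m h5 hm1
    have hm : (1 : ℝ) ≤ m := by exact_mod_cast hm1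
    rw [Real.norm_of_nonneg (Real.rpow_nonneg (Real.log_nonneg hm) _),
      Real.norm_of_nonneg (by positivity)] at h5
    exact h5
  obtain ⟨n0, hn0⟩ := eventually_atTop.1 (E1.and (E2.and (E3.and E4)))
  refine ⟨max n0 3, fun n hn a M hM haM => ?_⟩
  obtain ⟨g1, g2, g3, g4⟩ := hn0 n ((le_max_left _ _).trans hn)
  have hn3 : 3 ≤ n := (le_max_right _ _).trans hn
  have hn' : (3 : ℝ) ≤ n := by exact_mod_cast hn3
  have hn0' : (0 : ℝ) < n := by linarith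
  rw [← hp] at hM
  have hMm : m0 ≤ M := by
    have : (m0 : ℝ) ≤ M := g2.trans hM
    exact_mod_cast this
  obtain ⟨r, hr⟩ : ∃ r, n = a + M + r := ⟨n - (a + M), by omega⟩
  have hcn := cc_pos (cl 3 0) n
  have h1 := h0 0 n a M r (SawSet (Om 3) n) hMm hr (Finset.Subset.refl _)
  have h2 := hK n a M r hr
  have hM3 : 3 ≤ M := hm03.trans hMm
  have hM' : (3 : ℝ) ≤ M := by exact_mod_cast hM3
  have hM0 : (0 : ℝ) < M := by linarith
  have hMn : (M : ℝ) ≤ n := by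
    have : M ≤ n := by omega
    exact_mod_cast this
  have hlM : 0 < Real.log (M : ℝ) := Real.log_pos (by linarith)
  have hln : 0 < Real.log (n : ℝ) := Real.log_pos (by linarith)
  have hl3 : Real.log (n : ℝ) ≤ 3 * Real.log M := by
    have h3 := Real.log_le_log (by positivity) hM
    rw [Real.log_rpow hn0'] at h3
    have : 1 / 3 ≤ p := by rw [hp]; linarith
    nlinarith
  have hB : (M : ℝ) / Real.log M ^ c ≤ 3 ^ c * ((M : ℝ) / Real.log n ^ c) := by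
    have h3 : Real.log (n : ℝ) ^ c ≤ 3 ^ c * Real.log (M : ℝ) ^ c := by
      rw [← Real.mul_rpow (by norm_num) hlM.le]
      exact Real.rpow_le_rpow hln.le hl3 hc.le
    rw [mul_div_assoc', div_le_div_iff₀ (by positivity) (by positivity)]
    nlinarith
  have hsecond : (M : ℝ) * (Real.exp (-(M : ℝ) ^ (1 - ε1)) *
      (cc (Om 3) a * cc (Om 3) M * cc (Om 3) r)) ≤ 1 * cc (Om 3) n := by
    have hε11 : 0 ≤ 1 - ε1 := by
      have h3 : 0 < p * (1 - ε1) := by rw [hε1p]; positivity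
      by_contra hcon
      push Not at hcon
      have := mul_neg_of_pos_of_neg hp0 hcon
      linarith
    have h3 : (n : ℝ) ^ (1 / 3 + ε / 2) ≤ (M : ℝ) ^ (1 - ε1) := by
      rw [← hε1p, Real.rpow_mul hn0'.le]
      exact Real.rpow_le_rpow (by positivity) hM hε11
    calc (M : ℝ) * (Real.exp (-(M : ℝ) ^ (1 - ε1)) *
          (cc (Om 3) a * cc (Om 3) M * cc (Om 3) r))
        ≤ (n : ℝ) * (Real.exp (-(n : ℝ) ^ (1 / 3 + ε / 2)) *
          (Real.exp (K * (n : ℝ) ^ (1 / 3 + ε / 4)) * cc (Om 3) n)) := by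
          gcongr
      _ = (1 * n * (Real.exp (K * (n : ℝ) ^ (1 / 3 + ε / 4)) *
          Real.exp (-(n : ℝ) ^ (1 / 3 + ε / 2)))) * cc (Om 3) n := by ring
      _ = (1 * n * Real.exp (K * (n : ℝ) ^ (1 / 3 + ε / 4) - (n : ℝ) ^ (1 / 3 + ε / 2))) *
          cc (Om 3) n := by
          rw [← Real.exp_add, ← sub_eq_add_neg]
      _ ≤ 1 * cc (Om 3) n := mul_le_mul_of_nonneg_right g1 hcn.le
  have hS : ((SawSet (Om 3) n).card : ℝ) = cc (Om 3) n := rfl
  rw [hS] at h1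
  have hnc : ∑ t ∈ Ico a (a + M), (nc (cl 3 0) n t : ℝ) ≤
      (2 * ((M : ℝ) / Real.log M ^ c) + 1) * cc (Om 3) n + 1 * cc (Om 3) n :=
    h1.trans (add_le_add le_rfl hsecond)
  refine hnc.trans ?_
  have e1 : Real.log (n : ℝ) ^ c = Real.log (n : ℝ) ^ (c / 2) * Real.log (n : ℝ) ^ (c / 2) := by
    rw [← Real.rpow_add hln]; congr 1; ring
  have hlc : 0 < Real.log (n : ℝ) ^ (c / 2) := by positivity
  have t1 : 2 * ((M : ℝ) / Real.log M ^ c) ≤ 1 / 2 * ((M : ℝ) / Real.log n ^ (c / 2)) := by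
    calc 2 * ((M : ℝ) / Real.log M ^ c) ≤ 2 * (3 ^ c * ((M : ℝ) / Real.log n ^ c)) := by gcongr
      _ = (4 * 3 ^ c / Real.log n ^ (c / 2)) * (1 / 2 * ((M : ℝ) / Real.log n ^ (c / 2))) := by
          rw [e1]
          field_simp
          ring
      _ ≤ 1 * (1 / 2 * ((M : ℝ) / Real.log n ^ (c / 2))) := by
          refine mul_le_mul_of_nonneg_right ?_ (by positivity)
          rw [div_le_one hlc]
          exact g3
      _ = _ := one_mul _
  have t2 : 2 ≤ 1 / 2 * ((M : ℝ) / Real.log n ^ (c / 2)) := by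
    rw [mul_div_assoc', le_div_iff₀ hlc]
    linarith
  have t3 : (2 * ((M : ℝ) / Real.log M ^ c) + 1) + 1 ≤ (M : ℝ) / Real.log n ^ (c / 2) := by
    linarith
  calc (2 * ((M : ℝ) / Real.log M ^ c) + 1) * (cc (Om 3) n : ℝ) + 1 * cc (Om 3) n
      = ((2 * ((M : ℝ) / Real.log M ^ c) + 1) + 1) * cc (Om 3) n := by ring
    _ ≤ _ := mul_le_mul_of_nonneg_right t3 hcn.le

/-- the proportion of half-space walks -/
noncomputable def rho (t : ℕ) : ℝ := (hh (cl 3 0) t : ℝ) / cc (Om 3) t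

theorem rho_nonneg (t : ℕ) : 0 ≤ rho t := by
  unfold rho
  positivity

/-- products of proportions -/
theorem rho_mul (t s : ℕ) :
    rho t * rho s * cc (Om 3) (t + s + 1) ≤ cc (Om 3) 1 * nc (cl 3 0) (t + s + 1) t := by
  have ht := cc_pos (cl 3 0) t
  have hs := cc_pos (cl 3 0) s
  have h1 : (hh (cl 3 0) t : ℝ) * hh (cl 3 0) s ≤ nc (cl 3 0) (t + s + 1) t := by
    exact_mod_cast hh_mul_hh (cl 3 0) t s
  have h2 : (cc (Om 3) (t + s + 1) : ℝ) ≤ cc (Om 3) t * cc (Om 3) s * cc (Om 3) 1 := by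
    have a1 := cc_add (Om 3) (t + s) 1
    have a2 := Nat.mul_le_mul_right (cc (Om 3) 1) (cc_add (Om 3) t s)
    exact_mod_cast a1.trans a2
  have h3 : (0 : ℝ) ≤ hh (cl 3 0) t * hh (cl 3 0) s := by positivity
  unfold rho
  rw [div_mul_div_comm, div_mul_eq_mul_div, div_le_iff₀ (by positivity)]
  calc (hh (cl 3 0) t : ℝ) * hh (cl 3 0) s * cc (Om 3) (t + s + 1)
      ≤ (hh (cl 3 0) t * hh (cl 3 0) s) * (cc (Om 3) t * cc (Om 3) s * cc (Om 3) 1) :=
        mul_le_mul_of_nonneg_left h2 h3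
    _ ≤ nc (cl 3 0) (t + s + 1) t * (cc (Om 3) t * cc (Om 3) s * cc (Om 3) 1) :=
        mul_le_mul_of_nonneg_right h1 (by positivity)
    _ = _ := by ring

/-- **half-space walks in windows of lengths** -/
theorem windowH : ∃ c : ℝ, 0 < c ∧ ∀ ε : ℝ, 0 < ε → ∃ n0 : ℕ, ∀ n : ℕ, n0 ≤ n → ∀ M : ℕ,
    (n : ℝ) ^ (1 / 3 + ε) ≤ M → M ≤ n →
    ∑ m ∈ Ico n (n + M), rho m ≤ (M : ℝ) / Real.log n ^ c := by
  obtain ⟨c, hc, h⟩ := blockH
  refine ⟨c / 4, by positivity, fun ε hε => ?_⟩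
  obtain ⟨n1, h1⟩ := h (ε / 2) (by positivity)
  have E1 : ∀ᶠ n : ℕ in atTop, (5 : ℝ) ^ (1 / 3 + ε / 2) ≤ (n : ℝ) ^ (ε / 2) :=
    ((tendsto_rpow_atTop (by positivity)).comp tnat).eventually_ge_atTop _
  have E2 : ∀ᶠ n : ℕ in atTop, 2 * (cc (Om 3) 1 : ℝ) ≤ Real.log (n : ℝ) ^ (c / 2) :=
    ((tendsto_rpow_atTop (by positivity)).comp tlog).eventually_ge_atTop _
  obtain ⟨n2, h2⟩ := eventually_atTop.1 (E1.and E2)
  refine ⟨max (max n1 n2) 3, fun n hn M hM hMn => ?_⟩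
  obtain ⟨g1, g2⟩ := h2 n ((le_max_right _ _).trans ((le_max_left _ _).trans hn))
  have hnn1 : n1 ≤ n := (le_max_left _ _).trans ((le_max_left _ _).trans hn)
  have hn3 : 3 ≤ n := (le_max_right _ _).trans hn
  have hn' : (3 : ℝ) ≤ n := by exact_mod_cast hn3
  have hn0 : (0 : ℝ) < n := by linarith
  have hln : 0 < Real.log (n : ℝ) := Real.log_pos (by linarith)
  have hM0 : (0 : ℝ) < M := lt_of_lt_of_le (by positivity) hM
  have hc1 := cc_pos (cl 3 0) 1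
  -- every total length
  have h3 : ∀ N ∈ Ico (2 * n) (2 * n + 2 * M), ∑ t ∈ Ico n (n + M), rho t * rho (N - t) ≤
      cc (Om 3) 1 * ((M : ℝ) / Real.log n ^ c) := by
    intro N hN
    rw [Finset.mem_Ico] at hN
    have hcN := cc_pos (cl 3 0) (N + 1)
    have hN5 : ((N + 1 : ℕ) : ℝ) ≤ 5 * n := by
      have : N + 1 ≤ 5 * n := by omega
      exact_mod_cast this
    have hM2 : ((N + 1 : ℕ) : ℝ) ^ (1 / 3 + ε / 2) ≤ M := by
      calc ((N + 1 : ℕ) : ℝ) ^ (1 / 3 + ε / 2) ≤ (5 * (n : ℝ)) ^ (1 / 3 + ε / 2) := by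
            gcongr
        _ = (5 : ℝ) ^ (1 / 3 + ε / 2) * (n : ℝ) ^ (1 / 3 + ε / 2) :=
            Real.mul_rpow (by norm_num) hn0.le
        _ ≤ (n : ℝ) ^ (ε / 2) * (n : ℝ) ^ (1 / 3 + ε / 2) := by gcongr
        _ = (n : ℝ) ^ (1 / 3 + ε) := by
            rw [← Real.rpow_add hn0]
            congr 1
            ring
        _ ≤ M := hM
    have h4 := h1 (N + 1) (by omega) n M hM2 (by omega)
    have h5 : (M : ℝ) / Real.log ((N + 1 : ℕ) : ℝ) ^ c ≤ (M : ℝ) / Real.log n ^ c := by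
      have h6 : Real.log (n : ℝ) ≤ Real.log ((N + 1 : ℕ) : ℝ) := by
        refine Real.log_le_log hn0 ?_
        exact_mod_cast (show n ≤ N + 1 by omega)
      gcongr
    have h6 : ∀ t ∈ Ico n (n + M), rho t * rho (N - t) * cc (Om 3) (N + 1) ≤
        cc (Om 3) 1 * nc (cl 3 0) (N + 1) t := by
      intro t ht
      rw [Finset.mem_Ico] at ht
      have := rho_mul t (N - t)
      rwa [show t + (N - t) + 1 = N + 1 by omega] at this
    have h7 := Finset.sum_le_sum h6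
    rw [← Finset.sum_mul, ← Finset.mul_sum] at h7
    have h8 : (∑ t ∈ Ico n (n + M), rho t * rho (N - t)) * (cc (Om 3) (N + 1) : ℝ) ≤
        (cc (Om 3) 1 * ((M : ℝ) / Real.log n ^ c)) * cc (Om 3) (N + 1) := by
      refine h7.trans ?_
      rw [mul_assoc]
      refine mul_le_mul_of_nonneg_left (h4.trans ?_) hc1.le
      exact mul_le_mul_of_nonneg_right h5 hcN.le
    exact le_of_mul_le_mul_right h8 hcN
  have h4 := (win_sq rho rho_nonneg n M).trans (Finset.sum_le_sum h3)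
  rw [Finset.sum_const, Nat.card_Ico, nsmul_eq_mul,
    show 2 * n + 2 * M - 2 * n = 2 * M by omega] at h4
  have h5 : (∑ m ∈ Ico n (n + M), rho m) ^ 2 ≤ ((M : ℝ) / Real.log n ^ (c / 4)) ^ 2 := by
    refine h4.trans ?_
    have e1 : Real.log (n : ℝ) ^ c = Real.log (n : ℝ) ^ (c / 2) * Real.log (n : ℝ) ^ (c / 2) := by
      rw [← Real.rpow_add hln]; congr 1; ring
    have e2 : (Real.log (n : ℝ) ^ (c / 4)) ^ 2 = Real.log (n : ℝ) ^ (c / 2) := by
      rw [pow_two, ← Real.rpow_add hln]; congr 1; ring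
    have hl2 : 0 < Real.log (n : ℝ) ^ (c / 2) := by positivity
    rw [div_pow, e2, e1]
    push_cast
    have e3 : 2 * (M : ℝ) * (cc (Om 3) 1 * ((M : ℝ) / (Real.log (n : ℝ) ^ (c / 2) *
        Real.log (n : ℝ) ^ (c / 2)))) = ((2 * cc (Om 3) 1) / Real.log (n : ℝ) ^ (c / 2)) *
        ((M : ℝ) ^ 2 / Real.log (n : ℝ) ^ (c / 2)) := by
      field_simp
    rw [e3]
    have e4 : (2 * (cc (Om 3) 1 : ℝ)) / Real.log (n : ℝ) ^ (c / 2) ≤ 1 := by
      rw [div_le_one hl2]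
      exact g2
    calc ((2 * (cc (Om 3) 1 : ℝ)) / Real.log (n : ℝ) ^ (c / 2)) *
        ((M : ℝ) ^ 2 / Real.log (n : ℝ) ^ (c / 2))
        ≤ 1 * ((M : ℝ) ^ 2 / Real.log (n : ℝ) ^ (c / 2)) :=
          mul_le_mul_of_nonneg_right e4 (by positivity)
      _ = _ := one_mul _
  exact le_of_sq_le_sq h5 (by positivity)

end Pool.Agent.Run7.h967.HB
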