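import Pool.Agent.Run7.h967.HB.Irr

/-! # The decomposition of Hammersley and Welsh for partial sums -/

set_option autoImplicit false

namespace Pool.Agent.Run7.h967.HB

open scoped Classical
open Pool.Agent.H725R2.SB Pool.Agent.TH546.GD Finset

variable {V : Type*} [AddCommGroup V] {Ω : Finset V}

/-- the reflected rest of a walk -/
def rs (L : Lev Ω) (b : ℕ) (ξ : ℕ → V) : ℕ → V := fun i => L.r (ξ (b + i))

theorem rs_saw (L : Lev Ω) {n b : ℕ} {ξ : ℕ → V} (h : IsSaw Ω n ξ) (hb : b ≤ n) :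
    IsSaw Ω (n - b) (rs L b ξ) := (suf_saw h hb).map L.r L.rΩ

theorem lev_rs (L : Lev Ω) (b : ℕ) (ξ : ℕ → V) (i : ℕ) :
    lev L (rs L b ξ) i = lev L ξ b - lev L ξ (b + i) := by
  have h1 : lev L (rs L b ξ) i = - lev L (suf b ξ) i := lev_map_r L (suf b ξ) i
  rw [h1, lev_suf]
  ring

/-- counting by splitting -/
theorem split_card (L : Lev Ω) {n : ℕ} (S : Finset (ℕ → V)) (A B : ℕ → Finset (ℕ → V))
    (h : ∀ ξ ∈ S, ∃ b, b ≤ n ∧ pre b ξ ∈ A b ∧ rs L b ξ ∈ B b) :
    S.card ≤ ∑ b ∈ range (n + 1), (A b).card * (B b).card := by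
  have h1 : ∀ ξ : ℕ → V, ∃ b, ξ ∈ S → b ≤ n ∧ pre b ξ ∈ A b ∧ rs L b ξ ∈ B b := by
    intro ξ
    by_cases hξ : ξ ∈ S
    · obtain ⟨b, hb⟩ := h ξ hξ
      exact ⟨b, fun _ => hb⟩
    · exact ⟨0, fun hh => absurd hh hξ⟩
  choose g hg using h1
  have h2 : ∑ b ∈ range (n + 1), (A b).card * (B b).card =
      ((range (n + 1)).sigma (fun b => A b ×ˢ B b)).card := by
    rw [Finset.card_sigma]
    exact Finset.sum_congr rfl (fun b _ => (Finset.card_product _ _).symm)
  rw [h2]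
  refine Finset.card_le_card_of_injOn (fun ξ => (⟨g ξ, (pre (g ξ) ξ, rs L (g ξ) ξ)⟩ :
    Σ _ : ℕ, (ℕ → V) × (ℕ → V))) ?_ ?_
  · intro ξ hξ
    have h3 := hg ξ hξ
    rw [Finset.mem_coe, Finset.mem_sigma, Finset.mem_range, Finset.mem_product]
    exact ⟨Nat.lt_succ_of_le h3.1, h3.2.1, h3.2.2⟩
  · intro ξ _ ξ' _ heq
    simp only [Sigma.mk.injEq] at heq
    obtain ⟨e1, e2⟩ := heq
    rw [e1] at e2
    have e3 := eq_of_heq e2
    simp only [Prod.mk.injEq] at e3
    obtain ⟨e4, e5⟩ := e3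
    have e6 : suf (g ξ') ξ = suf (g ξ') ξ' := by
      funext i
      have := congrFun e5 i
      unfold rs at this
      exact L.r.injective this
    calc ξ = cat (g ξ') (pre (g ξ') ξ) (suf (g ξ') ξ) := (cat_pre_suf _ _).symm
      _ = cat (g ξ') (pre (g ξ') ξ') (suf (g ξ') ξ') := by rw [e4, e6]
      _ = ξ' := cat_pre_suf _ _

/-- bridges of height `T` -/
noncomputable def BT (L : Lev Ω) (T : ℤ) (n : ℕ) : ℕ :=
  ((BrS L n).filter (fun ξ => lev L ξ n = T)).card

/-- strict half-space walks of height at most `T` -/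
noncomputable def HT (L : Lev Ω) (T : ℤ) (n : ℕ) : ℕ :=
  ((SUpS L n).filter (fun ξ => ∀ i, i ≤ n → lev L ξ i ≤ T)).card

theorem HT_succ (L : Lev Ω) (T : ℕ) (n : ℕ) :
    HT L ((T : ℤ) + 1) n ≤ HT L T n +
      ∑ b ∈ range (n + 1), BT L ((T : ℤ) + 1) b * HT L T (n - b) := by
  unfold HT
  have h1 : ((SUpS L n).filter (fun ξ => ∀ i, i ≤ n → lev L ξ i ≤ (T : ℤ) + 1)).card ≤
      ((SUpS L n).filter (fun ξ => ∀ i, i ≤ n → lev L ξ i ≤ (T : ℤ))).card +
      (((SUpS L n).filter (fun ξ => ∀ i, i ≤ n → lev L ξ i ≤ (T : ℤ) + 1)).filter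
        (fun ξ => ¬ ∀ i, i ≤ n → lev L ξ i ≤ (T : ℤ))).card := by
    rw [← Finset.card_filter_add_card_filter_not (s := (SUpS L n).filter
      (fun ξ => ∀ i, i ≤ n → lev L ξ i ≤ (T : ℤ) + 1)) (fun ξ => ∀ i, i ≤ n → lev L ξ i ≤ (T : ℤ))]
    refine Nat.add_le_add_right (Finset.card_le_card ?_) _
    intro ξ hξ
    rw [Finset.mem_filter, Finset.mem_filter] at hξ
    rw [Finset.mem_filter]
    exact ⟨hξ.1.1, hξ.2⟩
  refine h1.trans (Nat.add_le_add_left ?_ _)
  unfold BT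
  refine split_card L _ (fun b => (BrS L b).filter (fun ξ => lev L ξ b = (T : ℤ) + 1))
    (fun b => (SUpS L (n - b)).filter (fun ξ => ∀ i, i ≤ n - b → lev L ξ i ≤ (T : ℤ))) ?_
  intro ξ hξ
  rw [Finset.mem_filter, Finset.mem_filter, mem_SUpS] at hξ
  obtain ⟨⟨⟨hs, hp⟩, hle⟩, hex⟩ := hξ
  obtain ⟨b, hb, hmax, hlt⟩ := tB_lastmax (lev L ξ) n
  have hT : lev L ξ b = (T : ℤ) + 1 := by
    push Not at hex
    obtain ⟨i, hi1, hi2⟩ := hex
    have h2 := hmax i hi1
    have h3 := hle b hb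
    omega
  refine ⟨b, hb, ?_, ?_⟩
  · rw [Finset.mem_filter, mem_BrS]
    refine ⟨⟨pre_saw hs hb, fun i h2 h3 => ?_, fun i hi => ?_⟩, ?_⟩
    · rw [lev_pre L b ξ h3]
      exact hp i h2 (by omega)
    · rw [lev_pre L b ξ hi, lev_pre L b ξ le_rfl]
      exact hmax i (by omega)
    · rw [lev_pre L b ξ le_rfl]
      exact hT
  · rw [Finset.mem_filter, mem_SUpS]
    refine ⟨⟨rs_saw L hs hb, fun i h2 h3 => ?_⟩, fun i hi => ?_⟩
    · rw [lev_rs]
      have := hlt (b + i) (by omega) (by omega)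
      omega
    · rw [lev_rs, hT]
      rcases Nat.eq_zero_or_pos (b + i) with h4 | h4
      · have hb0 : b = 0 := by omega
        subst hb0
        rw [lev_zero] at hT
        omega
      · have := hp (b + i) h4 (by omega)
        omega

theorem cc_le_split (L : Lev Ω) (n : ℕ) :
    cc Ω n ≤ ∑ b ∈ range (n + 1), hh L b * su L (n - b) := by
  unfold cc
  have h1 : ∑ b ∈ range (n + 1), hh L b * su L (n - b) =
      ∑ b ∈ range (n + 1), (TopS L b).card * (SUpS L (n - b)).card := by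
    refine Finset.sum_congr rfl (fun b _ => ?_)
    rw [card_TopS]
    rfl
  rw [h1]
  refine split_card L _ (fun b => TopS L b) (fun b => SUpS L (n - b)) ?_
  intro ξ hξ
  rw [mem_SawSet] at hξ
  obtain ⟨b, hb, hmax, hlt⟩ := tB_lastmax (lev L ξ) n
  refine ⟨b, hb, ?_, ?_⟩
  · rw [mem_TopS]
    refine ⟨pre_saw hξ hb, fun i hi => ?_⟩
    rw [lev_pre L b ξ hi, lev_pre L b ξ le_rfl]
    exact hmax i (by omega)
  · rw [mem_SUpS]
    refine ⟨rs_saw L hξ hb, fun i h2 h3 => ?_⟩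
    rw [lev_rs]
    have := hlt (b + i) (by omega) (by omega)
    omega

/-- partial sums of a convolution -/
theorem conv_le {N : ℕ} (a b c : ℕ → ℝ) (ha : ∀ n, 0 ≤ a n) (hb : ∀ n, 0 ≤ b n)
    (h : ∀ n, n < N → c n ≤ ∑ k ∈ range (n + 1), a k * b (n - k)) :
    PS c N ≤ PS a N * PS b N := by
  unfold PS
  calc ∑ n ∈ range N, c n ≤ ∑ n ∈ range N, ∑ k ∈ range (n + 1), a k * b (n - k) :=
        Finset.sum_le_sum (fun n hn => h n (Finset.mem_range.1 hn))
    _ = ∑ m ∈ range N, ∑ k ∈ range (N - m), a m * b k :=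
        Finset.sum_range_diag_flip N (fun i j => a i * b j)
    _ ≤ ∑ m ∈ range N, a m * ∑ k ∈ range N, b k := by
        refine Finset.sum_le_sum (fun m _ => ?_)
        rw [← Finset.mul_sum]
        refine mul_le_mul_of_nonneg_left ?_ (ha m)
        exact Finset.sum_le_sum_of_subset_of_nonneg
          (Finset.range_subset_range.2 (Nat.sub_le _ _)) (fun i _ _ => hb i)
    _ = (∑ m ∈ range N, a m) * ∑ k ∈ range N, b k := by rw [Finset.sum_mul]

/-- normalisation -/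
noncomputable def nm (Ω : Finset V) (a : ℕ → ℕ) (n : ℕ) : ℝ := (a n : ℝ) / mu Ω ^ n

theorem nm_nonneg (Ω : Finset V) (a : ℕ → ℕ) (n : ℕ) : 0 ≤ nm Ω a n := by
  unfold nm
  have := mu_pos' Ω
  positivity

theorem nm_conv (Ω : Finset V) (a b : ℕ → ℕ) (n : ℕ) :
    ((∑ k ∈ range (n + 1), a k * b (n - k) : ℕ) : ℝ) / mu Ω ^ n =
      ∑ k ∈ range (n + 1), nm Ω a k * nm Ω b (n - k) := by
  have hmu := mu_pos' Ω
  push_cast
  rw [Finset.sum_div]
  refine Finset.sum_congr rfl (fun k hk => ?_)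
  rw [Finset.mem_range] at hk
  unfold nm
  have e : mu Ω ^ n = mu Ω ^ k * mu Ω ^ (n - k) := by
    rw [← pow_add, show k + (n - k) = n by omega]
  rw [e, div_mul_div_comm]

theorem HT_step (L : Lev Ω) (N T : ℕ) : PS (nm Ω (HT L ((T : ℤ) + 1))) N ≤
    PS (nm Ω (HT L T)) N * (1 + PS (nm Ω (BT L ((T : ℤ) + 1))) N) := by
  have hmu := mu_pos' Ω
  have h1 : PS (fun n => nm Ω (HT L ((T : ℤ) + 1)) n - nm Ω (HT L T) n) N ≤
      PS (nm Ω (BT L ((T : ℤ) + 1))) N * PS (nm Ω (HT L T)) N := by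
    refine conv_le _ _ _ (nm_nonneg Ω _) (nm_nonneg Ω _) (fun n _ => ?_)
    rw [← nm_conv, sub_le_iff_le_add]
    unfold nm
    rw [← add_div]
    refine div_le_div_of_nonneg_right ?_ (by positivity)
    have h3 := HT_succ L T n
    have h4 : HT L ((T : ℤ) + 1) n ≤
        (∑ b ∈ range (n + 1), BT L ((T : ℤ) + 1) b * HT L T (n - b)) + HT L T n := by omega
    exact_mod_cast h4
  have h2 : PS (fun n => nm Ω (HT L ((T : ℤ) + 1)) n - nm Ω (HT L T) n) N =
      PS (nm Ω (HT L ((T : ℤ) + 1))) N - PS (nm Ω (HT L T)) N := by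
    unfold PS
    rw [Finset.sum_sub_distrib]
  rw [h2] at h1
  linarith

theorem HT_zero (L : Lev Ω) (N : ℕ) : PS (nm Ω (HT L 0)) N ≤ 1 := by
  have h1 : ∀ n, 1 ≤ n → HT L 0 n = 0 := by
    intro n hn
    unfold HT
    rw [Finset.card_eq_zero, Finset.filter_eq_empty_iff]
    intro ξ hξ h
    rw [mem_SUpS] at hξ
    have h2 := hξ.2 n hn le_rfl
    have h3 := h n le_rfl
    omega
  have h0 : HT L 0 0 ≤ 1 := by
    unfold HT
    rw [Finset.card_le_one]
    intro ξ hξ η hη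
    rw [Finset.mem_filter, mem_SUpS] at hξ hη
    funext i
    rw [hξ.1.1.zero i (Nat.zero_le _), hη.1.1.zero i (Nat.zero_le _)]
  unfold PS
  rcases Nat.eq_zero_or_pos N with hN | hN
  · subst hN; simp
  · rw [← Finset.sum_subset (Finset.singleton_subset_iff.2 (Finset.mem_range.2 hN))]
    · rw [Finset.sum_singleton]
      unfold nm
      rw [pow_zero, div_one]
      exact_mod_cast h0
    · intro n _ hn
      rw [Finset.mem_singleton] at hn
      unfold nm
      rw [h1 n (by omega)]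
      simp

theorem HT_le_exp (L : Lev Ω) (N T : ℕ) : PS (nm Ω (HT L T)) N ≤
    Real.exp (∑ j ∈ range T, PS (nm Ω (BT L ((j : ℤ) + 1))) N) := by
  induction T with
  | zero =>
    rw [Finset.range_zero, Finset.sum_empty, Real.exp_zero]
    exact_mod_cast HT_zero L N
  | succ T ih =>
    have h1 := HT_step L N T
    have h2 : 0 ≤ PS (nm Ω (BT L ((T : ℤ) + 1))) N :=
      Finset.sum_nonneg (fun n _ => nm_nonneg Ω _ n)
    have h3 : 1 + PS (nm Ω (BT L ((T : ℤ) + 1))) N ≤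
        Real.exp (PS (nm Ω (BT L ((T : ℤ) + 1))) N) := by
      have := Real.add_one_le_exp (PS (nm Ω (BT L ((T : ℤ) + 1))) N)
      linarith
    have h4 : 0 ≤ PS (nm Ω (HT L T)) N := Finset.sum_nonneg (fun n _ => nm_nonneg Ω _ n)
    rw [Finset.sum_range_succ, Real.exp_add]
    push_cast
    refine h1.trans ?_
    exact mul_le_mul ih h3 (by linarith) (Real.exp_pos _).le

theorem sum_BT (L : Lev Ω) (T n : ℕ) : ∑ j ∈ range T, BT L ((j : ℤ) + 1) n ≤ bb L n := by
  unfold BT bb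
  rw [← Finset.card_biUnion]
  · refine Finset.card_le_card ?_
    intro ξ hξ
    rw [Finset.mem_biUnion] at hξ
    obtain ⟨j, _, hj⟩ := hξ
    exact (Finset.mem_filter.1 hj).1
  · intro i _ j _ hij
    rw [Function.onFun, Finset.disjoint_left]
    intro ξ h1 h2
    have e1 := (Finset.mem_filter.1 h1).2
    have e2 := (Finset.mem_filter.1 h2).2
    omega

theorem su_le_exp (L : Lev Ω) (N : ℕ) : PS (nm Ω (su L)) N ≤ Real.exp (PS (uu L) N) := by
  have hmu := mu_pos' Ω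
  have h1 : PS (nm Ω (su L)) N ≤ PS (nm Ω (HT L (N : ℤ))) N := by
    unfold PS
    refine Finset.sum_le_sum (fun n hn => ?_)
    rw [Finset.mem_range] at hn
    unfold nm
    refine div_le_div_of_nonneg_right ?_ (by positivity)
    have : su L n ≤ HT L (N : ℤ) n := by
      unfold su HT
      refine Finset.card_le_card (fun ξ hξ => ?_)
      rw [Finset.mem_filter]
      refine ⟨hξ, fun i hi => ?_⟩
      rw [mem_SUpS] at hξ
      have := lev_abs_le L hξ.1 i
      rw [abs_le] at this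
      omega
    exact_mod_cast this
  refine h1.trans ((HT_le_exp L N N).trans (Real.exp_le_exp.2 ?_))
  unfold PS
  rw [Finset.sum_comm]
  refine Finset.sum_le_sum (fun n _ => ?_)
  unfold nm uu
  rw [← Finset.sum_div]
  refine div_le_div_of_nonneg_right ?_ (by positivity)
  exact_mod_cast sum_BT L N n

/-- **the bridges have logarithmic weight at least** -/
theorem log_le_PS (L : Lev Ω) (N : ℕ) (hN : 1 ≤ N) :
    Real.log N - Real.log (mu Ω) ≤ 2 * PS (uu L) (N + 1) := by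
  have hmu := mu_pos' Ω
  have hmu1 := one_le_mu L
  have hN0 : (0 : ℝ) < N := by exact_mod_cast hN
  have h1 : PS (nm Ω (cc Ω)) N ≤ PS (nm Ω (hh L)) N * PS (nm Ω (su L)) N := by
    refine conv_le _ _ _ (nm_nonneg Ω _) (nm_nonneg Ω _) (fun n _ => ?_)
    rw [← nm_conv]
    unfold nm
    refine div_le_div_of_nonneg_right ?_ (by positivity)
    exact_mod_cast cc_le_split L n
  have h2 : (N : ℝ) ≤ PS (nm Ω (cc Ω)) N := by
    unfold PS
    calc (N : ℝ) = ∑ _n ∈ range N, (1 : ℝ) := by simp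
      _ ≤ _ := by
        refine Finset.sum_le_sum (fun n _ => ?_)
        unfold nm
        rw [le_div_iff₀ (by positivity), one_mul]
        exact mu_pow_le_cc L n
  have h3 : PS (nm Ω (hh L)) N ≤ mu Ω * PS (nm Ω (su L)) (N + 1) := by
    unfold PS
    rw [Finset.sum_range_succ', mul_add, Finset.mul_sum]
    have h4 : ∑ n ∈ range N, nm Ω (hh L) n ≤ ∑ n ∈ range N, mu Ω * nm Ω (su L) (n + 1) := by
      refine Finset.sum_le_sum (fun n _ => ?_)
      unfold nm
      rw [pow_succ, mul_div_assoc', div_le_div_iff₀ (by positivity) (by positivity)]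
      have h5 : (hh L n : ℝ) ≤ su L (n + 1) := by
        have := hh_le_su L n
        rw [add_comm 1 n] at this
        exact_mod_cast this
      calc (hh L n : ℝ) * (mu Ω ^ n * mu Ω) ≤ su L (n + 1) * (mu Ω ^ n * mu Ω) :=
            mul_le_mul_of_nonneg_right h5 (by positivity)
        _ = mu Ω * su L (n + 1) * mu Ω ^ n := by ring
    have h5 : 0 ≤ mu Ω * nm Ω (su L) 0 := mul_nonneg hmu.le (nm_nonneg Ω _ _)
    linarith
  have h4 : PS (nm Ω (su L)) N ≤ PS (nm Ω (su L)) (N + 1) := by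
    rw [PS_succ]
    have := nm_nonneg Ω (su L) N
    linarith
  have h5 := su_le_exp L (N + 1)
  have h6 : 0 ≤ PS (nm Ω (su L)) N := Finset.sum_nonneg (fun n _ => nm_nonneg Ω _ n)
  have h7 : 0 ≤ PS (nm Ω (su L)) (N + 1) := Finset.sum_nonneg (fun n _ => nm_nonneg Ω _ n)
  have h8 : (N : ℝ) ≤ mu Ω * (Real.exp (PS (uu L) (N + 1)) * Real.exp (PS (uu L) (N + 1))) := by
    calc (N : ℝ) ≤ PS (nm Ω (hh L)) N * PS (nm Ω (su L)) N := h2.trans h1
      _ ≤ (mu Ω * PS (nm Ω (su L)) (N + 1)) * PS (nm Ω (su L)) (N + 1) :=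
          mul_le_mul h3 h4 h6 (mul_nonneg hmu.le h7)
      _ = mu Ω * (PS (nm Ω (su L)) (N + 1) * PS (nm Ω (su L)) (N + 1)) := by ring
      _ ≤ _ := mul_le_mul_of_nonneg_left (mul_le_mul h5 h5 h7 (Real.exp_pos _).le) hmu.le
  have h9 := Real.log_le_log hN0 h8
  rw [Real.log_mul hmu.ne' (by positivity), ← Real.exp_add, Real.log_exp] at h9
  linarith

end Pool.Agent.Run7.h967.HB
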