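import Pool.Agent.Run7.h967.HB.Renew

/-! # Renewal sequences: the main bound -/

set_option autoImplicit false

namespace Pool.Agent.Run7.h967.HB

open Finset

/-- a renewal sequence `u` with step weights `f` -/
structure Ren (u f : ℕ → ℝ) : Prop where
  u0 : u 0 = 1
  f0 : f 0 = 0
  un : ∀ n, 0 ≤ u n
  u1 : ∀ n, u n ≤ 1
  fn : ∀ n, 0 ≤ f n
  eq : ∀ n, 1 ≤ n → u n = ∑ k ∈ range (n + 1), f k * u (n - k)

/-- partial sums -/
noncomputable def PS (u : ℕ → ℝ) (n : ℕ) : ℝ := ∑ i ∈ range n, u i

theorem PS_zero (u : ℕ → ℝ) : PS u 0 = 0 := by simp [PS]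

theorem PS_succ (u : ℕ → ℝ) (n : ℕ) : PS u (n + 1) = PS u n + u n := by
  unfold PS
  rw [Finset.sum_range_succ]

namespace Ren

variable {u f : ℕ → ℝ}

theorem PS_mono (h : Ren u f) {m n : ℕ} (hmn : m ≤ n) : PS u m ≤ PS u n := by
  unfold PS
  exact Finset.sum_le_sum_of_subset_of_nonneg (Finset.range_subset_range.2 hmn)
    (fun i _ _ => h.un i)

theorem PS_nonneg (h : Ren u f) (n : ℕ) : 0 ≤ PS u n :=
  Finset.sum_nonneg (fun i _ => h.un i)

theorem one_le_PS (h : Ren u f) {n : ℕ} (hn : 1 ≤ n) : 1 ≤ PS u n := by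
  have h1 := h.PS_mono hn
  have h2 : PS u 1 = 1 := by simp [PS, h.u0]
  linarith

theorem PS_eq (h : Ren u f) (N : ℕ) (hN : 1 ≤ N) :
    PS u N = 1 + ∑ k ∈ range (N + 1), f k * PS u (N - k) := by
  induction N, hN using Nat.le_induction with
  | base =>
    rw [Finset.sum_range_succ, Finset.sum_range_succ]
    simp [PS, h.u0, h.f0]
  | succ N hN ih =>
    rw [PS_succ, ih, h.eq N hN, add_assoc, ← Finset.sum_add_distrib,
      Finset.sum_range_succ _ (N + 1), Nat.sub_self, PS_zero, mul_zero, add_zero]
    congr 1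
    refine Finset.sum_congr rfl (fun k hk => ?_)
    rw [Finset.mem_range] at hk
    rw [show N + 1 - k = (N - k) + 1 by omega, PS_succ]
    ring

theorem sum_f_le (h : Ren u f) (x : ℕ) : ∑ k ∈ range x, f k ≤ 1 := by
  by_contra hcon
  push Not at hcon
  obtain ⟨s, hs⟩ : ∃ s, s = ∑ k ∈ range x, f k := ⟨_, rfl⟩
  rw [← hs] at hcon
  -- growth
  have h1 : ∀ N, 1 + s * PS u N ≤ PS u (N + (x + 1)) := by
    intro N
    rw [h.PS_eq (N + (x + 1)) (by omega), hs, Finset.sum_mul]
    refine add_le_add le_rfl ?_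
    calc ∑ k ∈ range x, f k * PS u N
        ≤ ∑ k ∈ range x, f k * PS u (N + (x + 1) - k) := by
          refine Finset.sum_le_sum (fun k hk => ?_)
          rw [Finset.mem_range] at hk
          exact mul_le_mul_of_nonneg_left (h.PS_mono (by omega)) (h.fn k)
      _ ≤ ∑ k ∈ range (N + (x + 1) + 1), f k * PS u (N + (x + 1) - k) :=
          Finset.sum_le_sum_of_subset_of_nonneg (Finset.range_subset_range.2 (by omega))
            (fun k _ _ => mul_nonneg (h.fn k) (h.PS_nonneg _))
  have h2 : ∀ N, PS u (N + (x + 1)) ≤ PS u N + (x + 1) := by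
    intro N
    have h3 : ∀ j : ℕ, PS u (N + j) ≤ PS u N + j := by
      intro j
      induction j with
      | zero => simp
      | succ j ih =>
        rw [← add_assoc, PS_succ]
        have := h.u1 (N + j)
        push_cast
        linarith
    have := h3 (x + 1)
    push_cast at this
    linarith
  have h3 : ∀ j : ℕ, (j : ℝ) ≤ PS u (j * (x + 1)) := by
    intro j
    induction j with
    | zero => simp [PS]
    | succ j ih =>
      have h4 := h1 (j * (x + 1))
      rw [show j * (x + 1) + (x + 1) = (j + 1) * (x + 1) by ring] at h4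
      have h5 := h.PS_nonneg (j * (x + 1))
      push_cast
      nlinarith
  obtain ⟨j, hj⟩ := exists_nat_gt (((x : ℝ) + 1) / (s - 1))
  have h4 := h1 (j * (x + 1))
  have h5 := h2 (j * (x + 1))
  have h6 := h3 j
  have h7 : (0 : ℝ) < s - 1 := by linarith
  rw [div_lt_iff₀ h7] at hj
  have h8 : (j : ℝ) * (s - 1) ≤ PS u (j * (x + 1)) * (s - 1) :=
    mul_le_mul_of_nonneg_right h6 h7.le
  nlinarith

theorem tail_le (h : Ren u f) {x : ℕ} (hx : 1 ≤ x) : 1 - ∑ k ∈ range x, f k ≤ 1 / PS u x := by
  have h1 := h.one_le_PS hx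
  have h0 : 0 < PS u x := by linarith
  rw [le_div_iff₀ h0]
  have h2 := h.PS_eq x hx
  have h3 : ∑ k ∈ range (x + 1), f k * PS u (x - k) ≤ (∑ k ∈ range x, f k) * PS u x := by
    rw [Finset.sum_range_succ, Nat.sub_self, PS_zero, mul_zero, add_zero, Finset.sum_mul]
    refine Finset.sum_le_sum (fun k _ => ?_)
    exact mul_le_mul_of_nonneg_left (h.PS_mono (Nat.sub_le _ _)) (h.fn k)
  rw [sub_mul, one_mul]
  linarith

/-- the generating functions -/
noncomputable def U (u : ℕ → ℝ) : PowerSeries ℝ := PowerSeries.mk u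

theorem U_eq (h : Ren u f) : U u = 1 + U f * U u := by
  ext n
  rw [map_add, coeff_mul_range]
  unfold U
  simp only [PowerSeries.coeff_mk]
  rcases Nat.eq_zero_or_pos n with h0 | h0
  · subst h0
    simp [h.u0, h.f0]
  · rw [PowerSeries.coeff_one, if_neg (by omega), zero_add]
    exact h.eq n h0

theorem U_iter (h : Ren u f) (K : ℕ) : U u = ∑ k ∈ range K, U f ^ k + U f ^ K * U u := by
  induction K with
  | zero => simp
  | succ K ih =>
    rw [Finset.sum_range_succ, add_assoc, pow_succ, mul_assoc]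
    have h1 : U f ^ K + U f ^ K * (U f * U u) = U f ^ K * U u := by
      conv_rhs => rw [h.U_eq]
      ring
    rw [h1]
    exact ih

theorem massF (h : Ren u f) : Mass (U f) 1 := by
  intro N
  unfold U
  simp only [PowerSeries.coeff_mk]
  have : ∀ n ∈ range N, |f n| = f n := fun n _ => abs_of_nonneg (h.fn n)
  rw [Finset.sum_congr rfl this]
  exact h.sum_f_le N

theorem bdU (h : Ren u f) : Bd (U u) 1 := by
  intro n
  unfold U
  rw [PowerSeries.coeff_mk, abs_of_nonneg (h.un n)]
  exact h.u1 n

/-- window sums -/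
noncomputable def Ew (w : ℕ) : PowerSeries ℝ := ∑ j ∈ range w, PowerSeries.X ^ j

theorem coeff_Ew (u : ℕ → ℝ) (w n : ℕ) :
    PowerSeries.coeff n (Ew w * U u) = ∑ j ∈ range w, if j ≤ n then u (n - j) else 0 := by
  unfold Ew
  rw [Finset.sum_mul, map_sum]
  refine Finset.sum_congr rfl (fun j _ => ?_)
  rw [PowerSeries.coeff_X_pow_mul']
  split_ifs
  · unfold U
    rw [PowerSeries.coeff_mk]
  · rfl

theorem window (h : Ren u f) (w : ℕ) : ∀ n : ℕ,
    0 ≤ PowerSeries.coeff n (Ew w * U u) ∧ PowerSeries.coeff n (Ew w * U u) ≤ PS u w := by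
  intro n
  induction n using Nat.strong_induction_on with
  | _ n ih =>
    refine ⟨?_, ?_⟩
    · rw [coeff_Ew]
      refine Finset.sum_nonneg (fun j _ => ?_)
      split_ifs
      · exact h.un _
      · exact le_rfl
    · rcases Nat.lt_or_ge n w with hn | hn
      · rw [coeff_Ew]
        have e1 : ∑ j ∈ range w, (if j ≤ n then u (n - j) else 0) =
            ∑ j ∈ range (n + 1), u (n - j) := by
          rw [← Finset.sum_filter]
          refine Finset.sum_congr ?_ (fun _ _ => rfl)
          ext j
          rw [Finset.mem_filter, Finset.mem_range, Finset.mem_range]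
          omega
        have e2 := Finset.sum_range_reflect u (n + 1)
        rw [show n + 1 - 1 = n by omega] at e2
        rw [e1, e2]
        exact h.PS_mono hn
      · have e1 : Ew w * U u = Ew w + U f * (Ew w * U u) := by
          conv_lhs => rw [h.U_eq]
          ring
        rw [e1, map_add, coeff_mul_range]
        have e2 : PowerSeries.coeff n (Ew w) = 0 := by
          unfold Ew
          rw [map_sum]
          refine Finset.sum_eq_zero (fun j hj => ?_)
          rw [Finset.mem_range] at hj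
          rw [PowerSeries.coeff_X_pow, if_neg (by omega)]
        rw [e2, zero_add]
        have h3 : ∀ k ∈ range (n + 1), PowerSeries.coeff k (U f) *
            PowerSeries.coeff (n - k) (Ew w * U u) ≤ f k * PS u w := by
          intro k hk
          rw [Finset.mem_range] at hk
          unfold U
          rw [PowerSeries.coeff_mk]
          rcases Nat.eq_zero_or_pos k with h0 | h0
          · subst h0
            rw [h.f0, zero_mul, zero_mul]
          · exact mul_le_mul_of_nonneg_left (ih (n - k) (by omega)).2 (h.fn k)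
        refine (Finset.sum_le_sum h3).trans ?_
        rw [← Finset.sum_mul]
        have h4 := h.sum_f_le (n + 1)
        have h5 := h.PS_nonneg w
        nlinarith

theorem mass_coeff {φ : PowerSeries ℝ} {a : ℝ} (h : Mass φ a) (n : ℕ) :
    |PowerSeries.coeff n φ| ≤ a :=
  (Finset.single_le_sum (f := fun n => |PowerSeries.coeff n φ|) (fun _ _ => abs_nonneg _)
    (Finset.mem_range.2 (Nat.lt_succ_self n))).trans (h (n + 1))

theorem coeff_pow_le (h : Ren u f) {x k n : ℕ} (hx : 1 ≤ x) (hn : k * x + 1 ≤ n) :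
    PowerSeries.coeff n (U f ^ k) ≤ k * (1 / PS u x) := by
  obtain ⟨F1, hF1⟩ : ∃ F1 : PowerSeries ℝ, F1 = PowerSeries.mk (fun i => if i < x then f i else 0) :=
    ⟨_, rfl⟩
  have hc : ∀ i, PowerSeries.coeff i F1 = if i < x then f i else 0 := by
    intro i
    rw [hF1, PowerSeries.coeff_mk]
  have m1 : Mass F1 1 := by
    intro N
    refine le_trans (Finset.sum_le_sum (fun i _ => ?_)) (h.sum_f_le N)
    rw [hc]
    split_ifs
    · rw [abs_of_nonneg (h.fn i)]
    · rw [abs_zero]; exact h.fn i
  have m2 : Mass (U f - F1) (1 / PS u x) := by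
    intro N
    refine le_trans ?_ (h.tail_le hx)
    have e1 : ∑ i ∈ range N, |PowerSeries.coeff i (U f - F1)| ≤
        ∑ i ∈ range (max N x), (f i - if i < x then f i else 0) := by
      calc ∑ i ∈ range N, |PowerSeries.coeff i (U f - F1)|
          = ∑ i ∈ range N, (f i - if i < x then f i else 0) := by
            refine Finset.sum_congr rfl (fun i _ => ?_)
            rw [map_sub, hc]
            unfold U
            rw [PowerSeries.coeff_mk]
            refine abs_of_nonneg ?_
            split_ifs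
            · simp
            · simpa using h.fn i
        _ ≤ _ := by
            refine Finset.sum_le_sum_of_subset_of_nonneg
              (Finset.range_subset_range.2 (le_max_left _ _)) (fun i _ _ => ?_)
            split_ifs
            · simp
            · simpa using h.fn i
    refine e1.trans ?_
    rw [Finset.sum_sub_distrib]
    have e2 : ∑ i ∈ range (max N x), (if i < x then f i else 0) = ∑ i ∈ range x, f i := by
      rw [← Finset.sum_filter]
      refine Finset.sum_congr ?_ (fun _ _ => rfl)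
      ext i
      rw [Finset.mem_filter, Finset.mem_range, Finset.mem_range]
      constructor
      · exact fun hh => hh.2
      · exact fun hh => ⟨lt_of_lt_of_le hh (le_max_right _ _), hh⟩
    rw [e2]
    have := h.sum_f_le (max N x)
    linarith
  have d1 : Deg F1 x := by
    intro i hi
    rw [hc, if_neg (by omega)]
  have h1 := mass_coeff (mass_tel h.massF m1 m2 k) n
  rw [map_sub, d1.pow k n hn, sub_zero] at h1
  exact (le_abs_self _).trans h1

theorem mass_Ew (w : ℕ) : Mass (Ew w) w := by
  have := mass_sum w (fun j => PowerSeries.X ^ j) (fun _ => 1) (fun j _ => mass_X_pow j)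
  unfold Ew
  simpa using this

theorem bd_ker (h : Ren u f) (J w : ℕ) (hw : 1 ≤ w) :
    Bd (ker J * U u) (PS u w / w + 2 * w / Real.sqrt ((J : ℝ) + 1)) := by
  obtain ⟨G, hG⟩ : ∃ G : PowerSeries ℝ, G = ∑ j ∈ range w, Ew j := ⟨_, rfl⟩
  have hw0 : (0 : ℝ) < w := by exact_mod_cast hw
  have mG : Mass G ((w : ℝ) * w) := by
    have h1 := mass_sum w Ew (fun _ => (w : ℝ)) (fun j hj => (mass_Ew j).mono (by
      exact_mod_cast hj.le))
    rw [hG]
    simpa using h1
  have e1 : PowerSeries.C (w : ℝ) = Ew w + (1 - PowerSeries.X) * G := by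
    rw [hG, Finset.mul_sum]
    have : ∀ j ∈ range w, (1 - PowerSeries.X : PowerSeries ℝ) * Ew j = 1 - PowerSeries.X ^ j := by
      intro j _
      unfold Ew
      exact mul_neg_geom_sum _ _
    rw [Finset.sum_congr rfl this, Finset.sum_sub_distrib]
    unfold Ew
    simp
  have e2 : PowerSeries.C (w : ℝ) * (ker J * U u) =
      ker J * (Ew w * U u) + ((1 - PowerSeries.X) * ker J) * (G * U u) := by
    rw [e1]; ring
  have b1 : Bd (Ew w * U u) (PS u w) := by
    intro n
    obtain ⟨h1, h2⟩ := h.window w n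
    rwa [abs_of_nonneg h1]
  have b2 := ((mass_ker J).mulBd b1).add ((mass_diff_ker J).mulBd (mG.mulBd h.bdU))
  rw [← e2] at b2
  intro n
  have h3 := b2 n
  rw [PowerSeries.coeff_C_mul, abs_mul, abs_of_pos hw0] at h3
  have h4 : PS u w / w + 2 * w / Real.sqrt ((J : ℝ) + 1) =
      (1 * PS u w + 2 / Real.sqrt ((J : ℝ) + 1) * ((w : ℝ) * w * 1)) / w := by
    field_simp
  rw [h4, le_div_iff₀ hw0]
  linarith

/-- **bound for all terms** -/
theorem bound (h : Ren u f) {q : ℝ} (hq : 0 < q) (h1 : q ≤ f 1) (h2 : q ≤ f 2)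
    (J L w x n : ℕ) (hw : 1 ≤ w) (hx : 1 ≤ x) (hn : L * J * x + 1 ≤ n) :
    u n ≤ ((L * J : ℕ) : ℝ) ^ 2 / PS u x + J * (1 - 2 * q) ^ L +
      (PS u w / w + 2 * w / Real.sqrt ((J : ℝ) + 1)) := by
  have hq1 : 2 * q ≤ 1 := by
    have := h.sum_f_le 3
    rw [Finset.sum_range_succ, Finset.sum_range_succ, Finset.sum_range_succ, Finset.sum_range_zero,
      h.f0] at this
    linarith
  have hPS := h.one_le_PS hx
  have hPS0 : 0 < PS u x := by linarith
  -- part 1
  have p1 : ∑ k ∈ range (L * J), PowerSeries.coeff n (U f ^ k) ≤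
      ((L * J : ℕ) : ℝ) ^ 2 / PS u x := by
    calc ∑ k ∈ range (L * J), PowerSeries.coeff n (U f ^ k)
        ≤ ∑ k ∈ range (L * J), ((L * J : ℕ) : ℝ) * (1 / PS u x) := by
          refine Finset.sum_le_sum (fun k hk => ?_)
          rw [Finset.mem_range] at hk
          have h3 : k * x ≤ L * J * x := Nat.mul_le_mul_right _ hk.le
          refine (h.coeff_pow_le hx (by omega)).trans ?_
          have : (k : ℝ) ≤ ((L * J : ℕ) : ℝ) := by exact_mod_cast hk.le
          exact mul_le_mul_of_nonneg_right this (by positivity)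
      _ = _ := by
          rw [Finset.sum_const, Finset.card_range, nsmul_eq_mul]
          ring
  -- part 2
  obtain ⟨κ, hκ⟩ : ∃ κ : PowerSeries ℝ, κ = PowerSeries.C (1 / 2 : ℝ) * (1 + PowerSeries.X) :=
    ⟨_, rfl⟩
  obtain ⟨g, hg⟩ : ∃ g : PowerSeries ℝ, g = U f - PowerSeries.C (2 * q) * PowerSeries.X * κ :=
    ⟨_, rfl⟩
  obtain ⟨Q, hQ⟩ : ∃ Q : PowerSeries ℝ, Q = PowerSeries.C (2 * q) * PowerSeries.X *
    ∑ i ∈ range L, U f ^ i * g ^ (L - 1 - i) := ⟨_, rfl⟩
  have mκ : Mass κ 1 := by
    have h := (mass_C (1 / 2 : ℝ)).mul (mass_one.add (by simpa using mass_X_pow 1))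
    rw [hκ]
    refine h.mono ?_
    rw [abs_of_pos (by norm_num)]
    norm_num
  have cg : ∀ i, PowerSeries.coeff i g = f i - (if i = 1 then q else 0) - (if i = 2 then q else 0) := by
    intro i
    have e1 : PowerSeries.C (2 * q) * PowerSeries.X * κ =
        PowerSeries.C q * (PowerSeries.X ^ 1 + PowerSeries.X ^ 2) := by
      rw [hκ]
      have e2 : PowerSeries.C (2 * q) * PowerSeries.X * (PowerSeries.C (1 / 2 : ℝ) *
          (1 + PowerSeries.X)) = (PowerSeries.C (2 * q) * PowerSeries.C (1 / 2 : ℝ)) *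
            (PowerSeries.X ^ 1 + PowerSeries.X ^ 2) := by ring
      rw [e2, ← map_mul]
      congr 2
      ring
    rw [hg, e1, map_sub, PowerSeries.coeff_C_mul, map_add, PowerSeries.coeff_X_pow,
      PowerSeries.coeff_X_pow]
    unfold U
    rw [PowerSeries.coeff_mk]
    split_ifs <;> simp_all
  have cg0 : ∀ i, 0 ≤ PowerSeries.coeff i g := by
    intro i
    rw [cg]
    have := h.fn i
    by_cases i1 : i = 1
    · subst i1
      simpa using h1
    · by_cases i2 : i = 2
      · subst i2
        simpa using h2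
      · rw [if_neg i1, if_neg i2]
        linarith
  have mg : Mass g (1 - 2 * q) := by
    intro N
    calc ∑ i ∈ range N, |PowerSeries.coeff i g|
        = ∑ i ∈ range N, PowerSeries.coeff i g :=
          Finset.sum_congr rfl (fun i _ => abs_of_nonneg (cg0 i))
      _ ≤ ∑ i ∈ range (max N 3), PowerSeries.coeff i g :=
          Finset.sum_le_sum_of_subset_of_nonneg (Finset.range_subset_range.2 (le_max_left _ _))
            (fun i _ _ => cg0 i)
      _ = ∑ i ∈ range (max N 3), f i - q - q := by
          have : ∀ i ∈ range (max N 3), PowerSeries.coeff i g =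
              f i - (if i = 1 then q else 0) - (if i = 2 then q else 0) := fun i _ => cg i
          rw [Finset.sum_congr rfl this, Finset.sum_sub_distrib, Finset.sum_sub_distrib,
            Finset.sum_ite_eq', Finset.sum_ite_eq', if_pos, if_pos]
          · rw [Finset.mem_range]
            exact lt_of_lt_of_le (by norm_num) (le_max_right _ _)
          · rw [Finset.mem_range]
            exact lt_of_lt_of_le (by norm_num) (le_max_right _ _)
      _ ≤ _ := by
          have := h.sum_f_le (max N 3)
          linarith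
  have hq2 : 0 ≤ 1 - 2 * q := by linarith
  have mQ : Mass Q 1 := by
    have s1 := mass_sum L (fun i => U f ^ i * g ^ (L - 1 - i)) (fun i => (1 - 2 * q) ^ (L - 1 - i))
      (fun i _ => by
        have := (h.massF.pow_one i).mul (mg.pow (L - 1 - i))
        simpa using this)
    rw [Finset.sum_range_reflect (fun i => (1 - 2 * q) ^ i) L] at s1
    have s2 := ((mass_C (2 * q)).mul (by simpa using mass_X_pow 1 : Mass PowerSeries.X 1)).mul s1
    rw [hQ]
    refine s2.mono ?_
    rw [abs_of_pos (by linarith), mul_one]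
    have s3 := mul_neg_geom_sum (1 - 2 * q) L
    have s4 : 0 ≤ (1 - 2 * q) ^ L := pow_nonneg hq2 L
    linarith
  have my : Mass (Q * κ) 1 := by simpa using mQ.mul mκ
  have hxy : U f ^ L - Q * κ = g ^ L := by
    have e1 := geom_sum₂_mul (U f) g L
    have e2 : U f - g = PowerSeries.C (2 * q) * PowerSeries.X * κ := by rw [hg]; ring
    rw [e2] at e1
    have e3 : Q * κ = U f ^ L - g ^ L := by
      rw [← e1, hQ]; ring
    rw [e3]; ring
  have mt := mass_tel (h.massF.pow_one L) my (by rw [hxy]; exact mg.pow L) J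
  have hfin : U f ^ (L * J) * U u = ((U f ^ L) ^ J - (Q * κ) ^ J) * U u +
      Q ^ J * (ker J * U u) := by
    have e1 : ker J = κ ^ J := by unfold ker; rw [hκ]
    rw [e1, pow_mul, mul_pow]; ring
  have p2 := (mt.mulBd h.bdU).add ((mQ.pow_one J).mulBd (h.bd_ker J w hw))
  rw [← hfin] at p2
  have p3 : u n = ∑ k ∈ range (L * J), PowerSeries.coeff n (U f ^ k) +
      PowerSeries.coeff n (U f ^ (L * J) * U u) := by
    have e1 := congrArg (PowerSeries.coeff n) (h.U_iter (L * J))
    rw [map_add, map_sum] at e1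
    rw [← e1]
    unfold U
    rw [PowerSeries.coeff_mk]
  have p4 := (le_abs_self _).trans (p2 n)
  rw [p3]
  linarith

end Ren

end Pool.Agent.Run7.h967.HB
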