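import Pool.Agent.Run7.h967.HB.Cut
import Pool.Agent.Run7.h967.HB.Renew2

/-! # The renewal structure of bridges -/

set_option autoImplicit false

namespace Pool.Agent.Run7.h967.HB

open scoped Classical
open Pool.Agent.H725R2.SB Pool.Agent.TH546.GD Finset

variable {V : Type*} [AddCommGroup V] {Ω : Finset V}

/-- the first part of a walk -/
def pre (b : ℕ) (ξ : ℕ → V) : ℕ → V := fun i => if i < b then ξ i else 0

/-- the rest of a walk -/
def suf (b : ℕ) (ξ : ℕ → V) : ℕ → V := fun i => ξ (b + i)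

theorem cat_pre_suf (b : ℕ) (ξ : ℕ → V) : cat b (pre b ξ) (suf b ξ) = ξ := by
  funext i
  unfold cat pre suf
  rcases lt_or_ge i b with h | h
  · rw [if_pos h, if_pos h]
  · rw [if_neg (by omega), show b + (i - b) = i by omega]

theorem pre_cat {b : ℕ} {ξ : ℕ → V} (hξ : IsSaw Ω b ξ) (η : ℕ → V) : pre b (cat b ξ η) = ξ := by
  funext i
  show (if i < b then (if i < b then ξ i else η (i - b)) else 0) = ξ i
  rcases lt_or_ge i b with h | h
  · rw [if_pos h, if_pos h]
  · rw [if_neg (by omega), hξ.zero i h]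

omit [AddCommGroup V] in
theorem suf_cat (b : ℕ) (ξ η : ℕ → V) : suf b (cat b ξ η) = η := by
  funext i
  show (if b + i < b then ξ (b + i) else η (b + i - b)) = η i
  rw [if_neg (by omega), Nat.add_sub_cancel_left]

theorem pre_saw {n b : ℕ} {ξ : ℕ → V} (h : IsSaw Ω n ξ) (hb : b ≤ n) : IsSaw Ω b (pre b ξ) :=
  h.pre hb

theorem suf_saw {n b : ℕ} {ξ : ℕ → V} (h : IsSaw Ω n ξ) (hb : b ≤ n) :
    IsSaw Ω (n - b) (suf b ξ) := h.suf hb

theorem lev_pre (L : Lev Ω) (b : ℕ) (ξ : ℕ → V) {i : ℕ} (hi : i ≤ b) :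
    lev L (pre b ξ) i = lev L ξ i := by
  have h := lev_cat_le L b (pre b ξ) (suf b ξ) hi
  rw [cat_pre_suf] at h
  exact h.symm

theorem lev_suf (L : Lev Ω) (b : ℕ) (ξ : ℕ → V) (i : ℕ) :
    lev L (suf b ξ) i = lev L ξ (b + i) - lev L ξ b := by
  have h := lev_cat_add L b (pre b ξ) (suf b ξ) i
  rw [cat_pre_suf, lev_pre L b ξ le_rfl] at h
  omega

/-- no cut times between `1` and `k - 1` -/
def NC (L : Lev Ω) (n k : ℕ) (ξ : ℕ → V) : Prop := ∀ t, 1 ≤ t → t < k → ¬ CutT L n ξ t

/-- irreducible bridges -/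
noncomputable def IrS (L : Lev Ω) (k : ℕ) : Finset (ℕ → V) :=
  (BrS L k).filter (fun ξ => NC L k k ξ)

/-- number of irreducible bridges -/
noncomputable def ir (L : Lev Ω) (k : ℕ) : ℕ := (IrS L k).card

theorem mem_IrS {L : Lev Ω} {k : ℕ} {ξ : ℕ → V} : ξ ∈ IrS L k ↔
    IsBr L k ξ ∧ NC L k k ξ := by
  unfold IrS
  rw [Finset.mem_filter, mem_BrS]

theorem cutT_top {L : Lev Ω} {n : ℕ} {ξ : ℕ → V} (h : IsBr L n ξ) : CutT L n ξ n :=
  ⟨h.top, fun i h1 h2 => by omega⟩

/-- the bridges whose first cut time is `k` -/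
theorem card_first (L : Lev Ω) {n k : ℕ} (hk : k ≤ n) :
    ((BrS L n).filter (fun ζ => CutT L n ζ k ∧ NC L n k ζ)).card =
      ir L k * bb L (n - k) := by
  unfold ir bb
  rw [← Finset.card_product]
  symm
  refine Finset.card_nbij' (fun p => cat k p.1 p.2) (fun ζ => (pre k ζ, suf k ζ)) ?_ ?_ ?_ ?_
  · rintro ⟨ξ, η⟩ hp
    rw [Finset.mem_coe, Finset.mem_product, mem_IrS, mem_BrS] at hp
    obtain ⟨⟨hx, hirr⟩, hy⟩ := hp
    have hg := isBr_cat L hx hy
    rw [show k + (n - k) = n by omega] at hg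
    rw [Finset.mem_coe, Finset.mem_filter, mem_BrS]
    refine ⟨hg.1, hg.2, fun t ht1 ht2 hcut => hirr t ht1 ht2 ⟨fun i hi => ?_, fun i hi1 hi2 => ?_⟩⟩
    · have := hcut.1 i hi
      simp only at this
      rwa [lev_cat_le L k ξ η (by omega), lev_cat_le L k ξ η (by omega)] at this
    · have := hcut.2 i hi1 (by omega)
      simp only at this
      rwa [lev_cat_le L k ξ η (by omega), lev_cat_le L k ξ η (by omega)] at this
  · intro ζ hζ
    rw [Finset.mem_coe, Finset.mem_filter, mem_BrS] at hζ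
    obtain ⟨hb, hc, hf⟩ := hζ
    rw [Finset.mem_coe, Finset.mem_product, mem_IrS, mem_BrS]
    refine ⟨⟨⟨pre_saw hb.saw hk, fun i h1 h2 => ?_, fun i hi => ?_⟩, fun t ht1 ht2 hcut => ?_⟩,
      ⟨suf_saw hb.saw hk, fun i h1 h2 => ?_, fun i hi => ?_⟩⟩
    · rw [lev_pre L k ζ h2]
      exact hb.pos i h1 (by omega)
    · rw [lev_pre L k ζ hi, lev_pre L k ζ le_rfl]
      exact hc.1 i hi
    · refine hf t ht1 ht2 ⟨fun i hi => ?_, fun i hi1 hi2 => ?_⟩
      · have := hcut.1 i hi
        rwa [lev_pre L k ζ (by omega), lev_pre L k ζ (by omega)] at this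
      · rcases le_or_gt i k with h | h
        · have := hcut.2 i hi1 h
          rwa [lev_pre L k ζ (by omega), lev_pre L k ζ (by omega)] at this
        · have h3 := hc.2 i h hi2
          have h4 := hc.1 t ht2.le
          omega
    · rw [lev_suf]
      have := hc.2 (k + i) (by omega) (by omega)
      omega
    · rw [lev_suf, lev_suf, show k + (n - k) = n by omega]
      have := hb.top (k + i) (by omega)
      omega
  · rintro ⟨ξ, η⟩ hp
    rw [Finset.mem_coe, Finset.mem_product, mem_IrS, mem_BrS] at hp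
    simp only [Prod.mk.injEq]
    exact ⟨pre_cat hp.1.1.saw η, suf_cat k ξ η⟩
  · intro ζ _
    exact cat_pre_suf k ζ

theorem bb_eq (L : Lev Ω) {n : ℕ} (hn : 1 ≤ n) :
    bb L n = ∑ k ∈ range (n + 1), (if k = 0 then 0 else ir L k) * bb L (n - k) := by
  have hex : ∀ ζ : ℕ → V, ∃ k, k ≤ n ∧ (IsBr L n ζ → 1 ≤ k ∧ CutT L n ζ k ∧ NC L n k ζ) := by
    intro ζ
    by_cases hb : IsBr L n ζ
    · have he : ∃ k, 1 ≤ k ∧ CutT L n ζ k := ⟨n, hn, cutT_top hb⟩
      refine ⟨Nat.find he, Nat.find_min' he ⟨hn, cutT_top hb⟩, fun _ => ⟨(Nat.find_spec he).1,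
        (Nat.find_spec he).2, fun t ht1 ht2 hcut => Nat.find_min he ht2 ⟨ht1, hcut⟩⟩⟩
    · exact ⟨0, Nat.zero_le _, fun h => absurd h hb⟩
  choose g hg1 hg2 using hex
  have h1 : bb L n = ∑ k ∈ range (n + 1), ((BrS L n).filter (fun ζ => g ζ = k)).card := by
    unfold bb
    exact Finset.card_eq_sum_card_fiberwise (fun ζ _ => by
      rw [Finset.mem_coe, Finset.mem_range]
      have := hg1 ζ
      omega)
  rw [h1]
  refine Finset.sum_congr rfl (fun k hk => ?_)
  rw [Finset.mem_range] at hk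
  rcases Nat.eq_zero_or_pos k with h0 | h0
  · subst h0
    rw [if_pos rfl, zero_mul, Finset.card_eq_zero, Finset.filter_eq_empty_iff]
    intro ζ hζ h
    rw [mem_BrS] at hζ
    have := (hg2 ζ hζ).1
    omega
  · rw [if_neg (by omega), ← card_first L (show k ≤ n by omega)]
    congr 1
    refine Finset.filter_congr (fun ζ hζ => ?_)
    rw [mem_BrS] at hζ
    obtain ⟨h2, h3, h4⟩ := hg2 ζ hζ
    constructor
    · intro h
      rw [← h]
      exact ⟨h3, h4⟩
    · rintro ⟨h5, h6⟩
      rcases lt_trichotomy (g ζ) k with hl | hl | hl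
      · exact absurd h3 (h6 _ h2 hl)
      · exact hl
      · exact absurd h5 (h4 k h0 hl)

theorem bb_zero (L : Lev Ω) : bb L 0 = 1 := by
  unfold bb
  rw [Finset.card_eq_one]
  refine ⟨fun _ => 0, ?_⟩
  ext ξ
  rw [mem_BrS, Finset.mem_singleton]
  constructor
  · intro h
    funext i
    exact h.saw.zero i (Nat.zero_le _)
  · rintro rfl
    refine ⟨⟨fun i hi => by omega, fun i _ => rfl, fun i j hij hj => by omega⟩,
      fun i h1 h2 => by omega, fun i hi => ?_⟩
    have : i = 0 := by omega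
    subst this
    exact le_rfl

/-- the weights -/
noncomputable def uu (L : Lev Ω) (n : ℕ) : ℝ := (bb L n : ℝ) / mu Ω ^ n

/-- the weights of irreducible bridges -/
noncomputable def ff (L : Lev Ω) (n : ℕ) : ℝ := if n = 0 then 0 else (ir L n : ℝ) / mu Ω ^ n

theorem ren (L : Lev Ω) : Ren (uu L) (ff L) where
  u0 := by
    unfold uu
    rw [bb_zero]
    simp
  f0 := by
    unfold ff
    rw [if_pos rfl]
  un := fun n => by
    unfold uu
    have := mu_pos' Ω
    positivity
  u1 := fun n => by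
    unfold uu
    have hmu := mu_pos' Ω
    rw [div_le_one (by positivity)]
    exact bb_le L n
  fn := fun n => by
    unfold ff
    have := mu_pos' Ω
    split_ifs
    · exact le_rfl
    · positivity
  eq := fun n hn => by
    have hmu := mu_pos' Ω
    unfold uu
    rw [bb_eq L hn]
    push_cast
    rw [Finset.sum_div]
    refine Finset.sum_congr rfl (fun k hk => ?_)
    rw [Finset.mem_range] at hk
    unfold ff
    split_ifs with h0
    · simp
    · have e : mu Ω ^ n = mu Ω ^ k * mu Ω ^ (n - k) := by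
        rw [← pow_add, show k + (n - k) = n by omega]
      rw [e, div_mul_div_comm]

theorem one_le_ir_one (L : Lev Ω) : 1 ≤ ir L 1 := by
  unfold ir
  rw [Nat.one_le_iff_ne_zero, ← Nat.pos_iff_ne_zero, Finset.card_pos]
  refine ⟨fun i => if i = 0 then L.e else 0, ?_⟩
  rw [mem_IrS]
  refine ⟨⟨single_saw L, fun i h1 h2 => ?_, fun i hi => ?_⟩, fun t h1 h2 => by omega⟩
  · have : i = 1 := by omega
    subst this
    rw [lev_single]
    norm_num
  · rw [lev_single]
    interval_cases i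
    · rw [lev_zero]; norm_num
    · rw [lev_single]

theorem one_le_ir_two (L : Lev Ω) {s : V} (hs : s ∈ Ω) (hs0 : s ≠ 0) (hF : L.F s = 0) :
    1 ≤ ir L 2 := by
  unfold ir
  rw [Nat.one_le_iff_ne_zero, ← Nat.pos_iff_ne_zero, Finset.card_pos]
  obtain ⟨ξ, hξ⟩ : ∃ ξ : ℕ → V, ξ = fun i => if i = 0 then L.e else if i = 1 then s else 0 :=
    ⟨_, rfl⟩
  have e0 : ξ 0 = L.e := by rw [hξ]; rfl
  have e1 : ξ 1 = s := by rw [hξ]; rfl
  have p1 : P ξ 1 = L.e := by simp [P, e0]
  have p2 : P ξ 2 = L.e + s := by simp [P, Finset.sum_range_succ, e0, e1]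
  have l1 : lev L ξ 1 = 1 := by unfold lev; rw [p1, L.Fe]
  have l2 : lev L ξ 2 = 1 := by unfold lev; rw [p2, map_add, L.Fe, hF]; norm_num
  have hsaw : IsSaw Ω 2 ξ := by
    refine ⟨fun i hi => ?_, fun i hi => ?_, fun i j hij hj heq => ?_⟩
    · interval_cases i
      · rw [e0]; exact L.eΩ
      · rw [e1]; exact hs
    · rw [hξ]
      show (if i = 0 then L.e else if i = 1 then s else 0) = 0
      rw [if_neg (by omega), if_neg (by omega)]
    · have hl : lev L ξ i = lev L ξ j := by unfold lev; rw [heq]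
      have hj12 : j = 1 ∨ j = 2 := by omega
      rcases hj12 with hj1 | hj2
      · have hi : i = 0 := by omega
        subst hi
        subst hj1
        rw [lev_zero, l1] at hl
        omega
      · subst hj2
        have hi : i = 0 ∨ i = 1 := by omega
        rcases hi with hi | hi
        · subst hi
          rw [lev_zero, l2] at hl
          omega
        · subst hi
          rw [p1, p2] at heq
          exact hs0 (by simpa using heq)
  refine ⟨ξ, ?_⟩
  rw [mem_IrS]
  refine ⟨⟨hsaw, fun i h1 h2 => ?_, fun i hi => ?_⟩, fun t h1 h2 hcut => ?_⟩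
  · interval_cases i
    · rw [l1]; norm_num
    · rw [l2]; norm_num
  · rw [l2]
    interval_cases i
    · rw [lev_zero]; norm_num
    · rw [l1]
    · rw [l2]
  · have ht : t = 1 := by omega
    subst ht
    have := hcut.2 2 (by omega) le_rfl
    rw [l1, l2] at this
    omega

end Pool.Agent.Run7.h967.HB
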