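import Pool.Agent.Run7.h967.HB.H3

/-! # Half-space walks and bridges on `ℤ³` -/

set_option autoImplicit false

namespace Pool.Agent.Run7.h967.HB

open scoped Classical
open Pool.Agent.H725R2.SB Pool.Agent.TH546.GD Finset Filter

theorem div_rpow_le {x c c' A : ℝ} (hA : 0 ≤ A) (hx : 1 ≤ x) (h : c ≤ c') :
    A / x ^ c' ≤ A / x ^ c := by
  have h1 : 0 < x ^ c := Real.rpow_pos_of_pos (by linarith) _
  exact div_le_div_of_nonneg_left hA h1 (Real.rpow_le_rpow_of_exponent_le hx h)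

theorem one_le_log {n : ℕ} (hn : 3 ≤ n) : 1 ≤ Real.log (n : ℝ) := by
  have hn' : (3 : ℝ) ≤ n := by exact_mod_cast hn
  rw [Real.le_log_iff_exp_le (by linarith)]
  have := Real.exp_one_lt_d9
  linarith

theorem window_sum (i : Fin 3) (n M : ℕ) (hM : 1 ≤ M) :
    ∑ m ∈ Ico n (n + M), uu (cl 3 i) m ≤ PS (uu (cl 3 i)) M := by
  have h1 := ((ren (cl 3 i)).window M (n + M - 1)).2
  rw [Ren.coeff_Ew] at h1
  refine le_trans (le_of_eq ?_) h1
  have h2 : ∀ j ∈ range M, (if j ≤ n + M - 1 then uu (cl 3 i) (n + M - 1 - j) else 0) =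
      uu (cl 3 i) (n + (M - 1 - j)) := by
    intro j hj
    rw [Finset.mem_range] at hj
    rw [if_pos (by omega)]
    congr 1
    omega
  rw [Finset.sum_congr rfl h2, Finset.sum_range_reflect (fun k => uu (cl 3 i) (n + k)) M,
    Finset.range_eq_Ico]
  have h3 := Finset.sum_Ico_add (uu (cl 3 i)) 0 M n
  rw [h3]
  congr 1
  rw [zero_add, add_comm]

theorem main3 : ∃ c : ℝ, 0 < c ∧
    (∀ ε : ℝ, 0 < ε → ∃ n0 : ℕ, ∀ n : ℕ, n0 ≤ n → ∀ M : ℕ,
      (n : ℝ) ^ (1 / 3 + ε) ≤ M → M ≤ n →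
      ∑ m ∈ Finset.Ico n (n + M), (hh (cl 3 0) m : ℝ) / cc (Om 3) m ≤
        (M : ℝ) / Real.log n ^ c) ∧
    (∀ ε : ℝ, 0 < ε → ∃ n0 : ℕ, ∀ n : ℕ, n0 ≤ n → ∀ a M : ℕ,
      (n : ℝ) ^ (1 / 3 + ε) ≤ M → a + M ≤ n →
      ∑ t ∈ Finset.Ico a (a + M), (hh (cl 3 0) t : ℝ) * hh (cl 3 0) (n - 1 - t) ≤
        (M : ℝ) / Real.log n ^ c * cc (Om 3) n) ∧
    (∃ n0 : ℕ, ∀ n : ℕ, n0 ≤ n →
      (bb (cl 3 0) n : ℝ) ≤ mu (Om 3) ^ n / Real.log (Real.log n) ^ c) ∧
    ∃ M0 : ℕ, ∀ M : ℕ, M0 ≤ M → ∀ n : ℕ,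
      ∑ m ∈ Finset.Ico n (n + M), (bb (cl 3 0) m : ℝ) / mu (Om 3) ^ m ≤
        (M : ℝ) / Real.log M ^ c := by
  obtain ⟨c1, hc1, h1⟩ := windowH
  obtain ⟨c2, hc2, h2⟩ := blockH
  obtain ⟨c3, hc3, n3, h3⟩ := decay 3 (by norm_num)
  obtain ⟨c4, hc4, n4, h4⟩ := PS_le 3 (by norm_num)
  have hmu := mu_pos' (Om 3)
  refine ⟨min (min c1 c2) (min c3 c4), by positivity, ?_, ?_, ?_, ?_⟩
  · intro ε hε
    obtain ⟨n0, h⟩ := h1 ε hε
    refine ⟨max n0 3, fun n hn M hM hMn => ?_⟩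
    refine (h n ((le_max_left _ _).trans hn) M hM hMn).trans ?_
    exact div_rpow_le (Nat.cast_nonneg _) (one_le_log ((le_max_right _ _).trans hn))
      ((min_le_left _ _).trans (min_le_left _ _))
  · intro ε hε
    obtain ⟨n0, h⟩ := h2 ε hε
    refine ⟨max n0 3, fun n hn a M hM haM => ?_⟩
    have hn3 : 3 ≤ n := (le_max_right _ _).trans hn
    have hcn := cc_pos (cl 3 0) n
    have h5 : ∀ t ∈ Ico a (a + M), (hh (cl 3 0) t : ℝ) * hh (cl 3 0) (n - 1 - t) ≤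
        (nc (cl 3 0) n t : ℝ) := by
      intro t ht
      rw [Finset.mem_Ico] at ht
      have := hh_mul_hh (cl 3 0) t (n - 1 - t)
      rw [show t + (n - 1 - t) + 1 = n by omega] at this
      exact_mod_cast this
    refine (Finset.sum_le_sum h5).trans ((h n ((le_max_left _ _).trans hn) a M hM haM).trans ?_)
    refine mul_le_mul_of_nonneg_right ?_ hcn.le
    exact div_rpow_le (Nat.cast_nonneg _) (one_le_log hn3)
      ((min_le_left _ _).trans (min_le_right _ _))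
  · have E1 : ∀ᶠ n : ℕ in atTop, (1 : ℝ) ≤ Real.log (Real.log (n : ℝ)) :=
      (Real.tendsto_log_atTop.comp tlog).eventually_ge_atTop _
    obtain ⟨n5, h5⟩ := eventually_atTop.1 E1
    refine ⟨max n3 n5, fun n hn => ?_⟩
    have h6 := h3 0 n ((le_max_left _ _).trans hn)
    have h7 := h5 n ((le_max_right _ _).trans hn)
    unfold uu at h6
    rw [div_le_iff₀ (by positivity)] at h6
    refine h6.trans ?_
    rw [one_div_mul_eq_div]
    exact div_rpow_le (by positivity) h7 ((min_le_right _ _).trans (min_le_left _ _))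
  · refine ⟨max n4 3, fun M hM n => ?_⟩
    have hM3 : 3 ≤ M := (le_max_right _ _).trans hM
    have h6 := window_sum 0 n M (by omega)
    have h7 := h4 0 M ((le_max_left _ _).trans hM)
    refine (h6.trans h7).trans ?_
    exact div_rpow_le (Nat.cast_nonneg _) (one_le_log hM3)
      ((min_le_right _ _).trans (min_le_right _ _))

end Pool.Agent.Run7.h967.HB
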