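import Pool.Agent.Run7.h967.HB.BrAs
import Pool.Agent.H726.GB.Ratio

/-! # Bridges: ratios of consecutive numbers, and the decay for all lengths -/

set_option autoImplicit false

namespace Pool.Agent.Run7.h967.HB

open scoped Classical
open Pool.Agent.H725R2.SB Pool.Agent.TH546.GD Finset Filter

/-- a regular sequence is large on a whole window -/
theorem regular (u : ℕ → ℝ) (hu : ∀ n, 0 ≤ u n) (R : ℝ) (hR : 0 ≤ R) (n1 : ℕ)
    (h : ∀ n, n1 ≤ n → (1 - R * (n : ℝ) ^ (-(1 / 8) : ℝ)) * u n ≤ u (n + 2)) :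
    ∃ n2 : ℕ, ∀ n, n2 ≤ n → ∀ J : ℕ, (J : ℝ) ≤ (n : ℝ) ^ (1 / 9 : ℝ) →
      (J : ℝ) / 2 * u n ≤ ∑ m ∈ Ico n (n + 2 * J), u m := by
  have E1 : ∀ᶠ n : ℕ in atTop, 2 * (R + 1) ≤ (n : ℝ) ^ (1 / 72 : ℝ) :=
    ((tendsto_rpow_atTop (by norm_num)).comp tnat).eventually_ge_atTop _
  obtain ⟨n3, h3⟩ := eventually_atTop.1 E1
  refine ⟨max (max n1 n3) 1, fun n hn J hJ => ?_⟩
  have hn1 : n1 ≤ n := (le_max_left _ _).trans ((le_max_left _ _).trans hn)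
  have g1 := h3 n ((le_max_right _ _).trans ((le_max_left _ _).trans hn))
  have hn0 : 1 ≤ n := (le_max_right _ _).trans hn
  have hn' : (1 : ℝ) ≤ n := by exact_mod_cast hn0
  have hnp : (0 : ℝ) < n := by linarith
  obtain ⟨δ, hδ⟩ : ∃ δ : ℝ, δ = R * (n : ℝ) ^ (-(1 / 8) : ℝ) := ⟨_, rfl⟩
  have hδ0 : 0 ≤ δ := by rw [hδ]; positivity
  have hJδ : (J : ℝ) * δ ≤ 1 / 2 := by
    have h1 : (J : ℝ) * δ ≤ (n : ℝ) ^ (1 / 9 : ℝ) * (R * (n : ℝ) ^ (-(1 / 8) : ℝ)) := by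
      rw [hδ]
      exact mul_le_mul_of_nonneg_right hJ (by positivity)
    have h2 : (n : ℝ) ^ (1 / 9 : ℝ) * (n : ℝ) ^ (-(1 / 8) : ℝ) * (n : ℝ) ^ (1 / 72 : ℝ) = 1 := by
      rw [← Real.rpow_add hnp, ← Real.rpow_add hnp]
      norm_num
    have h4 : 0 < (n : ℝ) ^ (1 / 9 : ℝ) * (n : ℝ) ^ (-(1 / 8) : ℝ) := by positivity
    have h5 : (n : ℝ) ^ (1 / 9 : ℝ) * (n : ℝ) ^ (-(1 / 8) : ℝ) * (2 * (R + 1)) ≤ 1 :=
      (mul_le_mul_of_nonneg_left g1 h4.le).trans h2.le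
    nlinarith
  have hδ1 : 0 ≤ 1 - δ ∨ J = 0 := by
    rcases Nat.eq_zero_or_pos J with h0 | h0
    · exact Or.inr h0
    · left
      have : (1 : ℝ) ≤ J := by exact_mod_cast h0
      nlinarith
  rcases hδ1 with hδ1 | hJ0
  swap
  · subst hJ0; simp
  have step : ∀ j : ℕ, (1 - δ) ^ j * u n ≤ u (n + 2 * j) := by
    intro j
    induction j with
    | zero => simp
    | succ j ih =>
      have h4 := h (n + 2 * j) (by omega)
      have h5 : ((n + 2 * j : ℕ) : ℝ) ^ (-(1 / 8) : ℝ) ≤ (n : ℝ) ^ (-(1 / 8) : ℝ) := by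
        refine Real.rpow_le_rpow_of_nonpos hnp ?_ (by norm_num)
        exact_mod_cast Nat.le_add_right _ _
      have h6 : (1 - δ) * u (n + 2 * j) ≤
          (1 - R * ((n + 2 * j : ℕ) : ℝ) ^ (-(1 / 8) : ℝ)) * u (n + 2 * j) := by
        refine mul_le_mul_of_nonneg_right ?_ (hu _)
        rw [hδ]
        have := mul_le_mul_of_nonneg_left h5 hR
        linarith
      calc (1 - δ) ^ (j + 1) * u n = (1 - δ) * ((1 - δ) ^ j * u n) := by ring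
        _ ≤ (1 - δ) * u (n + 2 * j) := mul_le_mul_of_nonneg_left ih hδ1
        _ ≤ _ := h6.trans h4
  have half : ∀ j ∈ range J, u n / 2 ≤ u (n + 2 * j) := by
    intro j hj
    rw [Finset.mem_range] at hj
    refine le_trans ?_ (step j)
    have h4 := one_add_mul_le_pow (show (-2 : ℝ) ≤ -δ by linarith) j
    have h5 : (j : ℝ) * δ ≤ J * δ := by
      refine mul_le_mul_of_nonneg_right ?_ hδ0
      exact_mod_cast hj.le
    have h6 : (1 : ℝ) / 2 ≤ (1 - δ) ^ j := by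
      rw [sub_eq_add_neg]
      linarith
    have := mul_le_mul_of_nonneg_right h6 (hu n)
    linarith
  have h7 := Finset.sum_le_sum half
  rw [Finset.sum_const, Finset.card_range, nsmul_eq_mul] at h7
  have h8 : ∑ j ∈ range J, u (n + 2 * j) ≤ ∑ m ∈ Ico n (n + 2 * J), u m := by
    rw [← Finset.sum_image (f := u) (g := fun j => n + 2 * j) (fun x _ y _ hxy => by
      have : n + 2 * x = n + 2 * y := hxy
      omega)]
    refine Finset.sum_le_sum_of_subset_of_nonneg ?_ (fun m _ _ => hu m)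
    intro m hm
    rw [Finset.mem_image] at hm
    obtain ⟨j, hj, rfl⟩ := hm
    rw [Finset.mem_range] at hj
    rw [Finset.mem_Ico]
    omega
  calc (J : ℝ) / 2 * u n = J * (u n / 2) := by ring
    _ ≤ _ := h7.trans h8

/-- from windows to all lengths -/
theorem decay_reg (u : ℕ → ℝ) (hu : ∀ n, 0 ≤ u n) (R : ℝ) (hR : 0 ≤ R) (n1 : ℕ)
    (h : ∀ n, n1 ≤ n → (1 - R * (n : ℝ) ^ (-(1 / 8) : ℝ)) * u n ≤ u (n + 2))
    (c : ℝ) (hc : 0 < c) (M0 : ℕ)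
    (hw : ∀ M, M0 ≤ M → ∀ n, ∑ m ∈ Ico n (n + M), u m ≤ (M : ℝ) / Real.log M ^ c) :
    ∃ n2 : ℕ, ∀ n, n2 ≤ n → u n ≤ 1 / Real.log n ^ (c / 2) := by
  obtain ⟨n3, h3⟩ := regular u hu R hR n1 h
  have E1 : ∀ᶠ n : ℕ in atTop, (M0 : ℝ) + 1 ≤ (n : ℝ) ^ (1 / 9 : ℝ) :=
    ((tendsto_rpow_atTop (by norm_num)).comp tnat).eventually_ge_atTop _
  have E2 : ∀ᶠ n : ℕ in atTop, 4 * 9 ^ c ≤ Real.log (n : ℝ) ^ (c / 2) :=
    ((tendsto_rpow_atTop (by positivity)).comp tlog).eventually_ge_atTop _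
  obtain ⟨n4, h4⟩ := eventually_atTop.1 (E1.and E2)
  refine ⟨max (max n3 n4) 3, fun n hn => ?_⟩
  have hn3 : n3 ≤ n := (le_max_left _ _).trans ((le_max_left _ _).trans hn)
  obtain ⟨g1, g2⟩ := h4 n ((le_max_right _ _).trans ((le_max_left _ _).trans hn))
  have hn2 : 3 ≤ n := (le_max_right _ _).trans hn
  have hn' : (3 : ℝ) ≤ n := by exact_mod_cast hn2
  have hnp : (0 : ℝ) < n := by linarith
  have hln : 0 < Real.log (n : ℝ) := Real.log_pos (by linarith)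
  have hp0 : 0 ≤ (n : ℝ) ^ (1 / 9 : ℝ) := by positivity
  obtain ⟨J, hJ⟩ : ∃ J : ℕ, J = ⌊(n : ℝ) ^ (1 / 9 : ℝ)⌋₊ := ⟨_, rfl⟩
  have hJ1 : (J : ℝ) ≤ (n : ℝ) ^ (1 / 9 : ℝ) := by rw [hJ]; exact Nat.floor_le hp0
  have hJ2 : (n : ℝ) ^ (1 / 9 : ℝ) < J + 1 := by rw [hJ]; exact Nat.lt_floor_add_one _
  have hJ3 : (M0 : ℝ) < J := by linarith
  have hJ4 : M0 < J := by exact_mod_cast hJ3
  have hJ5 : (1 : ℝ) ≤ J := by
    have : 1 ≤ J := by omega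
    exact_mod_cast this
  have h5 := h3 n hn3 J hJ1
  have h6 := hw (2 * J) (by omega) n
  have h7 : Real.log (n : ℝ) / 9 ≤ Real.log ((2 * J : ℕ) : ℝ) := by
    have e : Real.log (n : ℝ) / 9 = Real.log ((n : ℝ) ^ (1 / 9 : ℝ)) := by
      rw [Real.log_rpow hnp]; ring
    rw [e]
    refine Real.log_le_log (by positivity) ?_
    push_cast
    linarith
  have h8 : Real.log (n : ℝ) ^ c ≤ 9 ^ c * Real.log ((2 * J : ℕ) : ℝ) ^ c := by
    rw [← Real.mul_rpow (by norm_num) (by linarith [div_pos hln (show (0:ℝ) < 9 by norm_num)])]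
    exact Real.rpow_le_rpow hln.le (by linarith) hc.le
  have hl0 : 0 < Real.log ((2 * J : ℕ) : ℝ) := by
    have := div_pos hln (show (0:ℝ) < 9 by norm_num)
    linarith
  have hlc : 0 < Real.log ((2 * J : ℕ) : ℝ) ^ c := Real.rpow_pos_of_pos hl0 _
  have h9 : u n ≤ 4 / Real.log ((2 * J : ℕ) : ℝ) ^ c := by
    have h10 := h5.trans h6
    have h11 : (J : ℝ) * u n ≤ J * (4 / Real.log ((2 * J : ℕ) : ℝ) ^ c) := by
      have e : ((2 * J : ℕ) : ℝ) / Real.log ((2 * J : ℕ) : ℝ) ^ c =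
          J * (2 / Real.log ((2 * J : ℕ) : ℝ) ^ c) := by
        push_cast
        ring
      rw [e] at h10
      have e2 : (J : ℝ) * (4 / Real.log ((2 * J : ℕ) : ℝ) ^ c) =
          2 * (J * (2 / Real.log ((2 * J : ℕ) : ℝ) ^ c)) := by ring
      rw [e2]
      linarith
    exact le_of_mul_le_mul_left h11 (by linarith)
  refine h9.trans ?_
  have hL : 0 < Real.log (n : ℝ) ^ (c / 2) := Real.rpow_pos_of_pos hln _
  have e1 : Real.log (n : ℝ) ^ c = Real.log (n : ℝ) ^ (c / 2) * Real.log (n : ℝ) ^ (c / 2) := by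
    rw [← Real.rpow_add hln]; congr 1; ring
  rw [div_le_div_iff₀ hlc hL]
  rw [e1] at h8
  have h90 : (0 : ℝ) < 9 ^ c := Real.rpow_pos_of_pos (by norm_num) _
  have h12 : 4 * 9 ^ c * Real.log (n : ℝ) ^ (c / 2) ≤
      9 ^ c * Real.log ((2 * J : ℕ) : ℝ) ^ c := by
    refine le_trans ?_ h8
    exact mul_le_mul_of_nonneg_right g2 hL.le
  have h13 : 9 ^ c * (4 * Real.log (n : ℝ) ^ (c / 2)) ≤
      9 ^ c * Real.log ((2 * J : ℕ) : ℝ) ^ c := by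
    linarith
  have := le_of_mul_le_mul_left h13 h90
  linarith

/-- exponentially rare events -/
theorem poor_small (A θ : ℝ) (hA : 0 ≤ A) (h0 : 0 < θ) (h1 : θ < 1) :
    ∀ᶠ n : ℕ in atTop,
      A * (n : ℝ) ^ 3 * θ ^ n * Real.exp (25 * (n : ℝ) ^ (3 / 4 : ℝ)) ≤ 1 := by
  obtain ⟨l, hl⟩ : ∃ l : ℝ, l = -Real.log θ := ⟨_, rfl⟩
  have hl0 : 0 < l := by
    rw [hl]
    have := Real.log_neg h0 h1
    linarith
  have E1 := exp_dom A 27 (3 / 4) (7 / 8) (by norm_num) (by norm_num)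
  have E2 : ∀ᶠ n : ℕ in atTop, Real.log (n : ℝ) ≤ (n : ℝ) ^ (3 / 4 : ℝ) := by
    have h3 := (isLittleO_log_rpow_atTop (show (0 : ℝ) < 3 / 4 by norm_num)).bound
      (show (0 : ℝ) < 1 by norm_num)
    have h4 := tnat.eventually h3
    filter_upwards [h4, eventually_ge_atTop 1] with m h5 hm1
    have hm : (1 : ℝ) ≤ m := by exact_mod_cast hm1
    rw [Real.norm_of_nonneg (Real.log_nonneg hm), Real.norm_of_nonneg (by positivity),
      one_mul] at h5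
    exact h5
  have E3 : ∀ᶠ n : ℕ in atTop, 1 / l ≤ (n : ℝ) ^ (1 / 8 : ℝ) :=
    ((tendsto_rpow_atTop (by norm_num)).comp tnat).eventually_ge_atTop _
  filter_upwards [E1, E2, E3, eventually_ge_atTop 1] with n e1 e2 e3 hn
  have hn' : (1 : ℝ) ≤ n := by exact_mod_cast hn
  have hnp : (0 : ℝ) < n := by linarith
  have h2 : (n : ℝ) ^ 2 ≤ Real.exp (2 * (n : ℝ) ^ (3 / 4 : ℝ)) := by
    have e : (n : ℝ) ^ 2 = Real.exp (2 * Real.log n) := by
      rw [two_mul, Real.exp_add, Real.exp_log hnp, pow_two]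
    rw [e]
    exact Real.exp_le_exp.2 (by linarith)
  have h3 : θ ^ n ≤ Real.exp (-(n : ℝ) ^ (7 / 8 : ℝ)) := by
    have e : θ ^ n = Real.exp (-(l * n)) := by
      rw [hl, neg_mul, neg_neg, mul_comm, Real.exp_nat_mul, Real.exp_log h0]
    rw [e]
    refine Real.exp_le_exp.2 (neg_le_neg ?_)
    have e4 : (n : ℝ) = (n : ℝ) ^ (7 / 8 : ℝ) * (n : ℝ) ^ (1 / 8 : ℝ) := by
      rw [← Real.rpow_add hnp]
      norm_num
    have h5 : 0 ≤ (n : ℝ) ^ (7 / 8 : ℝ) := by positivity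
    have h6 : 1 ≤ l * (n : ℝ) ^ (1 / 8 : ℝ) := by
      rw [div_le_iff₀ hl0] at e3
      linarith
    calc (n : ℝ) ^ (7 / 8 : ℝ) = (n : ℝ) ^ (7 / 8 : ℝ) * 1 := (mul_one _).symm
      _ ≤ (n : ℝ) ^ (7 / 8 : ℝ) * (l * (n : ℝ) ^ (1 / 8 : ℝ)) := mul_le_mul_of_nonneg_left h6 h5
      _ = l * ((n : ℝ) ^ (7 / 8 : ℝ) * (n : ℝ) ^ (1 / 8 : ℝ)) := by ring
      _ = l * n := by rw [← e4]
  refine le_trans ?_ e1
  have hθn : 0 < θ ^ n := by positivity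
  calc A * (n : ℝ) ^ 3 * θ ^ n * Real.exp (25 * (n : ℝ) ^ (3 / 4 : ℝ))
      = A * n * ((n : ℝ) ^ 2 * θ ^ n * Real.exp (25 * (n : ℝ) ^ (3 / 4 : ℝ))) := by ring
    _ ≤ A * n * (Real.exp (2 * (n : ℝ) ^ (3 / 4 : ℝ)) * Real.exp (-(n : ℝ) ^ (7 / 8 : ℝ)) *
        Real.exp (25 * (n : ℝ) ^ (3 / 4 : ℝ))) := by gcongr
    _ = A * n * Real.exp (27 * (n : ℝ) ^ (3 / 4 : ℝ) - (n : ℝ) ^ (7 / 8 : ℝ)) := by
        rw [← Real.exp_add, ← Real.exp_add]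
        congr 2
        ring

section

variable {V : Type*} [AddCommGroup V] {Ω : Finset V}

theorem mu_le_bb (L : Lev Ω) (n : ℕ) (hn : 1 ≤ n) :
    mu Ω ^ n ≤ mu Ω * Real.exp (25 * (n : ℝ) ^ (3 / 4 : ℝ)) * bb L n := by
  have hmu := mu_pos' Ω
  have h1 := mu_pow_le_br L (n - 1)
  rw [Nat.sub_add_cancel hn, ← bb_eq_br] at h1
  have h2 : ((n - 1 : ℕ) : ℝ) ^ (3 / 4 : ℝ) ≤ (n : ℝ) ^ (3 / 4 : ℝ) := by
    refine Real.rpow_le_rpow (Nat.cast_nonneg _) ?_ (by norm_num)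
    exact_mod_cast Nat.sub_le n 1
  calc mu Ω ^ n = mu Ω * mu Ω ^ (n - 1) := by
        rw [← pow_succ', Nat.sub_add_cancel hn]
    _ ≤ mu Ω * (Real.exp (25 * ((n - 1 : ℕ) : ℝ) ^ (3 / 4 : ℝ)) * bb L n) :=
        mul_le_mul_of_nonneg_left h1 hmu.le
    _ ≤ mu Ω * (Real.exp (25 * (n : ℝ) ^ (3 / 4 : ℝ)) * bb L n) := by gcongr
    _ = _ := by ring

/-- **ratios of consecutive numbers of bridges, from a system of local moves** -/
theorem ratio_of (L : Lev Ω) {α σ : Type} (X : TH966.AK.Sys α σ) (h0 : X.n0 = 0) (hs : X.s = 2)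
    (hB : ∀ n w, w ∈ X.K n → (X.B w).card ≤ X.C * (n + 1))
    (hcard : ∀ n, (X.K n).card = bb L n) (M : ℕ) (θ C : ℝ) (hθ0 : 0 < θ) (hθ1 : θ < 1)
    (hC : 0 ≤ C) (hpat : ∀ n, 4 ≤ n →
      (((X.K n).filter (fun w => M * (X.B w).card ≤ n)).card : ℝ) ≤ C * (θ * mu Ω) ^ n) :
    ∃ R : ℝ, 0 ≤ R ∧ ∃ n1 : ℕ, ∀ n, n1 ≤ n →
      (1 - R * (n : ℝ) ^ (-(1 / 8) : ℝ)) * uu L n ≤ uu L (n + 2) := by
  have hmu := mu_pos' Ω
  have hmu1 := one_le_mu L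
  obtain ⟨R, hR, hr⟩ := H726.GB.ratio (Y := X) h0 hmu1 hB M
  have E0 := poor_small (C * mu Ω ^ 3) θ (by positivity) hθ0 hθ1
  have E1 : ∀ᶠ n : ℕ in atTop, Real.log (n : ℝ) ≤ (n : ℝ) ^ (3 / 4 : ℝ) := by
    have h3 := (isLittleO_log_rpow_atTop (show (0 : ℝ) < 3 / 4 by norm_num)).bound
      (show (0 : ℝ) < 1 by norm_num)
    have h4 := tnat.eventually h3
    filter_upwards [h4, eventually_ge_atTop 1] with m h5 hm1
    have hm : (1 : ℝ) ≤ m := by exact_mod_cast hm1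
    rw [Real.norm_of_nonneg (Real.log_nonneg hm), Real.norm_of_nonneg (by positivity),
      one_mul] at h5
    exact h5
  have E2 : ∀ᶠ n : ℕ in atTop, Real.log (mu Ω) ≤ (n : ℝ) ^ (3 / 4 : ℝ) :=
    ((tendsto_rpow_atTop (by norm_num)).comp tnat).eventually_ge_atTop _
  obtain ⟨n2, h2⟩ := eventually_atTop.1 (E0.and (E1.and E2))
  have hf : X.Wt (fun _ => (1 : ℝ)) := ⟨fun _ _ _ => zero_le_one, fun _ _ _ _ _ => rfl⟩
  have haf : ∀ n, X.af (fun _ => (1 : ℝ)) n = bb L n := by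
    intro n
    show ∑ _w ∈ X.K n, (1 : ℝ) = _
    rw [Finset.sum_const, nsmul_eq_mul, mul_one, hcard]
  refine ⟨6 * R, by positivity, max (max n2 4) (2 * X.C * M), fun n hn => ?_⟩
  obtain ⟨g0, g1, g2⟩ := h2 n ((le_max_left _ _).trans ((le_max_left _ _).trans hn))
  have hn4 : 4 ≤ n := (le_max_right _ _).trans ((le_max_left _ _).trans hn)
  have hnM : 2 * X.C * M ≤ n := (le_max_right _ _).trans hn
  have hn' : (4 : ℝ) ≤ n := by exact_mod_cast hn4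
  have hnp : (0 : ℝ) < n := by linarith
  have hb := mu_le_bb L n (by omega)
  obtain ⟨e, he⟩ : ∃ e : ℝ, e = Real.exp (25 * (n : ℝ) ^ (3 / 4 : ℝ)) := ⟨_, rfl⟩
  rw [← he] at hb g0
  have he0 : 0 < e := by rw [he]; exact Real.exp_pos _
  have hbb : (0 : ℝ) < bb L n := by
    by_contra hcon
    push Not at hcon
    have h3 : 0 < mu Ω ^ n := by positivity
    have h4 : mu Ω * e * (bb L n : ℝ) ≤ 0 := mul_nonpos_of_nonneg_of_nonpos (by positivity) hcon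
    linarith
  -- rare objects
  have hrare : C * θ ^ n * mu Ω ^ (n + 2) * (n : ℝ) ^ 3 ≤ bb L n := by
    calc C * θ ^ n * mu Ω ^ (n + 2) * (n : ℝ) ^ 3
        = (C * mu Ω ^ 2 * (n : ℝ) ^ 3 * θ ^ n) * mu Ω ^ n := by rw [pow_add]; ring
      _ ≤ (C * mu Ω ^ 2 * (n : ℝ) ^ 3 * θ ^ n) * (mu Ω * e * bb L n) := by gcongr
      _ = (C * mu Ω ^ 3 * (n : ℝ) ^ 3 * θ ^ n * e) * bb L n := by ring
      _ ≤ 1 * bb L n := mul_le_mul_of_nonneg_right g0 hbb.le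
      _ = _ := one_mul _
  have hθn : 0 < θ ^ n := by positivity
  have hp1 : ∑ w ∈ (X.K n).filter (fun w => M * (X.B w).card ≤ n), (1 : ℝ) ≤
      X.af (fun _ => (1 : ℝ)) n / n ^ 3 := by
    rw [haf, Finset.sum_const, nsmul_eq_mul, mul_one, le_div_iff₀ (by positivity)]
    calc (((X.K n).filter (fun w => M * (X.B w).card ≤ n)).card : ℝ) * n ^ 3
        ≤ C * (θ * mu Ω) ^ n * n ^ 3 := by
          have := hpat n hn4
          gcongr
      _ = C * θ ^ n * mu Ω ^ n * n ^ 3 := by rw [mul_pow]; ring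
      _ ≤ C * θ ^ n * mu Ω ^ (n + 2) * n ^ 3 := by
          have : mu Ω ^ n ≤ mu Ω ^ (n + 2) := pow_le_pow_right₀ hmu1 (by omega)
          gcongr
      _ ≤ _ := hrare
  have hp2 : ∑ w ∈ (X.K (n + X.s)).filter (fun w => (X.B w).card = 0), (1 : ℝ) ≤
      X.af (fun _ => (1 : ℝ)) n / n := by
    rw [haf, Finset.sum_const, nsmul_eq_mul, mul_one, le_div_iff₀ hnp, hs]
    have h3 : ((X.K (n + 2)).filter (fun w => (X.B w).card = 0)).card ≤
        ((X.K (n + 2)).filter (fun w => M * (X.B w).card ≤ n + 2)).card := by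
      refine Finset.card_le_card (fun w hw => ?_)
      rw [Finset.mem_filter] at hw ⊢
      refine ⟨hw.1, ?_⟩
      rw [hw.2]
      omega
    have h4 : (((X.K (n + 2)).filter (fun w => (X.B w).card = 0)).card : ℝ) ≤
        C * (θ * mu Ω) ^ (n + 2) :=
      le_trans (by exact_mod_cast h3) (hpat (n + 2) (by omega))
    have h5 : θ ^ (n + 2) ≤ θ ^ n := pow_le_pow_of_le_one hθ0.le hθ1.le (by omega)
    have h6 : (n : ℝ) ≤ (n : ℝ) ^ 3 := by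
      calc (n : ℝ) = (n : ℝ) ^ 1 := (pow_one _).symm
        _ ≤ (n : ℝ) ^ 3 := pow_le_pow_right₀ (by linarith) (by norm_num)
    calc (((X.K (n + 2)).filter (fun w => (X.B w).card = 0)).card : ℝ) * n
        ≤ C * (θ * mu Ω) ^ (n + 2) * n := mul_le_mul_of_nonneg_right h4 hnp.le
      _ = C * θ ^ (n + 2) * mu Ω ^ (n + 2) * n := by rw [mul_pow]; ring
      _ ≤ C * θ ^ n * mu Ω ^ (n + 2) * (n : ℝ) ^ 3 := by gcongr
      _ ≤ _ := hrare
  have key := hr (fun _ => (1 : ℝ)) hf 1 n (by omega) hnM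
    (fun j _ => by rw [haf, one_mul]; exact bb_le L j) (by rw [haf]; exact hbb) hp1 hp2
  rw [haf, haf, hs, one_mul] at key
  -- the logarithm
  have hlog : Real.log (mu Ω ^ n / bb L n) ≤ Real.log (mu Ω) + 25 * (n : ℝ) ^ (3 / 4 : ℝ) := by
    have h3 : mu Ω ^ n / bb L n ≤ mu Ω * e := by
      rw [div_le_iff₀ hbb]
      exact hb
    have h4 := Real.log_le_log (by positivity) h3
    rw [Real.log_mul hmu.ne' he0.ne', he, Real.log_exp] at h4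
    exact h4
  have hsq : Real.sqrt ((Real.log (mu Ω ^ n / bb L n) + 3 * Real.log n) / n) ≤
      6 * (n : ℝ) ^ (-(1 / 8) : ℝ) := by
    have h3 : Real.log (mu Ω ^ n / bb L n) + 3 * Real.log n ≤ 29 * (n : ℝ) ^ (3 / 4 : ℝ) := by
      linarith
    have e1 : (n : ℝ) ^ (3 / 4 : ℝ) / n = ((n : ℝ) ^ (-(1 / 8) : ℝ)) ^ 2 := by
      rw [← Real.rpow_natCast ((n : ℝ) ^ (-(1 / 8) : ℝ)) 2, ← Real.rpow_mul hnp.le]
      conv_lhs => rw [← Real.rpow_one (n : ℝ)]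
      rw [← Real.rpow_mul hnp.le, ← Real.rpow_sub hnp]
      norm_num
    rw [Real.sqrt_le_left (by positivity), mul_pow, ← e1]
    rw [← mul_div_assoc]
    refine div_le_div_of_nonneg_right (h3.trans ?_) hnp.le
    have : 0 ≤ (n : ℝ) ^ (3 / 4 : ℝ) := by positivity
    linarith
  have key2 : mu Ω ^ 2 - 6 * R * (n : ℝ) ^ (-(1 / 8) : ℝ) ≤ (bb L (n + 2) : ℝ) / bb L n := by
    have h3 := (abs_le.1 key).1
    have h4 := mul_le_mul_of_nonneg_left hsq hR.le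
    linarith
  unfold uu
  rw [le_div_iff₀ hbb] at key2
  rw [le_div_iff₀ (by positivity), pow_add]
  have hx : 0 ≤ 6 * R * (n : ℝ) ^ (-(1 / 8) : ℝ) := by positivity
  have hmu2 : 1 ≤ mu Ω ^ 2 := one_le_pow₀ hmu1
  calc (1 - 6 * R * (n : ℝ) ^ (-(1 / 8) : ℝ)) * (bb L n / mu Ω ^ n) * (mu Ω ^ n * mu Ω ^ 2)
      = (mu Ω ^ 2 - 6 * R * (n : ℝ) ^ (-(1 / 8) : ℝ) * mu Ω ^ 2) * bb L n := by
        field_simp
    _ ≤ (mu Ω ^ 2 - 6 * R * (n : ℝ) ^ (-(1 / 8) : ℝ)) * bb L n := by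
        refine mul_le_mul_of_nonneg_right ?_ hbb.le
        nlinarith
    _ ≤ _ := key2

end

end Pool.Agent.Run7.h967.HB
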