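import Pool.Agent.Run7.h967.HB.Restr
import Pool.Agent.Run7.h967.HB.H3
import Pool.Agent.N169.EG.Win
import Pool.Agent.N953.EG.Geo3
import Pool.Agent.N558.EG.WK3
import Pool.Agent.N546.EG.CNT3
import Pool.Agent.TH966.KO.Kes

/-! # Bridges on `ℤ³`: the system of local moves -/

set_option autoImplicit false

namespace Pool.Agent.Run7.h967.HB

open Finset
open scoped Classical
open Pool.Agent.N929.EG (TS Geo Rul Walk Free rep T3 A3)
open KN (Z3 Dir)

/-- the last vertex -/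
def la (w : List Z3) : Z3 := w.getLast?.getD 0

theorem la_mid (L R : List Z3) (p r : Z3) (X X' : List Z3) :
    la (L ++ (p :: (X ++ [r])) ++ R) = la (L ++ (p :: (X' ++ [r])) ++ R) := by
  unfold la
  have h2 : ∀ (A : List Z3) (z : Z3), (A ++ [z]).getLast? = some z := by
    intro A z
    simp
  rcases List.eq_nil_or_concat R with h | ⟨R', z, h⟩
  · subst h
    have e : ∀ Z : List Z3, L ++ (p :: (Z ++ [r])) ++ [] = (L ++ p :: Z) ++ [r] := by
      intro Z; simp
    rw [e, e, h2, h2]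
  · subst h
    have e : ∀ Z : List Z3, L ++ (p :: (Z ++ [r])) ++ (R'.concat z) =
        (L ++ (p :: (Z ++ [r])) ++ R') ++ [z] := by
      intro Z; simp
    rw [e, e, h2, h2]

/-- a point of the slab -/
def slab (X : ℤ) (y : Z3) : Prop := y = 0 ∨ (0 < y.1 ∧ y.1 ≤ X)

/-- bridges, as lists of vertices -/
def QB (w : List Z3) : Prop := ∀ y ∈ w, slab (la w).1 y

/-- moves inside the slab -/
def GB (w : List Z3) (q : List Z3 × List Z3) : Prop := ∀ y ∈ q.2, slab (la w).1 y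

/-- one move -/
theorem move {w : List Z3} {q : List Z3 × List Z3} (hw : Walk 0 A3 w)
    (hq : T3 q.1 q.2 ∧ Free q.1 q.2 w) :
    la (rep w q.1 q.2) = la w ∧ ∀ y, y ∈ rep w q.1 q.2 ↔ y ∈ w ∨ y ∈ q.2 := by
  have hp := Pool.Agent.N953.EG.R3.pair q.1 q.2 hq.1
  obtain ⟨L, R, h1, h2, -, -, -⟩ := Pool.Agent.N929.EG.rep_all hp hw hq.2
  obtain ⟨⟨p, r, X, X', e1, e2, -, -⟩, -⟩ := hp
  constructor
  · rw [h2, h1]
    conv_rhs => rw [e1]
    conv_lhs => rw [e2]
    exact la_mid L R p r X' X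
  · intro y
    obtain ⟨p0, d, e, -, f1, f2⟩ := hq.1
    have hsub : ∀ z, z ∈ q.1 → z ∈ q.2 := by
      intro z hz
      rw [f1] at hz
      rw [f2]
      simp only [List.mem_cons, List.not_mem_nil, or_false] at hz ⊢
      tauto
    rw [h2]
    conv_rhs => rw [h1]
    simp only [List.mem_append]
    constructor
    · rintro ((h | h) | h)
      · exact Or.inl (Or.inl (Or.inl h))
      · exact Or.inr h
      · exact Or.inl (Or.inr h)
    · rintro (((h | h) | h) | h)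
      · exact Or.inl (Or.inl h)
      · exact Or.inl (Or.inr (hsub y h))
      · exact Or.inr h
      · exact Or.inl (Or.inr h)

/-- the system of moves on `ℤ³` -/
structure SZ (Y : TS (List Z3) (List Z3 × List Z3)) : Prop where
  s : Y.s = 2
  K : ∀ n w, w ∈ Y.K n ↔ w.length = n + 1 ∧ Walk 0 A3 w
  S : ∀ w q, q ∈ Y.S w ↔ T3 q.1 q.2 ∧ Free q.1 q.2 w
  B : ∀ w q, q ∈ Y.B w ↔ T3 q.1 q.2 ∧ Free q.2 q.1 w
  ins : ∀ w q, Y.ins w q = rep w q.1 q.2

theorem exists_SZ : ∃ Y : TS (List Z3) (List Z3 × List Z3), SZ Y := by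
  obtain ⟨Y, h1, h2, h3, h4, h5, h6⟩ := Pool.Agent.N169.EG.win Z3 Pool.Agent.N953.EG.X3 A3
    Pool.Agent.N953.EG.R3
  exact ⟨Y, h1, h3, h4, h5, h6⟩

/-- few places -/
theorem places {w : List Z3} {n : ℕ} (hw : w.length = n + 1) (S : Finset (List Z3 × List Z3))
    (hS : ∀ q ∈ S, T3 q.1 q.2 ∧ ∀ p, q.1.head? = some p → p ∈ w) : S.card ≤ 36 * (n + 1) := by
  have h1 : S ⊆ (w.toFinset ×ˢ (univ : Finset (Dir × Dir))).image (fun x =>
      ([x.1, x.1 + KN.vec x.2.2], [x.1, x.1 + KN.vec x.2.1, x.1 + KN.vec x.2.1 + KN.vec x.2.2,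
        x.1 + KN.vec x.2.2])) := by
    intro q hq
    obtain ⟨⟨p, d, e, -, f1, f2⟩, hp⟩ := hS q hq
    rw [mem_image]
    refine ⟨(p, (d, e)), ?_, ?_⟩
    · rw [mem_product]
      refine ⟨?_, mem_univ _⟩
      rw [List.mem_toFinset]
      exact hp p (by rw [f1]; rfl)
    · rw [← f1, ← f2]
  refine (card_le_card h1).trans (card_image_le.trans ?_)
  rw [card_product]
  have h2 : w.toFinset.card ≤ n + 1 := by
    rw [← hw]
    exact List.toFinset_card_le w
  have h3 : (univ : Finset (Dir × Dir)).card = 36 := by decide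
  rw [h3]
  nlinarith

variable {Y : TS (List Z3) (List Z3 × List Z3)}

theorem SZ.S_le (H : SZ Y) (n : ℕ) (w : List Z3) (hw : w ∈ Y.K n) :
    (Y.S w).card ≤ 36 * (n + 1) := by
  rw [H.K] at hw
  refine places hw.1 _ (fun q hq => ?_)
  rw [H.S] at hq
  refine ⟨hq.1, fun p hp => ?_⟩
  have h1 : p ∈ q.1 := List.mem_of_mem_head? hp
  exact hq.2.1.subset h1

theorem SZ.B_le (H : SZ Y) (n : ℕ) (w : List Z3) (hw : w ∈ Y.K n) :
    (Y.B w).card ≤ 36 * (n + 1) := by
  rw [H.K] at hw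
  refine places hw.1 _ (fun q hq => ?_)
  rw [H.B] at hq
  refine ⟨hq.1, fun p hp => ?_⟩
  obtain ⟨⟨p0, d, e, -, f1, f2⟩, hf⟩ := hq
  rw [f1] at hp
  have hp0 : p0 = p := by simpa using hp
  have h1 : p ∈ q.2 := by rw [f2, ← hp0]; simp
  exact hf.1.subset h1

theorem SZ.rc (H : SZ Y) : RC Y QB GB (36 + Y.d) where
  hC := by omega
  hd := by omega
  up := fun n w q hw hQ hq => by
    rw [H.K] at hw
    rw [H.S] at hq
    obtain ⟨h1, h2⟩ := move hw.2 hq
    rw [H.ins]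
    unfold QB GB
    rw [h1]
    constructor
    · intro h y hy
      exact h y ((h2 y).2 (Or.inr hy))
    · intro h y hy
      rcases (h2 y).1 hy with h3 | h3
      · exact hQ y h3
      · exact h y h3
  down := fun n w q hw hq hQ => by
    rw [H.K] at hw
    rw [H.S] at hq
    obtain ⟨h1, h2⟩ := move hw.2 hq
    rw [H.ins] at hQ
    unfold QB at hQ ⊢
    rw [h1] at hQ
    intro y hy
    exact hQ y ((h2 y).2 (Or.inl hy))
  inv := fun n w q q' hw hq => by
    rw [H.K] at hw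
    rw [H.S] at hq
    obtain ⟨h1, -⟩ := move hw.2 hq
    rw [H.ins]
    unfold GB
    rw [h1]
  S_le := fun n w hw => by
    have := H.S_le n w hw
    nlinarith

/-- the pattern theorem for the number of downward moves -/
theorem SZ.pat (H : SZ Y) : ∃ θ C : ℝ, 0 < θ ∧ θ < 1 ∧ 0 ≤ C ∧ ∀ n : ℕ, 4 ≤ n →
    (((Y.K n).filter (fun w => 10 ^ 7 * (Y.B w).card ≤ n)).card : ℝ) ≤
      C * (θ * Pool.Agent.H46R2.K3.mu) ^ n := by
  have hinv : TH966.KO.Inv (fun _ => True) := fun w _ i d _ => Iff.rfl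
  obtain ⟨θ, C, hθ0, hθ1, hbad⟩ := TH966.KO.o_pattern (fun _ => True) hinv
    TH966.KO.μ (by linarith [TH966.KO.mu_ge]) TH966.KO.mu_le
    (fun τ hτ => by
      obtain ⟨C, _, hC⟩ := TH966.KO.growth τ hτ
      refine ⟨C, fun n => le_trans ?_ (hC n)⟩
      exact_mod_cast TH966.KO.a_le n)
  have hmu : 0 < TH966.KO.μ := by linarith [TH966.KO.mu_one]
  refine ⟨θ, max C 0, hθ0, hθ1, le_max_right _ _, fun n hn => ?_⟩
  have e1 : (((Y.K n).filter (fun w => 10 ^ 7 * (Y.B w).card ≤ n)).card : ℝ) ≤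
      TH966.KO.bad (fun _ => True) n := by
    unfold TH966.KO.bad
    have e2 : (Y.K n).filter (fun w => 10 ^ 7 * (Y.B w).card ≤ n) ⊆
        ((TH966.KO.K (fun _ => True) n).filter
          (fun w => 10 ^ 7 * KN.fr w ≤ n ∨ 10 ^ 7 * KN.bu w ≤ n)).image
          (fun u => (KN.path u).reverse) := by
      intro w hw
      rw [mem_filter, H.K] at hw
      obtain ⟨hw1, hw2⟩ := hw
      obtain ⟨u, hu, rfl⟩ := (Pool.Agent.N558.EG.wk3 n w).1 hw1
      rw [mem_image]
      refine ⟨u, ?_, rfl⟩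
      obtain ⟨hl, hsaw⟩ := TH966.KO.mem_SS.1 hu
      rw [mem_filter, TH966.KO.mem_K]
      refine ⟨⟨hl, ⟨by omega, hsaw⟩, trivial⟩, ?_⟩
      right
      have e4 := (Pool.Agent.N546.EG.cnt3 n u hu (Y.B (KN.path u).reverse)).2
        (fun q => H.B _ q)
      have := Nat.mul_le_mul_left (10 ^ 7) e4
      omega
    exact_mod_cast (card_le_card e2).trans card_image_le
  refine e1.trans ((hbad n).trans ?_)
  have hθμ : 0 < θ * TH966.KO.μ := mul_pos hθ0 hmu
  exact mul_le_mul_of_nonneg_right (le_max_left _ _) (by positivity)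

end Pool.Agent.Run7.h967.HB
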