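import Pool.Agent.Run7.h967.HB.R3

/-! # Bridges on `ℤ³`: lists of vertices and sequences of steps -/

set_option autoImplicit false

namespace Pool.Agent.Run7.h967.HB

open Finset
open scoped Classical
open Pool.Agent.N929.EG (TS Geo Rul Walk Free rep T3 A3)
open Pool.Agent.H725R2.SB Pool.Agent.TH546.GD
open KN (Z3 Dir)

/-- coordinates -/
def toZ (v : Fin 3 → ℤ) : Z3 := (v 0, v 1, v 2)

/-- coordinates -/
def frZ (z : Z3) : Fin 3 → ℤ := ![z.1, z.2.1, z.2.2]

theorem toZ_frZ (z : Z3) : toZ (frZ z) = z := rfl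

theorem frZ_toZ (v : Fin 3 → ℤ) : frZ (toZ v) = v := by
  funext i
  fin_cases i <;> rfl

theorem toZ_inj {v v' : Fin 3 → ℤ} (h : toZ v = toZ v') : v = v' := by
  rw [← frZ_toZ v, h, frZ_toZ]

theorem toZ_zero : toZ 0 = 0 := rfl

theorem A3_iff (v v' : Fin 3 → ℤ) : A3 (toZ v) (toZ v') ↔ v' - v ∈ Om 3 := by
  rw [tN2_mem_Om]
  have hsum : ∑ k, |(v' - v) k| = |v' 0 - v 0| + |v' 1 - v 1| + |v' 2 - v 2| := by
    rw [Fin.sum_univ_three]
    rfl
  rw [hsum]
  constructor
  · rintro ⟨d, hd⟩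
    unfold toZ at hd
    cases d <;> simp only [KN.vec, Prod.mk_add_mk, Prod.mk.injEq] at hd <;>
      obtain ⟨h1, h2, h3⟩ := hd <;> rw [h1, h2, h3] <;> simp
  · intro h
    have h0 : (v' 0 - v 0 = 0 ∨ v' 0 - v 0 = 1 ∨ v' 0 - v 0 = -1) := by
      have := abs_nonneg (v' 1 - v 1)
      have := abs_nonneg (v' 2 - v 2)
      have h1 : |v' 0 - v 0| ≤ 1 := by omega
      rw [abs_le] at h1
      omega
    have h1 : (v' 1 - v 1 = 0 ∨ v' 1 - v 1 = 1 ∨ v' 1 - v 1 = -1) := by
      have := abs_nonneg (v' 0 - v 0)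
      have := abs_nonneg (v' 2 - v 2)
      have h1 : |v' 1 - v 1| ≤ 1 := by omega
      rw [abs_le] at h1
      omega
    have h2 : (v' 2 - v 2 = 0 ∨ v' 2 - v 2 = 1 ∨ v' 2 - v 2 = -1) := by
      have := abs_nonneg (v' 0 - v 0)
      have := abs_nonneg (v' 1 - v 1)
      have h1 : |v' 2 - v 2| ≤ 1 := by omega
      rw [abs_le] at h1
      omega
    have key : ∀ d : Dir, v' 0 = v 0 + (KN.vec d).1 → v' 1 = v 1 + (KN.vec d).2.1 →
        v' 2 = v 2 + (KN.vec d).2.2 → A3 (toZ v) (toZ v') := by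
      intro d e1 e2 e3
      refine ⟨d, ?_⟩
      unfold toZ
      rw [e1, e2, e3]
      rfl
    rcases h0 with h0 | h0 | h0 <;> rcases h1 with h1 | h1 | h1 <;> rcases h2 with h2 | h2 | h2 <;>
      rw [h0, h1, h2] at h <;> first
      | (exfalso; revert h; norm_num; done)
      | exact key .xp (by simp only [KN.vec]; omega) (by simp only [KN.vec]; omega)
          (by simp only [KN.vec]; omega)
      | exact key .xm (by simp only [KN.vec]; omega) (by simp only [KN.vec]; omega)
          (by simp only [KN.vec]; omega)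
      | exact key .yp (by simp only [KN.vec]; omega) (by simp only [KN.vec]; omega)
          (by simp only [KN.vec]; omega)
      | exact key .ym (by simp only [KN.vec]; omega) (by simp only [KN.vec]; omega)
          (by simp only [KN.vec]; omega)
      | exact key .zp (by simp only [KN.vec]; omega) (by simp only [KN.vec]; omega)
          (by simp only [KN.vec]; omega)
      | exact key .zm (by simp only [KN.vec]; omega) (by simp only [KN.vec]; omega)
          (by simp only [KN.vec]; omega)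

/-- the list of vertices -/
def lst (n : ℕ) (ξ : ℕ → Fin 3 → ℤ) : List Z3 := List.ofFn (fun i : Fin (n + 1) => toZ (P ξ i))

theorem la_lst (n : ℕ) (ξ : ℕ → Fin 3 → ℤ) : la (lst n ξ) = toZ (P ξ n) := by
  unfold la lst
  rw [List.ofFn_succ', List.concat_eq_append]
  simp

theorem walk_lst {n : ℕ} {ξ : ℕ → Fin 3 → ℤ} (h : IsSaw (Om 3) n ξ) : Walk 0 A3 (lst n ξ) := by
  unfold Walk lst
  refine ⟨?_, ?_, ?_⟩
  · rw [List.ofFn_succ]
    simp [toZ_zero]
  · rw [List.nodup_ofFn]
    intro i j hij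
    have h1 := toZ_inj hij
    by_contra hne
    have hne' : (i : ℕ) ≠ j := fun hh => hne (Fin.ext hh)
    rcases lt_or_gt_of_ne hne' with hlt | hlt
    · exact h.inj i j hlt (by omega) h1
    · exact h.inj j i hlt (by omega) h1.symm
  · rw [List.isChain_ofFn]
    intro i hi
    rw [A3_iff]
    simp only [P_succ, add_sub_cancel_left]
    exact h.step i (by omega)

theorem QB_lst {n : ℕ} {ξ : ℕ → Fin 3 → ℤ} (h : IsSaw (Om 3) n ξ) :
    QB (lst n ξ) ↔ IsBr (cl 3 0) n ξ := by
  have hl : ∀ i, lev (cl 3 0) ξ i = (toZ (P ξ i)).1 := fun i => rfl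
  have hmem : ∀ i, i ≤ n → toZ (P ξ i) ∈ lst n ξ := by
    intro i hi
    unfold lst
    rw [List.mem_ofFn]
    exact ⟨⟨i, by omega⟩, rfl⟩
  have hne : ∀ i, 1 ≤ i → i ≤ n → toZ (P ξ i) ≠ 0 := by
    intro i h1 h2 h0
    rw [← toZ_zero] at h0
    have h3 := toZ_inj h0
    exact h.inj 0 i (by omega) h2 (by rw [h3, P_zero])
  unfold QB
  rw [la_lst]
  constructor
  · intro hQ
    have key : ∀ i, 1 ≤ i → i ≤ n → 0 < lev (cl 3 0) ξ i ∧ lev (cl 3 0) ξ i ≤ lev (cl 3 0) ξ n := by
      intro i h1 h2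
      rcases hQ _ (hmem i h2) with h3 | h3
      · exact absurd h3 (hne i h1 h2)
      · exact h3
    refine ⟨h, fun i h1 h2 => (key i h1 h2).1, fun i hi => ?_⟩
    rcases Nat.eq_zero_or_pos i with h0 | h0
    · subst h0
      rw [lev_zero]
      rcases Nat.eq_zero_or_pos n with hn | hn
      · subst hn; rw [lev_zero]
      · exact (key n hn le_rfl).1.le
    · exact (key i h0 hi).2
  · intro hb y hy
    unfold lst at hy
    rw [List.mem_ofFn] at hy
    obtain ⟨i, rfl⟩ := hy
    rcases Nat.eq_zero_or_pos (i : ℕ) with h0 | h0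
    · left
      show toZ (P ξ i) = 0
      rw [h0, P_zero, toZ_zero]
    · right
      exact ⟨hb.pos i h0 (by omega), hb.top i (by omega)⟩

variable {Y : TS (List Z3) (List Z3 × List Z3)}

theorem SZ.card (H : SZ Y) (n : ℕ) : ((Y.K n).filter QB).card = bb (cl 3 0) n := by
  unfold bb
  symm
  refine Finset.card_bij (fun ξ _ => lst n ξ) ?_ ?_ ?_
  · intro ξ hξ
    rw [mem_BrS] at hξ
    rw [mem_filter, H.K]
    exact ⟨⟨by simp [lst], walk_lst hξ.saw⟩, (QB_lst hξ.saw).2 hξ⟩
  · intro ξ hξ ξ' hξ' heq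
    rw [mem_BrS] at hξ hξ'
    unfold lst at heq
    have h1 := List.ofFn_injective heq
    have h2 : ∀ i, i ≤ n → P ξ i = P ξ' i := by
      intro i hi
      have := congrFun h1 ⟨i, by omega⟩
      exact toZ_inj this
    funext i
    rcases lt_or_ge i n with hi | hi
    · have e1 := h2 i hi.le
      have e2 := h2 (i + 1) hi
      rw [P_succ, P_succ, e1] at e2
      exact add_left_cancel e2
    · rw [hξ.saw.zero i hi, hξ'.saw.zero i hi]
  · intro w hw
    rw [mem_filter, H.K] at hw
    obtain ⟨⟨hlen, hhead, hnd, hch⟩, hQ⟩ := hw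
    obtain ⟨ω, hω⟩ : ∃ ω : Fin (n + 1) → Fin 3 → ℤ, ω =
      fun i : Fin (n + 1) => frZ (w[i.1]'(by rw [hlen]; exact i.2)) := ⟨_, rfl⟩
    have e : List.ofFn (fun i : Fin (n + 1) => toZ (ω i)) = w := by
      apply List.ext_getElem
      · simp [hlen]
      · intro i hi hi'
        have h3 : ω ⟨i, by rw [← hlen]; exact hi'⟩ = frZ (w[i]'hi') := by rw [hω]
        rw [List.getElem_ofFn]
        exact (congrArg toZ h3).trans (toZ_frZ _)
    have hsaw : Pool.Agent.H725R2.SB.IsSAW 3 n ω := by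
      have hch2 := hch
      rw [← e, List.isChain_ofFn] at hch2
      have hnd2 := hnd
      rw [← e, List.nodup_ofFn] at hnd2
      refine ⟨?_, ?_, ?_⟩
      · have h1 := hhead
        rw [← e, List.ofFn_succ] at h1
        simp only [List.head?_cons, Option.some.injEq] at h1
        rw [← toZ_zero] at h1
        exact toZ_inj h1
      · intro i
        have h1 := hch2 i.1 (by have := i.2; omega)
        rw [A3_iff, tN2_mem_Om] at h1
        exact h1
      · intro i j hij
        exact hnd2 (by show toZ (ω i) = toZ (ω j); rw [hij])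
    have hmem := tN2_st_mem hsaw
    rw [mem_SawSet] at hmem
    have hlst : lst n (tN2_st n ω) = w := by
      rw [← e]
      unfold lst
      congr 1
      funext i
      rw [tN2_P_st_saw hsaw i]
    refine ⟨tN2_st n ω, ?_, hlst⟩
    rw [mem_BrS, ← QB_lst hmem, hlst]
    exact hQ

end Pool.Agent.Run7.h967.HB
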