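import Pool.Agent.Run7.h967.HB.R3b
import Pool.Agent.Run7.h967.HB.Main3
import Pool.Agent.Run7.h967.HB.Reg

/-! # Bridges on `ℤ³`: the decay for all lengths -/

set_option autoImplicit false

namespace Pool.Agent.Run7.h967.HB

open Finset Filter
open scoped Classical
open Pool.Agent.N929.EG (TS)
open Pool.Agent.H725R2.SB Pool.Agent.TH546.GD
open KN (Z3)

/-- ratios of consecutive numbers of bridges on `ℤ³` -/
theorem ratio3 : ∃ R : ℝ, 0 ≤ R ∧ ∃ n1 : ℕ, ∀ n, n1 ≤ n →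
    (1 - R * (n : ℝ) ^ (-(1 / 8) : ℝ)) * uu (cl 3 0) n ≤ uu (cl 3 0) (n + 2) := by
  obtain ⟨Y, H⟩ := exists_SZ
  obtain ⟨θ, C, hθ0, hθ1, hC, hpat⟩ := H.pat
  refine ratio_of (cl 3 0) (restr H.rc) rfl H.s ?_ ?_ (10 ^ 7) θ C hθ0 hθ1 hC ?_
  · intro n w hw
    have hw' : w ∈ (Y.K n).filter QB := hw
    have h1 := H.B_le n w (mem_filter.1 hw').1
    show (Y.B w).card ≤ (36 + Y.d) * (n + 1)
    nlinarith
  · intro n
    exact H.card n
  · intro n hn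
    rw [mu3]
    refine le_trans ?_ (hpat n hn)
    have h1 : (((Y.K n).filter QB).filter (fun w => 10 ^ 7 * (Y.B w).card ≤ n)).card ≤
        ((Y.K n).filter (fun w => 10 ^ 7 * (Y.B w).card ≤ n)).card := by
      refine card_le_card (fun w hw => ?_)
      rw [mem_filter, mem_filter] at hw
      rw [mem_filter]
      exact ⟨hw.1.1, hw.2⟩
    exact_mod_cast h1

/-- **bridges on `ℤ³`, every length** -/
theorem decay3 : ∃ c : ℝ, 0 < c ∧ ∃ n0 : ℕ, ∀ n, n0 ≤ n →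
    (bb (cl 3 0) n : ℝ) ≤ mu (Om 3) ^ n / Real.log n ^ c := by
  obtain ⟨R, hR, n1, h1⟩ := ratio3
  obtain ⟨c, hc, M0, h2⟩ := PS_le 3 (by norm_num)
  have hmu := mu_pos' (Om 3)
  have hu : ∀ n, 0 ≤ uu (cl 3 0) n := fun n => by
    unfold uu
    positivity
  obtain ⟨n2, h3⟩ := decay_reg (uu (cl 3 0)) hu R hR n1 h1 c hc (max M0 1) (fun M hM n =>
    (window_sum 0 n M ((le_max_right _ _).trans hM)).trans
      (h2 0 M ((le_max_left _ _).trans hM)))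
  refine ⟨c / 2, by positivity, n2, fun n hn => ?_⟩
  have h4 := h3 n hn
  unfold uu at h4
  rw [div_le_iff₀ (by positivity)] at h4
  refine h4.trans (le_of_eq ?_)
  ring

theorem main3' : ∃ c : ℝ, 0 < c ∧
    (∀ ε : ℝ, 0 < ε → ∃ n0 : ℕ, ∀ n : ℕ, n0 ≤ n → ∀ M : ℕ,
      (n : ℝ) ^ (1 / 3 + ε) ≤ M → M ≤ n →
      ∑ m ∈ Finset.Ico n (n + M), (hh (cl 3 0) m : ℝ) / cc (Om 3) m ≤
        (M : ℝ) / Real.log n ^ c) ∧
    (∀ ε : ℝ, 0 < ε → ∃ n0 : ℕ, ∀ n : ℕ, n0 ≤ n → ∀ a M : ℕ,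
      (n : ℝ) ^ (1 / 3 + ε) ≤ M → a + M ≤ n →
      ∑ t ∈ Finset.Ico a (a + M), (hh (cl 3 0) t : ℝ) * hh (cl 3 0) (n - 1 - t) ≤
        (M : ℝ) / Real.log n ^ c * cc (Om 3) n) ∧
    ∃ n0 : ℕ, ∀ n : ℕ, n0 ≤ n →
      (bb (cl 3 0) n : ℝ) ≤ mu (Om 3) ^ n / Real.log n ^ c := by
  obtain ⟨c1, hc1, h1, h2, -, -⟩ := main3
  obtain ⟨c2, hc2, n2, h3⟩ := decay3
  refine ⟨min c1 c2, by positivity, ?_, ?_, ?_⟩
  · intro ε hε
    obtain ⟨n0, h⟩ := h1 ε hε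
    refine ⟨max n0 3, fun n hn M hM hMn => ?_⟩
    refine (h n ((le_max_left _ _).trans hn) M hM hMn).trans ?_
    exact div_rpow_le (Nat.cast_nonneg _) (one_le_log ((le_max_right _ _).trans hn))
      (min_le_left _ _)
  · intro ε hε
    obtain ⟨n0, h⟩ := h2 ε hε
    refine ⟨max n0 3, fun n hn a M hM haM => ?_⟩
    have hn3 : 3 ≤ n := (le_max_right _ _).trans hn
    refine (h n ((le_max_left _ _).trans hn) a M hM haM).trans ?_
    refine mul_le_mul_of_nonneg_right ?_ (Nat.cast_nonneg _)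
    exact div_rpow_le (Nat.cast_nonneg _) (one_le_log hn3) (min_le_left _ _)
  · refine ⟨max n2 3, fun n hn => ?_⟩
    refine (h3 n ((le_max_left _ _).trans hn)).trans ?_
    have hmu := mu_pos' (Om 3)
    exact div_rpow_le (by positivity) (one_le_log ((le_max_right _ _).trans hn))
      (min_le_right _ _)

end Pool.Agent.Run7.h967.HB
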