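import Mathlib

/-! # Renewal sequences: decay of all terms from the decay of the means -/

set_option autoImplicit false

namespace Pool.Agent.Run7.h967.HB

open Finset

/-- `ℓ^1` norm at most `a` -/
def Mass (φ : PowerSeries ℝ) (a : ℝ) : Prop :=
  ∀ N : ℕ, ∑ n ∈ range N, |PowerSeries.coeff n φ| ≤ a

/-- coefficients at most `s` in absolute value -/
def Bd (φ : PowerSeries ℝ) (s : ℝ) : Prop := ∀ n : ℕ, |PowerSeries.coeff n φ| ≤ s

/-- degree less than `d` -/
def Deg (φ : PowerSeries ℝ) (d : ℕ) : Prop := ∀ n : ℕ, d ≤ n → PowerSeries.coeff n φ = 0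

theorem Mass.nonneg {φ : PowerSeries ℝ} {a : ℝ} (h : Mass φ a) : 0 ≤ a := by
  simpa using h 0

theorem Mass.mono {φ : PowerSeries ℝ} {a b : ℝ} (h : Mass φ a) (hab : a ≤ b) : Mass φ b :=
  fun N => (h N).trans hab

theorem Bd.nonneg {φ : PowerSeries ℝ} {s : ℝ} (h : Bd φ s) : 0 ≤ s :=
  (abs_nonneg _).trans (h 0)

theorem Bd.mono {φ : PowerSeries ℝ} {a b : ℝ} (h : Bd φ a) (hab : a ≤ b) : Bd φ b :=
  fun n => (h n).trans hab

theorem coeff_mul_range (φ ψ : PowerSeries ℝ) (n : ℕ) :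
    PowerSeries.coeff n (φ * ψ) = ∑ k ∈ range (n + 1),
      PowerSeries.coeff k φ * PowerSeries.coeff (n - k) ψ := by
  rw [PowerSeries.coeff_mul]
  exact Finset.Nat.sum_antidiagonal_eq_sum_range_succ
    (fun i j => PowerSeries.coeff i φ * PowerSeries.coeff j ψ) n

theorem Mass.mul {φ ψ : PowerSeries ℝ} {a b : ℝ} (h : Mass φ a) (h' : Mass ψ b) :
    Mass (φ * ψ) (a * b) := by
  intro N
  calc ∑ n ∈ range N, |PowerSeries.coeff n (φ * ψ)|
      ≤ ∑ n ∈ range N, ∑ k ∈ range (n + 1),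
        |PowerSeries.coeff k φ| * |PowerSeries.coeff (n - k) ψ| := by
        refine Finset.sum_le_sum (fun n _ => ?_)
        rw [coeff_mul_range]
        refine (Finset.abs_sum_le_sum_abs _ _).trans (le_of_eq ?_)
        exact Finset.sum_congr rfl (fun k _ => abs_mul _ _)
    _ = ∑ m ∈ range N, ∑ k ∈ range (N - m),
        |PowerSeries.coeff m φ| * |PowerSeries.coeff k ψ| :=
        Finset.sum_range_diag_flip N
          (fun i j => |PowerSeries.coeff i φ| * |PowerSeries.coeff j ψ|)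
    _ ≤ ∑ m ∈ range N, |PowerSeries.coeff m φ| * b := by
        refine Finset.sum_le_sum (fun m _ => ?_)
        rw [← Finset.mul_sum]
        exact mul_le_mul_of_nonneg_left (h' _) (abs_nonneg _)
    _ = (∑ m ∈ range N, |PowerSeries.coeff m φ|) * b := by rw [Finset.sum_mul]
    _ ≤ a * b := mul_le_mul_of_nonneg_right (h N) h'.nonneg

theorem Mass.mulBd {φ ψ : PowerSeries ℝ} {a s : ℝ} (h : Mass φ a) (h' : Bd ψ s) :
    Bd (φ * ψ) (a * s) := by
  intro n
  rw [coeff_mul_range]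
  calc |∑ k ∈ range (n + 1), PowerSeries.coeff k φ * PowerSeries.coeff (n - k) ψ|
      ≤ ∑ k ∈ range (n + 1), |PowerSeries.coeff k φ| * s := by
        refine (Finset.abs_sum_le_sum_abs _ _).trans (Finset.sum_le_sum (fun k _ => ?_))
        rw [abs_mul]
        exact mul_le_mul_of_nonneg_left (h' _) (abs_nonneg _)
    _ = (∑ k ∈ range (n + 1), |PowerSeries.coeff k φ|) * s := by rw [Finset.sum_mul]
    _ ≤ a * s := mul_le_mul_of_nonneg_right (h _) h'.nonneg

theorem Mass.add {φ ψ : PowerSeries ℝ} {a b : ℝ} (h : Mass φ a) (h' : Mass ψ b) :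
    Mass (φ + ψ) (a + b) := by
  intro N
  calc ∑ n ∈ range N, |PowerSeries.coeff n (φ + ψ)|
      ≤ ∑ n ∈ range N, (|PowerSeries.coeff n φ| + |PowerSeries.coeff n ψ|) := by
        refine Finset.sum_le_sum (fun n _ => ?_)
        rw [map_add]
        exact abs_add_le _ _
    _ = ∑ n ∈ range N, |PowerSeries.coeff n φ| + ∑ n ∈ range N, |PowerSeries.coeff n ψ| :=
        Finset.sum_add_distrib
    _ ≤ a + b := add_le_add (h N) (h' N)

theorem Bd.add {φ ψ : PowerSeries ℝ} {a b : ℝ} (h : Bd φ a) (h' : Bd ψ b) :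
    Bd (φ + ψ) (a + b) := by
  intro n
  rw [map_add]
  exact (abs_add_le _ _).trans (add_le_add (h n) (h' n))

theorem mass_zero : Mass 0 0 := by
  intro N
  simp

theorem mass_one : Mass 1 1 := by
  intro N
  simp only [PowerSeries.coeff_one]
  rcases Nat.eq_zero_or_pos N with h | h
  · subst h; simp
  · have : ∀ n ∈ range N, |(if n = 0 then (1 : ℝ) else 0)| = if n = 0 then 1 else 0 := by
      intro n _
      split_ifs <;> simp
    rw [Finset.sum_congr rfl this, Finset.sum_ite_eq']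
    simp [h]

theorem mass_X_pow (j : ℕ) : Mass (PowerSeries.X ^ j) 1 := by
  intro N
  simp only [PowerSeries.coeff_X_pow]
  have : ∀ n ∈ range N, |(if n = j then (1 : ℝ) else 0)| = if n = j then 1 else 0 := by
    intro n _
    split_ifs <;> simp
  rw [Finset.sum_congr rfl this, Finset.sum_ite_eq']
  split_ifs <;> simp

theorem Mass.pow {φ : PowerSeries ℝ} {a : ℝ} (h : Mass φ a) (k : ℕ) : Mass (φ ^ k) (a ^ k) := by
  induction k with
  | zero => simpa using mass_one
  | succ k ih =>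
    rw [pow_succ, pow_succ]
    exact ih.mul h

theorem Mass.pow_one {φ : PowerSeries ℝ} (h : Mass φ 1) (k : ℕ) : Mass (φ ^ k) 1 := by
  simpa using h.pow k

theorem mass_sum (s : ℕ) (φ : ℕ → PowerSeries ℝ) (a : ℕ → ℝ) (h : ∀ i, i < s → Mass (φ i) (a i)) :
    Mass (∑ i ∈ range s, φ i) (∑ i ∈ range s, a i) := by
  induction s with
  | zero => simpa using mass_zero
  | succ s ih =>
    rw [Finset.sum_range_succ, Finset.sum_range_succ]
    exact (ih (fun i hi => h i (by omega))).add (h s (by omega))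

theorem mass_C (r : ℝ) : Mass (PowerSeries.C r) |r| := by
  have h := mass_one
  intro N
  have h1 := h N
  have : ∀ n ∈ range N, |PowerSeries.coeff n (PowerSeries.C r)| =
      |r| * |PowerSeries.coeff n (1 : PowerSeries ℝ)| := by
    intro n _
    rw [PowerSeries.coeff_C, PowerSeries.coeff_one]
    split_ifs <;> simp
  rw [Finset.sum_congr rfl this, ← Finset.mul_sum]
  exact (mul_le_mul_of_nonneg_left h1 (abs_nonneg r)).trans (le_of_eq (mul_one _))

/-- telescoping -/
theorem mass_tel {x y : PowerSeries ℝ} {a : ℝ} (hx : Mass x 1) (hy : Mass y 1)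
    (h : Mass (x - y) a) (J : ℕ) : Mass (x ^ J - y ^ J) (J * a) := by
  rw [← geom_sum₂_mul x y J]
  have h1 : Mass (∑ i ∈ range J, x ^ i * y ^ (J - 1 - i)) J := by
    have := mass_sum J (fun i => x ^ i * y ^ (J - 1 - i)) (fun _ => 1) (fun i _ => by
      have := (hx.pow_one i).mul (hy.pow_one (J - 1 - i))
      simpa using this)
    simpa using this
  exact h1.mul h

theorem Deg.mul {φ ψ : PowerSeries ℝ} {a b : ℕ} (h : Deg φ a) (h' : Deg ψ b) :
    Deg (φ * ψ) (a + b) := by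
  intro n hn
  rw [coeff_mul_range]
  refine Finset.sum_eq_zero (fun k _ => ?_)
  rcases Nat.lt_or_ge k a with hk | hk
  · rw [h' (n - k) (by omega), mul_zero]
  · rw [h k hk, zero_mul]

theorem Deg.pow {φ : PowerSeries ℝ} {a : ℕ} (h : Deg φ a) (k : ℕ) : Deg (φ ^ k) (k * a + 1) := by
  induction k with
  | zero =>
    intro n hn
    rw [pow_zero, PowerSeries.coeff_one, if_neg (by omega)]
  | succ k ih =>
    rw [pow_succ]
    have := ih.mul h
    rwa [show k * a + 1 + a = (k + 1) * a + 1 by ring] at this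

/-! ### The smoothing kernel -/

theorem coeff_one_add_X_pow' (J n : ℕ) :
    PowerSeries.coeff n ((1 + PowerSeries.X : PowerSeries ℝ) ^ J) = (J.choose n : ℝ) := by
  induction J generalizing n with
  | zero =>
    rw [pow_zero, PowerSeries.coeff_one]
    rcases n with _ | n
    · simp
    · simp
  | succ J ih =>
    rw [pow_succ, mul_add, mul_one, map_add, ih]
    rcases n with _ | n
    · simp
    · rw [PowerSeries.coeff_succ_mul_X, ih, Nat.choose_succ_succ]
      push_cast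
      ring

theorem sum_choose_le (N R : ℕ) : ∑ i ∈ range R, (N.choose i : ℝ) ≤ 2 ^ N := by
  have h1 : ∑ i ∈ range R, (N.choose i : ℝ) ≤ ∑ i ∈ range (max R (N + 1)), (N.choose i : ℝ) := by
    refine Finset.sum_le_sum_of_subset_of_nonneg ?_ (fun _ _ _ => Nat.cast_nonneg _)
    exact Finset.range_subset_range.2 (le_max_left _ _)
  have h2 : ∑ i ∈ range (max R (N + 1)), (N.choose i : ℝ) = ∑ i ∈ range (N + 1), (N.choose i : ℝ) := by
    symm
    refine Finset.sum_subset (Finset.range_subset_range.2 (le_max_right _ _)) ?_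
    intro i _ hi
    rw [Finset.mem_range, not_lt] at hi
    rw [Nat.choose_eq_zero_of_lt (by omega)]
    simp
  have h3 : ∑ i ∈ range (N + 1), (N.choose i : ℝ) = 2 ^ N := by
    exact_mod_cast Nat.sum_range_choose N
  linarith

theorem sum_choose_var (N : ℕ) : ∀ R : ℕ,
    ∑ i ∈ range R, (N.choose i : ℝ) * ((N : ℝ) - 2 * i) ^ 2 ≤ (N : ℝ) * 2 ^ N := by
  induction N with
  | zero =>
    intro R
    refine le_of_eq ?_
    rw [Nat.cast_zero, zero_mul]
    refine Finset.sum_eq_zero (fun i _ => ?_)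
    rcases i with _ | i
    · simp
    · simp
  | succ N ih =>
    intro R
    rcases R with _ | R
    · simp only [Finset.range_zero, Finset.sum_empty]
      positivity
    · have h1 : ∑ i ∈ range (R + 1), ((N + 1).choose i : ℝ) * (((N + 1 : ℕ) : ℝ) - 2 * i) ^ 2 =
          ∑ i ∈ range (R + 1), (N.choose i : ℝ) * ((N : ℝ) + 1 - 2 * i) ^ 2 +
          ∑ i ∈ range R, (N.choose i : ℝ) * ((N : ℝ) - 1 - 2 * i) ^ 2 := by
        rw [Finset.sum_range_succ' _ R, Finset.sum_range_succ' _ R]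
        have : ∀ i ∈ range R, ((N + 1).choose (i + 1) : ℝ) *
            (((N + 1 : ℕ) : ℝ) - 2 * ((i + 1 : ℕ) : ℝ)) ^ 2 =
            (N.choose (i + 1) : ℝ) * ((N : ℝ) + 1 - 2 * ((i + 1 : ℕ) : ℝ)) ^ 2 +
            (N.choose i : ℝ) * ((N : ℝ) - 1 - 2 * i) ^ 2 := by
          intro i _
          rw [Nat.choose_succ_succ]
          push_cast
          ring
        rw [Finset.sum_congr rfl this, Finset.sum_add_distrib]
        simp only [Nat.choose_zero_right]
        push_cast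
        ring
      have h2 : ∑ i ∈ range R, (N.choose i : ℝ) * ((N : ℝ) - 1 - 2 * i) ^ 2 ≤
          ∑ i ∈ range (R + 1), (N.choose i : ℝ) * ((N : ℝ) - 1 - 2 * i) ^ 2 := by
        rw [Finset.sum_range_succ]
        have : 0 ≤ (N.choose R : ℝ) * ((N : ℝ) - 1 - 2 * R) ^ 2 := by positivity
        linarith
      have h3 : ∑ i ∈ range (R + 1), (N.choose i : ℝ) * ((N : ℝ) + 1 - 2 * i) ^ 2 +
          ∑ i ∈ range (R + 1), (N.choose i : ℝ) * ((N : ℝ) - 1 - 2 * i) ^ 2 =
          2 * ∑ i ∈ range (R + 1), (N.choose i : ℝ) * ((N : ℝ) - 2 * i) ^ 2 +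
          2 * ∑ i ∈ range (R + 1), (N.choose i : ℝ) := by
        rw [Finset.mul_sum, Finset.mul_sum, ← Finset.sum_add_distrib, ← Finset.sum_add_distrib]
        refine Finset.sum_congr rfl (fun i _ => ?_)
        ring
      have h4 := ih (R + 1)
      have h5 := sum_choose_le N (R + 1)
      rw [h1]
      push_cast
      rw [pow_succ]
      nlinarith

theorem sum_choose_abs (N R : ℕ) (hN : 1 ≤ N) :
    ∑ i ∈ range R, (N.choose i : ℝ) * |(N : ℝ) - 2 * i| ≤ 2 ^ N * Real.sqrt N := by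
  have h1 : (∑ i ∈ range R, (N.choose i : ℝ) * |(N : ℝ) - 2 * i|) ^ 2 ≤
      (∑ i ∈ range R, (N.choose i : ℝ)) *
        ∑ i ∈ range R, (N.choose i : ℝ) * ((N : ℝ) - 2 * i) ^ 2 := by
    refine Finset.sum_sq_le_sum_mul_sum_of_sq_le_mul _ (fun i _ => Nat.cast_nonneg _)
      (fun i _ => by positivity) (fun i _ => le_of_eq ?_)
    rw [mul_pow, sq_abs]
    ring
  have h2 := sum_choose_le N R
  have h3 := sum_choose_var N R
  have h4 : 0 ≤ ∑ i ∈ range R, (N.choose i : ℝ) * ((N : ℝ) - 2 * i) ^ 2 :=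
    Finset.sum_nonneg (fun i _ => by positivity)
  have h5 : (∑ i ∈ range R, (N.choose i : ℝ) * |(N : ℝ) - 2 * i|) ^ 2 ≤
      (2 ^ N * Real.sqrt N) ^ 2 := by
    rw [mul_pow, Real.sq_sqrt (Nat.cast_nonneg _)]
    calc (∑ i ∈ range R, (N.choose i : ℝ) * |(N : ℝ) - 2 * i|) ^ 2
        ≤ 2 ^ N * (N * 2 ^ N) := h1.trans (mul_le_mul h2 h3 h4 (by positivity))
      _ = (2 ^ N) ^ 2 * N := by ring
  exact le_of_sq_le_sq h5 (by positivity)

/-- the kernel -/
noncomputable def ker (J : ℕ) : PowerSeries ℝ :=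
  (PowerSeries.C (1 / 2 : ℝ) * (1 + PowerSeries.X)) ^ J

theorem coeff_ker (J n : ℕ) : PowerSeries.coeff n (ker J) = (J.choose n : ℝ) / 2 ^ J := by
  unfold ker
  rw [mul_pow, ← map_pow, PowerSeries.coeff_C_mul, coeff_one_add_X_pow']
  rw [div_pow, one_pow]
  ring

theorem mass_ker (J : ℕ) : Mass (ker J) 1 := by
  unfold ker
  refine Mass.pow_one ?_ J
  have h := (mass_C (1 / 2 : ℝ)).mul (mass_one.add (by simpa using mass_X_pow 1))
  refine h.mono ?_
  rw [abs_of_pos (by norm_num)]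
  norm_num

theorem mass_diff_ker (J : ℕ) :
    Mass ((1 - PowerSeries.X) * ker J) (2 / Real.sqrt ((J : ℝ) + 1)) := by
  intro N
  have hJ : (0 : ℝ) < (J : ℝ) + 1 := by positivity
  have h1 : ∀ n ∈ range N, |PowerSeries.coeff n ((1 - PowerSeries.X) * ker J)| =
      (((J + 1).choose n : ℝ) * |((J + 1 : ℕ) : ℝ) - 2 * n|) / (((J : ℝ) + 1) * 2 ^ J) := by
    intro n _
    rw [sub_mul, one_mul, map_sub]
    rcases n with _ | n
    · rw [PowerSeries.coeff_zero_X_mul, coeff_ker]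
      simp only [Nat.choose_zero_right, Nat.cast_one, sub_zero, Nat.cast_zero, mul_zero, one_mul]
      push_cast
      rw [abs_of_pos (by positivity), abs_of_pos hJ]
      field_simp
    · rw [PowerSeries.coeff_succ_X_mul, coeff_ker, coeff_ker]
      have e1 : ((J + 1 : ℕ) : ℝ) * (J.choose n : ℝ) =
          ((J + 1).choose (n + 1) : ℝ) * ((n : ℝ) + 1) := by
        have := Nat.add_one_mul_choose_eq J n
        exact_mod_cast this
      have e2 : ((J + 1 : ℕ) : ℝ) * (J.choose (n + 1) : ℝ) =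
          ((J + 1).choose (n + 1) : ℝ) * (((J + 1 : ℕ) : ℝ) - ((n : ℝ) + 1)) := by
        have e3 : ((J + 1).choose (n + 1) : ℝ) = (J.choose n : ℝ) + (J.choose (n + 1) : ℝ) := by
          rw [Nat.choose_succ_succ]
          push_cast
          ring
        have e4 : ((J + 1).choose (n + 1) : ℝ) * ((J + 1 : ℕ) : ℝ) =
          ((J + 1 : ℕ) : ℝ) * (J.choose n : ℝ) + ((J + 1 : ℕ) : ℝ) * (J.choose (n + 1) : ℝ) := by
          rw [e3]; ring
        rw [mul_sub, e4, e1]
        ring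
      have e5 : (J.choose (n + 1) : ℝ) / 2 ^ J - (J.choose n : ℝ) / 2 ^ J =
          (((J + 1).choose (n + 1) : ℝ) * (((J + 1 : ℕ) : ℝ) - 2 * ((n + 1 : ℕ) : ℝ))) /
            (((J : ℝ) + 1) * 2 ^ J) := by
        rw [← sub_div, div_eq_div_iff (by positivity) (by positivity)]
        have e6 : ((J : ℝ) + 1) * ((J.choose (n + 1) : ℝ) - (J.choose n : ℝ)) =
            ((J + 1).choose (n + 1) : ℝ) * (((J + 1 : ℕ) : ℝ) - 2 * ((n + 1 : ℕ) : ℝ)) := by
          push_cast at e1 e2 ⊢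
          linear_combination e2 - e1
        calc ((J.choose (n + 1) : ℝ) - (J.choose n : ℝ)) * (((J : ℝ) + 1) * 2 ^ J)
            = (((J : ℝ) + 1) * ((J.choose (n + 1) : ℝ) - (J.choose n : ℝ))) * 2 ^ J := by ring
          _ = _ := by rw [e6]
      rw [e5, abs_div, abs_mul, abs_of_nonneg (Nat.cast_nonneg _),
        abs_of_pos (show (0 : ℝ) < ((J : ℝ) + 1) * 2 ^ J by positivity)]
  rw [Finset.sum_congr rfl h1, ← Finset.sum_div]
  have h2 := sum_choose_abs (J + 1) N (by omega)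
  rw [div_le_div_iff₀ (by positivity) (by positivity)]
  have hs : 0 < Real.sqrt ((J : ℝ) + 1) := Real.sqrt_pos.2 hJ
  have hs2 : Real.sqrt ((J : ℝ) + 1) * Real.sqrt ((J : ℝ) + 1) = (J : ℝ) + 1 :=
    Real.mul_self_sqrt hJ.le
  have h3 : ((J + 1 : ℕ) : ℝ) = (J : ℝ) + 1 := by push_cast; ring
  calc (∑ i ∈ range N, ((J + 1).choose i : ℝ) * |((J + 1 : ℕ) : ℝ) - 2 * i|) *
        Real.sqrt ((J : ℝ) + 1)
      ≤ (2 ^ (J + 1) * Real.sqrt ((J + 1 : ℕ) : ℝ)) * Real.sqrt ((J : ℝ) + 1) :=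
        mul_le_mul_of_nonneg_right h2 hs.le
    _ = 2 ^ (J + 1) * (Real.sqrt ((J : ℝ) + 1) * Real.sqrt ((J : ℝ) + 1)) := by rw [h3]; ring
    _ = 2 * (((J : ℝ) + 1) * 2 ^ J) := by rw [hs2, pow_succ]; ring

end Pool.Agent.Run7.h967.HB
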