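import Pool.Agent.N929.EG.Stm
import Pool.Agent.H726.GB.Ratio

/-! # A class of objects which is kept by the downward moves of a system of local moves -/

set_option autoImplicit false

namespace Pool.Agent.Run7.h967.HB

open Finset
open scoped Classical
open Pool.Agent.N929.EG (TS)

/-- conditions for the class `Q`: an upward move at `q` keeps `Q` iff `G w q`; downward moves keep
`Q`; upward moves do not change `G` -/
structure RC {α σ : Type} (Y : TS α σ) (Q : α → Prop) (G : α → σ → Prop) (C : ℕ) : Prop where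
  hC : 1 ≤ C
  hd : Y.d ≤ C
  up : ∀ n w q, w ∈ Y.K n → Q w → q ∈ Y.S w → (Q (Y.ins w q) ↔ G w q)
  down : ∀ n w q, w ∈ Y.K n → q ∈ Y.S w → Q (Y.ins w q) → Q w
  inv : ∀ n w q q', w ∈ Y.K n → q ∈ Y.S w → (G (Y.ins w q) q' ↔ G w q')
  S_le : ∀ n w, w ∈ Y.K n → (Y.S w).card ≤ C * (n + 1)

variable {α σ : Type} {Y : TS α σ} {Q : α → Prop} {G : α → σ → Prop} {C : ℕ}

theorem RC.ins_Q (h : RC Y Q G C) {n : ℕ} {w : α} {q : σ} (hw : w ∈ (Y.K n).filter Q)
    (hq : q ∈ (Y.S w).filter (G w)) : Y.ins w q ∈ (Y.K (n + Y.s)).filter Q := by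
  rw [mem_filter] at hw hq ⊢
  exact ⟨Y.ins_K n w q hw.1 hq.1, (h.up n w q hw.1 hw.2 hq.1).2 hq.2⟩

theorem RC.rem_all (h : RC Y Q G C) {n : ℕ} {w : α} {q : σ}
    (hw : w ∈ (Y.K (n + Y.s)).filter Q) (hq : q ∈ Y.B w) :
    Y.rem w q ∈ (Y.K n).filter Q ∧ q ∈ (Y.S (Y.rem w q)).filter (G (Y.rem w q)) ∧
      Y.ins (Y.rem w q) q = w := by
  rw [mem_filter] at hw
  have h1 := Y.rem_K (n + Y.s) w q hw.1 hq
  rw [Nat.add_sub_cancel] at h1
  have h2 := Y.rem_S (n + Y.s) w q hw.1 hq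
  have h3 := Y.ins_rem (n + Y.s) w q hw.1 hq
  have h4 : Q (Y.rem w q) := h.down n _ q h1 h2 (by rw [h3]; exact hw.2)
  rw [mem_filter, mem_filter]
  refine ⟨⟨h1, h4⟩, ⟨h2, ?_⟩, h3⟩
  exact (h.up n _ q h1 h4 h2).1 (by rw [h3]; exact hw.2)

theorem card_union_cf {N : ℕ} {q : σ} (hq : q ∈ Y.U N) (A B : Finset σ) (hA : A ⊆ Y.U N)
    (hAB : ∀ q' ∈ A, ¬ Y.cf q q' → q' ∈ B) (hd : Y.d ≤ C) : A.card ≤ B.card + C := by
  have h1 : A ⊆ B ∪ (Y.U N).filter (fun q' => Y.cf q q') := by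
    intro q' hq'
    rw [mem_union, mem_filter]
    by_cases hc : Y.cf q q'
    · exact Or.inr ⟨hA hq', hc⟩
    · exact Or.inl (hAB q' hq' hc)
  have h2 := card_le_card h1
  have h3 := card_union_le B ((Y.U N).filter (fun q' => Y.cf q q'))
  have h4 := Y.deg N q hq
  omega

/-- the restricted system -/
noncomputable def restr (h : RC Y Q G C) : TH966.AK.Sys α σ where
  K n := (Y.K n).filter Q
  S w := (Y.S w).filter (G w)
  B := Y.B
  ins := Y.ins
  rem := Y.rem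
  s := Y.s
  C := C
  n0 := 0
  hC := h.hC
  ins_K := fun n w q hw hq => h.ins_Q hw hq
  ins_B := fun n w q hw hq => Y.ins_B n w q (mem_filter.1 hw).1 (mem_filter.1 hq).1
  rem_ins := fun n w q hw hq => Y.rem_ins n w q (mem_filter.1 hw).1 (mem_filter.1 hq).1
  rem_K := fun n w q _ hw hq => (h.rem_all hw hq).1
  rem_S := fun n w q _ hw hq => (h.rem_all hw hq).2.1
  ins_rem := fun n w q _ hw hq => (h.rem_all hw hq).2.2
  chS1 := fun n w q hw hq => by
    have hw1 := (mem_filter.1 hw).1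
    have hq1 := (mem_filter.1 hq).1
    have hU := (Y.S_U n n w hw1 le_rfl).1
    refine card_union_cf (hU hq1) _ _ ((filter_subset _ _).trans hU) ?_ h.hd
    intro q' hq' hcf
    rw [mem_filter] at hq' ⊢
    exact ⟨(Y.ins_S n w q q' hw1 hq1 hcf).2 hq'.1, (h.inv n w q q' hw1 hq1).2 hq'.2⟩
  chS2 := fun n w q hw hq => by
    have hw1 := (mem_filter.1 hw).1
    have hq1 := (mem_filter.1 hq).1
    have hw2 := Y.ins_K n w q hw1 hq1
    have hU := (Y.S_U n (n + Y.s) w hw1 (Nat.le_add_right _ _)).1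
    have hU2 := (Y.S_U (n + Y.s) (n + Y.s) _ hw2 le_rfl).1
    refine card_union_cf (hU hq1) _ _ ((filter_subset _ _).trans hU2) ?_ h.hd
    intro q' hq' hcf
    rw [mem_filter] at hq' ⊢
    exact ⟨(Y.ins_S n w q q' hw1 hq1 hcf).1 hq'.1, (h.inv n w q q' hw1 hq1).1 hq'.2⟩
  chB1 := fun n w q hw hq => by
    have hw1 := (mem_filter.1 hw).1
    have hq1 := (mem_filter.1 hq).1
    have hU := Y.S_U n n w hw1 le_rfl
    refine card_union_cf (hU.1 hq1) _ _ hU.2 ?_ h.hd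
    intro q' hq' hcf
    exact (Y.ins_BB n w q q' hw1 hq1 hcf).2 hq'
  chB2 := fun n w q hw hq => by
    have hw1 := (mem_filter.1 hw).1
    have hq1 := (mem_filter.1 hq).1
    have hw2 := Y.ins_K n w q hw1 hq1
    have hU := (Y.S_U n (n + Y.s) w hw1 (Nat.le_add_right _ _)).1
    have hU2 := (Y.S_U (n + Y.s) (n + Y.s) _ hw2 le_rfl).2
    refine card_union_cf (hU hq1) _ _ hU2 ?_ h.hd
    intro q' hq' hcf
    exact (Y.ins_BB n w q q' hw1 hq1 hcf).1 hq'
  S_le := fun n w hw => (card_le_card (filter_subset _ _)).trans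
    (h.S_le n w (mem_filter.1 hw).1)

end Pool.Agent.Run7.h967.HB
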