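import Pool.Agent.Run7.h967.HB.HW
import Pool.Agent.TH546.GD.Far

/-! # Cut times of the walks on `ℤ^d` in a block of times -/

set_option autoImplicit false

namespace Pool.Agent.Run7.h967.HB

open scoped Classical
open Pool.Agent.H725R2.SB Pool.Agent.TH546.GD Finset

/-- change the sign of a coordinate -/
def flipE (d : ℕ) (i : Fin d) : (Fin d → ℤ) ≃+ (Fin d → ℤ) where
  toFun v := fun j => if j = i then - v j else v j
  invFun v := fun j => if j = i then - v j else v j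
  left_inv v := by
    funext j
    by_cases h : j = i <;> simp [h]
  right_inv v := by
    funext j
    by_cases h : j = i <;> simp [h]
  map_add' v w := by
    funext j
    by_cases h : j = i
    · simp [h]; ring
    · simp [h]

theorem flipE_apply (d : ℕ) (i : Fin d) (v : Fin d → ℤ) (j : Fin d) :
    flipE d i v j = if j = i then - v j else v j := rfl

/-- the level functional given by a coordinate -/
def cl (d : ℕ) (i : Fin d) : Lev (Om d) where
  F := Pi.evalAddMonoidHom (fun _ : Fin d => ℤ) i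
  r := flipE d i
  e := Pi.single i 1
  le_one := fun v hv => by
    rw [tN2_mem_Om] at hv
    rw [← hv]
    exact Finset.single_le_sum (f := fun k => |v k|) (fun _ _ => abs_nonneg _) (Finset.mem_univ i)
  rF := fun v => by
    simp [flipE_apply]
  rΩ := fun v hv => by
    rw [tN2_mem_Om] at hv ⊢
    rw [← hv]
    refine Finset.sum_congr rfl (fun k _ => ?_)
    rw [flipE_apply]
    split_ifs
    · rw [abs_neg]
    · rfl
  rr := fun v => by
    funext j
    rw [flipE_apply, flipE_apply]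
    split_ifs
    · ring
    · rfl
  eΩ := by
    rw [tN2_mem_Om]
    rw [Finset.sum_eq_single i]
    · simp
    · intro b _ hb
      simp [Pi.single_eq_of_ne hb]
    · simp
  Fe := by simp

theorem cl_F (d : ℕ) (i : Fin d) (v : Fin d → ℤ) : (cl d i).F v = v i := rfl

/-- going far in a coordinate -/
theorem far_of_lev {d : ℕ} (i : Fin d) {a M D : ℕ} {c : ℝ} {ζ : ℕ → Fin d → ℤ}
    (hD : (M : ℝ) / Real.log M ^ c < D + 1)
    (h : ∃ k, k ≤ M ∧ (D : ℤ) < |lev (cl d i) ζ (a + k) - lev (cl d i) ζ a|) :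
    pcs a M ζ ∈ FE d M c := by
  obtain ⟨k, hk, h1⟩ := h
  refine ⟨k, hk, ?_⟩
  have h2 : lev (cl d i) ζ (a + k) - lev (cl d i) ζ a = P (pcs a M ζ) k i := by
    rw [P_pcs ζ hk]
    unfold lev
    rw [cl_F, cl_F]
    rfl
  rw [h2] at h1
  have h3 : (D : ℝ) + 1 ≤ |((P (pcs a M ζ) k i : ℤ) : ℝ)| := by
    have h4 : (D : ℤ) + 1 ≤ |P (pcs a M ζ) k i| := h1
    have h5 : (((D : ℤ) + 1 : ℤ) : ℝ) ≤ ((|P (pcs a M ζ) k i| : ℤ) : ℝ) := by exact_mod_cast h4
    push_cast at h5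
    exact h5
  have h4 : |((P (pcs a M ζ) k i : ℤ) : ℝ)| ≤
      Real.sqrt (∑ j, ((P (pcs a M ζ) k j : ℤ) : ℝ) ^ 2) := by
    rw [← Real.sqrt_sq_eq_abs]
    exact Real.sqrt_le_sqrt (Finset.single_le_sum
      (f := fun j => ((P (pcs a M ζ) k j : ℤ) : ℝ) ^ 2) (fun _ _ => sq_nonneg _)
      (Finset.mem_univ i))
  linarith

/-- **cut times in a block** -/
theorem block (d : ℕ) (hd : 2 ≤ d) : ∃ c : ℝ, 0 < c ∧ ∀ ε : ℝ, 0 < ε → ∃ m0 : ℕ, 3 ≤ m0 ∧
    ∀ (i : Fin d) (n a M r : ℕ) (S : Finset (ℕ → Fin d → ℤ)), m0 ≤ M → n = a + M + r →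
      S ⊆ SawSet (Om d) n →
      ∑ t ∈ Finset.Ico a (a + M), ((S.filter (fun ζ => CutT (cl d i) n ζ t)).card : ℝ) ≤
        (2 * ((M : ℝ) / Real.log M ^ c) + 1) * S.card +
          M * (Real.exp (-(M : ℝ) ^ (1 - ε)) *
            (cc (Om d) a * cc (Om d) M * cc (Om d) r)) := by
  obtain ⟨c, hc, h⟩ := far_card d hd
  refine ⟨c, hc, fun ε hε => ?_⟩
  obtain ⟨m0, h0⟩ := h ε hε
  refine ⟨max m0 3, le_max_right _ _, fun i n a M r S hM hn hS => ?_⟩
  have hM3 : 3 ≤ M := (le_max_right _ _).trans hM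
  have hM' : (3 : ℝ) ≤ M := by exact_mod_cast hM3
  have hlog : 0 ≤ Real.log M := Real.log_nonneg (by linarith)
  have hB : 0 ≤ (M : ℝ) / Real.log M ^ c := by positivity
  have h1 := sum_cuts (cl d i) (D := ⌊(M : ℝ) / Real.log M ^ c⌋₊) (show a + M ≤ n by omega) S hS
  have h2 : (((SawSet (Om d) n).filter (fun ζ => ∃ k, k ≤ M ∧
      ((⌊(M : ℝ) / Real.log M ^ c⌋₊ : ℕ) : ℤ) <
        |lev (cl d i) ζ (a + k) - lev (cl d i) ζ a|)).card : ℝ) ≤
      (((SawSet (Om d) n).filter (fun ζ => pcs a M ζ ∈ FE d M c)).card : ℝ) := by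
    have := Finset.card_le_card (s := (SawSet (Om d) n).filter (fun ζ => ∃ k, k ≤ M ∧
      ((⌊(M : ℝ) / Real.log M ^ c⌋₊ : ℕ) : ℤ) <
        |lev (cl d i) ζ (a + k) - lev (cl d i) ζ a|))
      (t := (SawSet (Om d) n).filter (fun ζ => pcs a M ζ ∈ FE d M c)) (by
        intro ζ hζ
        rw [Finset.mem_filter] at hζ ⊢
        exact ⟨hζ.1, far_of_lev i (Nat.lt_floor_add_one _) hζ.2⟩)
    exact_mod_cast this
  have h3 := card_pcs (Ω := Om d) a M r (FE d M c) hn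
  have h4 := h0 M ((le_max_left _ _).trans hM)
  have h5 : ((⌊(M : ℝ) / Real.log M ^ c⌋₊ : ℕ) : ℝ) ≤ (M : ℝ) / Real.log M ^ c :=
    Nat.floor_le hB
  have h6 : (∑ t ∈ Finset.Ico a (a + M), ((S.filter (fun ζ => CutT (cl d i) n ζ t)).card : ℝ)) ≤
      (2 * ((⌊(M : ℝ) / Real.log M ^ c⌋₊ : ℕ) : ℝ) + 1) * S.card +
        M * (((SawSet (Om d) n).filter (fun ζ => ∃ k, k ≤ M ∧
          ((⌊(M : ℝ) / Real.log M ^ c⌋₊ : ℕ) : ℤ) <
            |lev (cl d i) ζ (a + k) - lev (cl d i) ζ a|)).card : ℝ) := by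
    exact_mod_cast h1
  refine h6.trans (add_le_add ?_ ?_)
  · exact mul_le_mul_of_nonneg_right (by linarith) (Nat.cast_nonneg _)
  · refine mul_le_mul_of_nonneg_left ?_ (Nat.cast_nonneg _)
    calc (((SawSet (Om d) n).filter (fun ζ => ∃ k, k ≤ M ∧
          ((⌊(M : ℝ) / Real.log M ^ c⌋₊ : ℕ) : ℤ) <
            |lev (cl d i) ζ (a + k) - lev (cl d i) ζ a|)).card : ℝ)
        ≤ cc (Om d) a * (((SawSet (Om d) M).filter (fun v => v ∈ FE d M c)).card : ℝ) *
          cc (Om d) r := h2.trans h3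
      _ ≤ cc (Om d) a * (Real.exp (-(M : ℝ) ^ (1 - ε)) * cc (Om d) M) * cc (Om d) r := by
          gcongr
      _ = _ := by ring

end Pool.Agent.Run7.h967.HB
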